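import Mathlib

set_option autoImplicit false
set_option linter.unusedSectionVars false

/-! # Fourier analysis on a finite vector space with a symmetric nondegenerate form -/

open Finset ComplexConjugate

namespace Pool.Agent.H375R4

/-- A symmetric nondegenerate bilinear form, unbundled. -/
structure SForm (F V : Type*) [Field F] [AddCommGroup V] [Module F V] where
  B : V → V → F
  symm : ∀ x y, B x y = B y x
  add_left : ∀ x y z, B (x + y) z = B x z + B y z
  smul_left : ∀ (c : F) (x y : V), B (c • x) y = c * B x y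
  nd : ∀ x, (∀ y, B x y = 0) → x = 0

namespace SForm

variable {F V : Type*} [Field F] [AddCommGroup V] [Module F V] (b : SForm F V)

/-- the quadratic form -/
def Q (x : V) : F := b.B x x

@[simp] lemma zero_left (y : V) : b.B 0 y = 0 := by
  have := b.smul_left 0 0 y
  simpa using this

@[simp] lemma zero_right (y : V) : b.B y 0 = 0 := by rw [b.symm]; simp

lemma add_right (x y z : V) : b.B x (y + z) = b.B x y + b.B x z := by
  rw [b.symm, b.add_left, b.symm y, b.symm z]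

lemma smul_right (c : F) (x y : V) : b.B x (c • y) = c * b.B x y := by
  rw [b.symm, b.smul_left, b.symm]

lemma neg_left (x y : V) : b.B (-x) y = - b.B x y := by
  have := b.smul_left (-1) x y
  simpa using this

lemma neg_right (x y : V) : b.B x (-y) = - b.B x y := by
  rw [b.symm, b.neg_left, b.symm]

lemma sub_left (x y z : V) : b.B (x - y) z = b.B x z - b.B y z := by
  rw [sub_eq_add_neg, b.add_left, b.neg_left, sub_eq_add_neg]

lemma sub_right (x y z : V) : b.B x (y - z) = b.B x y - b.B x z := by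
  rw [sub_eq_add_neg, b.add_right, b.neg_right, sub_eq_add_neg]

@[simp] lemma Q_zero : b.Q 0 = 0 := by simp [Q]

lemma Q_neg (x : V) : b.Q (-x) = b.Q x := by simp [Q, b.neg_left, b.neg_right]

lemma Q_smul (c : F) (x : V) : b.Q (c • x) = c ^ 2 * b.Q x := by
  simp only [Q, b.smul_left, b.smul_right]; ring

lemma Q_add (x y : V) : b.Q (x + y) = b.Q x + 2 * b.B x y + b.Q y := by
  simp only [Q, b.add_left, b.add_right, b.symm y x]; ring

lemma Q_sub (x y : V) : b.Q (x - y) = b.Q x - 2 * b.B x y + b.Q y := by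
  simp only [Q, b.sub_left, b.sub_right, b.symm y x]; ring

lemma nd' (y : V) (hy : y ≠ 0) (c : F) : ∃ x, b.B x y = c := by
  by_contra hcon
  push Not at hcon
  apply hy
  apply b.nd
  intro z
  by_contra hz
  apply hcon ((c / b.B y z) • z)
  rw [b.smul_left, b.symm z y]
  field_simp

end SForm

section chars

variable {F : Type*} [Field F] [Fintype F] [DecidableEq F]
variable {V : Type*} [AddCommGroup V] [Module F V] [Fintype V] [DecidableEq V]
variable (b : SForm F V) (ψ : AddChar F ℂ)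

lemma norm_psi (x : F) : ‖ψ x‖ = 1 := by
  exact AddChar.norm_apply ψ x

lemma conj_psi (x : F) : conj (ψ x) = ψ (-x) := (AddChar.map_neg_eq_conj ψ x).symm

lemma psi_mul_conj (x : F) : ψ x * conj (ψ x) = 1 := by
  rw [conj_psi, ← AddChar.map_add_eq_mul]; simp

variable {ψ}

lemma sum_F (hψ : ψ ≠ 1) (y : F) :
    ∑ x : F, ψ (x * y) = if y = 0 then (Fintype.card F : ℂ) else 0 := by
  have := AddChar.sum_mulShift y (AddChar.IsPrimitive.of_ne_one hψ)
  rw [this]; split_ifs <;> simp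

lemma sum_F' (hψ : ψ ≠ 1) (y : F) :
    ∑ x : F, ψ (y * x) = if y = 0 then (Fintype.card F : ℂ) else 0 := by
  simp_rw [mul_comm y]; exact sum_F hψ y

lemma exists_psi_ne (hψ : ψ ≠ 1) : ∃ c : F, ψ c ≠ 1 := by
  by_contra hcon
  push Not at hcon
  apply hψ
  ext x
  simp [hcon x]

lemma sum_V (hψ : ψ ≠ 1) (y : V) :
    ∑ x : V, ψ (b.B x y) = if y = 0 then (Fintype.card V : ℂ) else 0 := by
  split_ifs with h
  · subst h; simp
  · obtain ⟨c, hc⟩ := exists_psi_ne hψ
    obtain ⟨x0, hx0⟩ := b.nd' y h c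
    have h1 : ∑ x : V, ψ (b.B x y) = ψ c * ∑ x : V, ψ (b.B x y) := by
      calc ∑ x : V, ψ (b.B x y) = ∑ x : V, ψ (b.B (x0 + x) y) :=
            (Equiv.sum_comp (Equiv.addLeft x0) (fun x => ψ (b.B x y))).symm
        _ = ψ c * ∑ x : V, ψ (b.B x y) := by
            rw [Finset.mul_sum]
            refine Finset.sum_congr rfl fun x _ => ?_
            rw [b.add_left, hx0, AddChar.map_add_eq_mul]
    have h2 : (ψ c - 1) * ∑ x : V, ψ (b.B x y) = 0 := by
      rw [sub_mul, ← h1]; ring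
    rcases mul_eq_zero.mp h2 with h3 | h3
    · exact absurd (sub_eq_zero.mp h3) hc
    · exact h3

lemma sum_V' (hψ : ψ ≠ 1) (y : V) :
    ∑ x : V, ψ (b.B y x) = if y = 0 then (Fintype.card V : ℂ) else 0 := by
  simp_rw [b.symm y]; exact sum_V b hψ y

variable (ψ)

/-- Fourier transform -/
noncomputable def ft (g : V → ℂ) (m : V) : ℂ := ∑ x, g x * ψ (-(b.B m x))

/-- the kernel with given (real) Fourier transform -/
noncomputable def ker (w : V → ℝ) (x : V) : ℂ :=
  (Fintype.card V : ℂ)⁻¹ * ∑ m, (w m : ℂ) * ψ (b.B m x)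

lemma ft_ker (hψ : ψ ≠ 1) (w : V → ℝ) (m : V) : ft b ψ (ker b ψ w) m = w m := by
  classical
  have hv : (Fintype.card V : ℂ) ≠ 0 := by
    exact_mod_cast Fintype.card_ne_zero
  unfold ft ker
  simp_rw [mul_assoc, ← Finset.mul_sum, Finset.sum_mul]
  rw [Finset.sum_comm]
  have : ∀ y : V, ∑ x : V, (w y : ℂ) * ψ (b.B y x) * ψ (-(b.B m x)) =
      (w y : ℂ) * (if y - m = 0 then (Fintype.card V : ℂ) else 0) := by
    intro y
    rw [← sum_V' b hψ (y - m), Finset.mul_sum]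
    refine Finset.sum_congr rfl fun x _ => ?_
    rw [mul_assoc, ← AddChar.map_add_eq_mul, b.sub_left, sub_eq_add_neg]
  simp_rw [this, sub_eq_zero]
  simp
  field_simp

lemma parseval (hψ : ψ ≠ 1) (g : V → ℂ) :
    ∑ m, ‖ft b ψ g m‖ ^ 2 = (Fintype.card V : ℝ) * ∑ x, ‖g x‖ ^ 2 := by
  classical
  have h : (∑ m, ‖ft b ψ g m‖ ^ 2 : ℂ) = (Fintype.card V : ℂ) * ∑ x, (‖g x‖ : ℂ) ^ 2 := by
    have e1 : ∀ m, (‖ft b ψ g m‖ : ℂ) ^ 2 =
        ∑ x, ∑ y, g x * conj (g y) * ψ (b.B m (y - x)) := by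
      intro m
      rw [← Complex.mul_conj', ft, map_sum, Finset.sum_mul_sum]
      refine Finset.sum_congr rfl fun x _ => Finset.sum_congr rfl fun y _ => ?_
      rw [map_mul, conj_psi, neg_neg, b.sub_right, sub_eq_add_neg, AddChar.map_add_eq_mul]
      ring
    simp_rw [e1]
    rw [Finset.sum_comm]
    simp_rw [Finset.sum_comm (s := (univ : Finset V)) (t := (univ : Finset V))
      (f := fun m y => _ * ψ (b.B m (y - _)))]
    simp_rw [← Finset.mul_sum, sum_V b hψ, sub_eq_zero]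
    simp only [mul_ite, mul_zero, Finset.sum_ite_eq', Finset.mem_univ, if_true]
    rw [Finset.mul_sum]
    refine Finset.sum_congr rfl fun x _ => ?_
    rw [← Complex.mul_conj']; ring
  exact_mod_cast h

omit [DecidableEq V] [AddCommGroup V] in
lemma sum_rot3 {α β γ M : Type*} [Fintype α] [Fintype β] [Fintype γ] [AddCommMonoid M]
    (T : α → β → γ → M) :
    ∑ m, ∑ x, ∑ y, T m x y = ∑ x, ∑ y, ∑ m, T m x y := by
  rw [Finset.sum_comm]
  exact Finset.sum_congr rfl fun x _ => Finset.sum_comm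

lemma sum_rot4 {α β γ δ M : Type*} [Fintype α] [Fintype β] [Fintype γ] [Fintype δ]
    [AddCommMonoid M] (T : α → β → γ → δ → M) :
    ∑ m, ∑ x, ∑ y, ∑ z, T m x y z = ∑ x, ∑ y, ∑ z, ∑ m, T m x y z := by
  rw [Finset.sum_comm]
  exact Finset.sum_congr rfl fun x _ => sum_rot3 _

lemma ker_neg (w : V → ℝ) (x : V) : ker b ψ w (-x) = conj (ker b ψ w x) := by
  unfold ker
  rw [map_mul, map_inv₀, Complex.conj_natCast, map_sum]
  congr 1
  refine Finset.sum_congr rfl fun m _ => ?_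
  rw [map_mul, Complex.conj_ofReal, conj_psi, b.neg_right]

lemma ker_zero (w : V → ℝ) : ker b ψ w 0 = (((Fintype.card V : ℝ)⁻¹ * ∑ m, w m : ℝ) : ℂ) := by
  unfold ker; simp

lemma norm_ker_le (w : V → ℝ) (hw : ∀ m, 0 ≤ w m) (x : V) :
    ‖ker b ψ w x‖ ≤ (Fintype.card V : ℝ)⁻¹ * ∑ m, w m := by
  unfold ker
  rw [norm_mul, norm_inv, Complex.norm_natCast]
  refine mul_le_mul_of_nonneg_left ?_ (by positivity)
  refine (norm_sum_le _ _).trans (Finset.sum_le_sum fun m _ => ?_)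
  rw [norm_mul, norm_psi, mul_one, Complex.norm_real, Real.norm_of_nonneg (hw m)]

lemma ker_sq (hψ : ψ ≠ 1) (w : V → ℝ) :
    ∑ x, ‖ker b ψ w x‖ ^ 2 = (Fintype.card V : ℝ)⁻¹ * ∑ m, w m ^ 2 := by
  have h := parseval b ψ hψ (ker b ψ w)
  simp_rw [ft_ker b ψ hψ, Complex.norm_real, Real.norm_eq_abs, sq_abs] at h
  have hv : (Fintype.card V : ℝ) ≠ 0 := by exact_mod_cast Fintype.card_ne_zero
  rw [h]; field_simp

/-- quadratic form of a convolution kernel -/
lemma ker_quad (w : V → ℝ) (u : V → ℂ) :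
    ∑ x, ∑ y, conj (u x) * ker b ψ w (x - y) * u y =
      (((Fintype.card V : ℝ)⁻¹ * ∑ m, w m * ‖ft b ψ u m‖ ^ 2 : ℝ) : ℂ) := by
  have e : ∀ m, ((w m * ‖ft b ψ u m‖ ^ 2 : ℝ) : ℂ) =
      ∑ x, ∑ y, conj (u x) * ((w m : ℂ) * ψ (b.B m (x - y))) * u y := by
    intro m
    push_cast
    rw [← Complex.conj_mul', ft, map_sum, Finset.sum_mul_sum, Finset.mul_sum]
    refine Finset.sum_congr rfl fun x _ => ?_
    rw [Finset.mul_sum]
    refine Finset.sum_congr rfl fun y _ => ?_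
    rw [map_mul, conj_psi, neg_neg, b.sub_right, sub_eq_add_neg, AddChar.map_add_eq_mul]
    ring
  rw [Complex.ofReal_mul, Complex.ofReal_sum]
  simp_rw [e]
  rw [sum_rot3, Finset.mul_sum]
  refine Finset.sum_congr rfl fun x _ => ?_
  rw [Finset.mul_sum]
  refine Finset.sum_congr rfl fun y _ => ?_
  unfold ker
  rw [← Finset.sum_mul, ← Finset.mul_sum]
  push_cast
  ring

/-- convolution -/
noncomputable def cv (g₁ g₂ : V → ℂ) (z : V) : ℂ := ∑ x, g₁ x * g₂ (z - x)

lemma ft_cv (g₁ g₂ : V → ℂ) (m : V) : ft b ψ (cv g₁ g₂) m = ft b ψ g₁ m * ft b ψ g₂ m := by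
  unfold ft cv
  simp_rw [Finset.sum_mul]
  rw [Finset.sum_comm]
  refine Finset.sum_congr rfl fun x _ => ?_
  rw [Finset.mul_sum, ← Equiv.sum_comp (Equiv.addLeft x)]
  refine Finset.sum_congr rfl fun y _ => ?_
  simp only [Equiv.coe_addLeft, add_sub_cancel_left]
  rw [b.add_right, neg_add, AddChar.map_add_eq_mul]
  ring

lemma cv_sq (hψ : ψ ≠ 1) (g₁ g₂ : V → ℂ) :
    ∑ z, ‖cv g₁ g₂ z‖ ^ 2 =
      (Fintype.card V : ℝ)⁻¹ * ∑ m, ‖ft b ψ g₁ m‖ ^ 2 * ‖ft b ψ g₂ m‖ ^ 2 := by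
  have h := parseval b ψ hψ (cv g₁ g₂)
  simp_rw [ft_cv, norm_mul, mul_pow] at h
  have hv : (Fintype.card V : ℝ) ≠ 0 := by exact_mod_cast Fintype.card_ne_zero
  rw [h]; field_simp

lemma triple_sum (hψ : ψ ≠ 1) (g₁ g₂ g₃ : V → ℂ) :
    ∑ x, ∑ y, g₁ x * g₂ y * g₃ (-x - y) =
      (Fintype.card V : ℂ)⁻¹ * ∑ m, ft b ψ g₁ m * ft b ψ g₂ m * ft b ψ g₃ m := by
  have hv : (Fintype.card V : ℂ) ≠ 0 := by exact_mod_cast Fintype.card_ne_zero
  have e : ∀ m, ft b ψ g₁ m * ft b ψ g₂ m * ft b ψ g₃ m =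
      ∑ x, ∑ y, ∑ z, g₁ x * g₂ y * g₃ z * ψ (b.B m (-x - y - z)) := by
    intro m
    unfold ft
    rw [Finset.sum_mul_sum, Finset.sum_mul]
    refine Finset.sum_congr rfl fun x _ => ?_
    rw [Finset.sum_mul]
    refine Finset.sum_congr rfl fun y _ => ?_
    rw [Finset.mul_sum]
    refine Finset.sum_congr rfl fun z _ => ?_
    rw [b.sub_right, b.sub_right, b.neg_right, sub_eq_add_neg, sub_eq_add_neg,
      AddChar.map_add_eq_mul, AddChar.map_add_eq_mul]
    ring
  simp_rw [e]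
  rw [sum_rot4, Finset.mul_sum]
  refine Finset.sum_congr rfl fun x _ => ?_
  rw [Finset.mul_sum]
  refine Finset.sum_congr rfl fun y _ => ?_
  simp_rw [← Finset.mul_sum, sum_V b hψ, sub_eq_zero]
  simp only [mul_ite, mul_zero, Finset.sum_ite_eq, Finset.mem_univ, if_true]
  field_simp

section gauss

variable (h2 : (2 : F) ≠ 0)
include h2

/-- quadratic Gauss sum of the form -/
noncomputable def gam (r : F) : ℂ := ∑ x, ψ (r * b.Q x)

omit h2 in
lemma gam_zero : gam b ψ 0 = (Fintype.card V : ℂ) := by simp [gam]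

lemma gauss_shift {r : F} (hr : r ≠ 0) (y : V) :
    ∑ x, ψ (r * b.Q x + b.B x y) = gam b ψ r * ψ (-(b.Q y) / (4 * r)) := by
  have h4 : (4 : F) ≠ 0 := by
    have : (4 : F) = 2 * 2 := by norm_num
    rw [this]; exact mul_ne_zero h2 h2
  unfold gam
  rw [← Equiv.sum_comp (Equiv.addRight (-((2 * r)⁻¹ • y))), Finset.sum_mul]
  refine Finset.sum_congr rfl fun x _ => ?_
  rw [← AddChar.map_add_eq_mul]
  congr 1
  simp only [Equiv.coe_addRight]
  rw [b.Q_add, b.Q_neg, b.Q_smul, b.add_left, b.neg_left, b.smul_left, b.neg_right, b.smul_right]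
  change _ = _ + -(b.Q y) / (4 * r)
  rw [show b.B y y = b.Q y from rfl]
  field_simp
  ring

lemma gam_mul_conj (hψ : ψ ≠ 1) {r : F} (hr : r ≠ 0) :
    gam b ψ r * conj (gam b ψ r) = (Fintype.card V : ℂ) := by
  classical
  unfold gam
  rw [map_sum, Finset.sum_mul_sum]
  have e : ∀ x : V, ∑ y : V, ψ (r * b.Q x) * conj (ψ (r * b.Q y)) =
      ∑ u : V, ψ (r * b.Q u) * ψ (b.B x ((-2 * r) • u)) * ψ (- (2 * r * b.Q u)) := by
    intro x
    rw [← Equiv.sum_comp (Equiv.addRight x)]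
    refine Finset.sum_congr rfl fun u _ => ?_
    rw [conj_psi, ← AddChar.map_add_eq_mul, ← AddChar.map_add_eq_mul, ← AddChar.map_add_eq_mul]
    congr 1
    simp only [Equiv.coe_addRight]
    rw [b.Q_add, b.smul_right, b.symm u x]
    ring
  simp_rw [e]
  rw [Finset.sum_comm]
  simp_rw [← Finset.sum_mul, ← Finset.mul_sum, sum_V b hψ]
  rw [Finset.sum_eq_single (0 : V)]
  · simp
  · intro u _ hu
    have : (-2 * r) • u ≠ 0 := smul_ne_zero (mul_ne_zero (neg_ne_zero.mpr h2) hr) hu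
    rw [if_neg this]; ring
  · simp

lemma norm_gam_sq (hψ : ψ ≠ 1) {r : F} (hr : r ≠ 0) :
    ‖gam b ψ r‖ ^ 2 = (Fintype.card V : ℝ) := by
  have h := gam_mul_conj b ψ h2 hψ hr
  rw [Complex.mul_conj'] at h
  exact_mod_cast h

end gauss

end chars

end Pool.Agent.H375R4
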