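import Mathlib

set_option autoImplicit false

/-! # Numerical lemmas -/

namespace Pool.Agent.H375R4

lemma num_II (q h lam L Y G0 LL ws W : ℝ) (hq : 3 ≤ q) (hh : 0 < h) (hL : 0 < L)
    (hlam : lam = h ^ 2 * L) (hlam1 : lam ≤ 1) (hh4 : h ^ 2 ≤ 4 * q)
    (hG0 : G0 ≤ q) (hY0 : 0 ≤ Y) (hLL0 : 0 ≤ LL) (hLLY : LL ≤ q * G0 + Y)
    (hws : ws = L⁻¹ * (1 + 9 * q ^ 3 / h ^ 4)) (hW : W = q + 2 * q / lam)
    (hY : Y ^ 3 ≤ q ^ 2 * (LL * (q * ws + q * (q + 1) * G0 + q ^ 2 * W + q ^ 2 * G0))) :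
    LL ^ 2 * (h ^ 2 * lam) ≤ 324 * q ^ 6 := by
  have hq0 : 0 < q := by linarith
  have hlam0 : 0 < lam := by rw [hlam]; positivity
  have hB : (q * ws + q * (q + 1) * G0 + q ^ 2 * W + q ^ 2 * G0) * (h ^ 2 * lam) ≤
      39 * q ^ 4 := by
    have e1 : q * ws * (h ^ 2 * lam) = q * h ^ 4 + 9 * q ^ 4 := by
      rw [hws, hlam]; field_simp
    have e2 : q ^ 2 * W * (h ^ 2 * lam) = q ^ 3 * h ^ 2 * (lam + 2) := by
      rw [hW]; field_simp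
    have h4 : h ^ 4 ≤ 16 * q ^ 2 := by
      have : h ^ 4 = h ^ 2 * h ^ 2 := by ring
      nlinarith [sq_nonneg h]
    have e3 : q * h ^ 4 ≤ 16 * q ^ 3 := by nlinarith
    have e4 : (q * (q + 1) * G0 + q ^ 2 * G0) * (h ^ 2 * lam) ≤
        (q * (q + 1) * q + q ^ 2 * q) * (4 * q) := by
      have g1 : h ^ 2 * lam ≤ 4 * q := by nlinarith [sq_nonneg h]
      have g2 : q * (q + 1) * G0 + q ^ 2 * G0 ≤ q * (q + 1) * q + q ^ 2 * q := by
        have : 0 ≤ q * (q + 1) + q ^ 2 := by positivity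
        nlinarith
      have g3 : 0 ≤ h ^ 2 * lam := by positivity
      calc _ ≤ (q * (q + 1) * q + q ^ 2 * q) * (h ^ 2 * lam) :=
            mul_le_mul_of_nonneg_right g2 g3
        _ ≤ _ := mul_le_mul_of_nonneg_left g1 (by positivity)
    have e5 : q ^ 3 * h ^ 2 * (lam + 2) ≤ q ^ 3 * (4 * q) * 3 := by
      have : lam + 2 ≤ 3 := by linarith
      have g1 : q ^ 3 * h ^ 2 ≤ q ^ 3 * (4 * q) := mul_le_mul_of_nonneg_left hh4 (by positivity)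
      have : 0 ≤ lam + 2 := by linarith
      calc _ ≤ q ^ 3 * (4 * q) * (lam + 2) := mul_le_mul_of_nonneg_right g1 this
        _ ≤ _ := by
          apply mul_le_mul_of_nonneg_left _ (by positivity)
          linarith
    have e6 : q ^ 3 * 3 ≤ q ^ 4 := by
      have : q ^ 4 = q ^ 3 * q := by ring
      rw [this]; exact mul_le_mul_of_nonneg_left hq (by positivity)
    nlinarith [pow_pos hq0 4]
  have h1 : Y ^ 3 * (h ^ 2 * lam) ≤ 39 * q ^ 6 * LL := by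
    have g3 : 0 ≤ h ^ 2 * lam := by positivity
    calc Y ^ 3 * (h ^ 2 * lam) ≤ q ^ 2 * (LL * (q * ws + q * (q + 1) * G0 + q ^ 2 * W +
          q ^ 2 * G0)) * (h ^ 2 * lam) := mul_le_mul_of_nonneg_right hY g3
      _ = q ^ 2 * LL * ((q * ws + q * (q + 1) * G0 + q ^ 2 * W +
          q ^ 2 * G0) * (h ^ 2 * lam)) := by ring
      _ ≤ q ^ 2 * LL * (39 * q ^ 4) := mul_le_mul_of_nonneg_left hB (by positivity)
      _ = _ := by ring
  have hLL2 : LL ≤ q ^ 2 + Y := by nlinarith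
  have g1 : h ^ 2 * lam ≤ 4 * q := by nlinarith [sq_nonneg h]
  have g3 : 0 < h ^ 2 * lam := by positivity
  by_cases hc : Y ≤ q ^ 2
  · have h2 : LL ≤ 2 * q ^ 2 := by linarith
    have h3 : LL ^ 2 ≤ (2 * q ^ 2) ^ 2 := pow_le_pow_left₀ hLL0 h2 2
    have h5 : q ^ 5 ≤ q ^ 6 := by
      have : q ^ 6 = q ^ 5 * q := by ring
      rw [this]
      nlinarith [pow_pos hq0 5]
    calc LL ^ 2 * (h ^ 2 * lam) ≤ (2 * q ^ 2) ^ 2 * (h ^ 2 * lam) :=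
          mul_le_mul_of_nonneg_right h3 g3.le
      _ ≤ (2 * q ^ 2) ^ 2 * (4 * q) := mul_le_mul_of_nonneg_left g1 (by positivity)
      _ = 16 * q ^ 5 := by ring
      _ ≤ 324 * q ^ 6 := by nlinarith [pow_pos hq0 5]
  · push Not at hc
    have hYp : 0 < Y := lt_trans (by positivity) hc
    have h2 : LL ≤ 2 * Y := by linarith
    have h3 : Y ^ 2 * (h ^ 2 * lam) ≤ 78 * q ^ 6 := by
      have : Y * (Y ^ 2 * (h ^ 2 * lam)) ≤ Y * (78 * q ^ 6) := by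
        calc Y * (Y ^ 2 * (h ^ 2 * lam)) = Y ^ 3 * (h ^ 2 * lam) := by ring
          _ ≤ 39 * q ^ 6 * LL := h1
          _ ≤ 39 * q ^ 6 * (2 * Y) := mul_le_mul_of_nonneg_left h2 (by positivity)
          _ = _ := by ring
      exact le_of_mul_le_mul_left this hYp
    have h4 : LL ^ 2 ≤ (2 * Y) ^ 2 := pow_le_pow_left₀ hLL0 h2 2
    calc LL ^ 2 * (h ^ 2 * lam) ≤ (2 * Y) ^ 2 * (h ^ 2 * lam) :=
          mul_le_mul_of_nonneg_right h4 g3.le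
      _ = 4 * (Y ^ 2 * (h ^ 2 * lam)) := by ring
      _ ≤ 4 * (78 * q ^ 6) := by linarith
      _ ≤ 324 * q ^ 6 := by nlinarith [pow_pos hq0 6]

lemma num_I (q h lam L s l LL : ℝ) (hq : 3 ≤ q) (hh : 0 < h) (hL : 0 < L)
    (hlam : lam = h ^ 2 * L) (hlam1 : lam ≤ 1) (hh4 : h ^ 2 ≤ 4 * q) (hh7 : q ^ 3 ≤ h ^ 7)
    (hs0 : 0 ≤ s) (hs : s ^ 2 = L) (hl0 : 0 ≤ l) (hl : l ^ 2 = LL)
    (hI : h ^ 6 * L ^ 3 ≤ 3 * q ^ 2 * L ^ 3 + 10 * q * L ^ 2 + 4 * L * s * l)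
    (hII : LL ^ 2 * (h ^ 2 * lam) ≤ 324 * q ^ 6) :
    (h ^ 4 * L) ^ 7 ≤ 40 ^ 7 * q ^ 6 := by
  have hq0 : 0 < q := by linarith
  have hlam0 : 0 < lam := by rw [hlam]; positivity
  have hLL0 : 0 ≤ LL := by rw [← hl]; positivity
  have hq6 : q ≤ q ^ 6 := by
    have h1 : 1 ≤ q ^ 5 := one_le_pow₀ (by linarith)
    nlinarith
  rcases lt_or_ge q 24 with hc | hc
  · have h1 : h ^ 4 * L ≤ 4 * q := by
      have : h ^ 4 * L = h ^ 2 * lam := by rw [hlam]; ring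
      rw [this]; nlinarith [sq_nonneg h]
    calc (h ^ 4 * L) ^ 7 ≤ (4 * q) ^ 7 := pow_le_pow_left₀ (by positivity) h1 7
      _ = 4 ^ 7 * q ^ 6 * q := by ring
      _ ≤ 4 ^ 7 * q ^ 6 * 24 := mul_le_mul_of_nonneg_left hc.le (by positivity)
      _ ≤ 40 ^ 7 * q ^ 6 := by nlinarith [pow_pos hq0 6]
  · have h6 : 6 * q ^ 2 ≤ h ^ 6 := by
      have h1 : (6 * q ^ 2) ^ 7 ≤ (h ^ 6) ^ 7 := by
        have h2 : (q ^ 3) ^ 6 ≤ (h ^ 7) ^ 6 := pow_le_pow_left₀ (by positivity) hh7 6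
        have h3 : (24 : ℝ) ^ 4 ≤ q ^ 4 := pow_le_pow_left₀ (by norm_num) hc 4
        calc (6 * q ^ 2) ^ 7 = 6 ^ 7 * q ^ 14 := by ring
          _ ≤ 24 ^ 4 * q ^ 14 := by nlinarith [pow_pos hq0 14]
          _ ≤ q ^ 4 * q ^ 14 := mul_le_mul_of_nonneg_right h3 (by positivity)
          _ = (q ^ 3) ^ 6 := by ring
          _ ≤ (h ^ 7) ^ 6 := h2
          _ = (h ^ 6) ^ 7 := by ring
      exact le_of_pow_le_pow_left₀ (by norm_num) (by positivity) h1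
    have h7 : h ^ 6 * L ^ 2 ≤ 20 * q * L + 8 * s * l := by
      have e1 : 3 * q ^ 2 * L ^ 3 ≤ h ^ 6 * L ^ 3 / 2 := by nlinarith [pow_pos hL 3]
      have e2 : L * (h ^ 6 * L ^ 2) ≤ L * (20 * q * L + 8 * s * l) := by nlinarith
      exact le_of_mul_le_mul_left e2 hL
    rcases le_total (8 * s * l) (20 * q * L) with hc2 | hc2
    · have e1 : h ^ 6 * L ≤ 40 * q := by
        have : L * (h ^ 6 * L) ≤ L * (40 * q) := by nlinarith
        exact le_of_mul_le_mul_left this hL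
      have e2 : (h ^ 6 * L) ^ 7 ≤ (40 * q) ^ 7 := pow_le_pow_left₀ (by positivity) e1 7
      have e3 : (q ^ 3) ^ 2 ≤ (h ^ 7) ^ 2 := pow_le_pow_left₀ (by positivity) hh7 2
      have e4 : q ^ 6 * (h ^ 4 * L) ^ 7 ≤ q ^ 6 * (40 ^ 7 * q) := by
        calc q ^ 6 * (h ^ 4 * L) ^ 7 = (q ^ 3) ^ 2 * (h ^ 4 * L) ^ 7 := by ring
          _ ≤ (h ^ 7) ^ 2 * (h ^ 4 * L) ^ 7 := mul_le_mul_of_nonneg_right e3 (by positivity)
          _ = (h ^ 6 * L) ^ 7 := by ring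
          _ ≤ (40 * q) ^ 7 := e2
          _ = q ^ 6 * (40 ^ 7 * q) := by ring
      have e5 := le_of_mul_le_mul_left e4 (by positivity)
      calc (h ^ 4 * L) ^ 7 ≤ 40 ^ 7 * q := e5
        _ ≤ _ := mul_le_mul_of_nonneg_left hq6 (by norm_num)
    · have e1 : h ^ 6 * L ^ 2 ≤ 16 * (s * l) := by nlinarith
      have e2 : (h ^ 6 * L ^ 2) ^ 2 ≤ (16 * (s * l)) ^ 2 := pow_le_pow_left₀ (by positivity) e1 2
      have e3 : h ^ 12 * L ^ 3 ≤ 256 * LL := by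
        have : L * (h ^ 12 * L ^ 3) ≤ L * (256 * LL) := by
          calc L * (h ^ 12 * L ^ 3) = (h ^ 6 * L ^ 2) ^ 2 := by ring
            _ ≤ (16 * (s * l)) ^ 2 := e2
            _ = 256 * (s ^ 2 * l ^ 2) := by ring
            _ = L * (256 * LL) := by rw [hs, hl]; ring
        exact le_of_mul_le_mul_left this hL
      have e4 : (h ^ 12 * L ^ 3) ^ 2 ≤ (256 * LL) ^ 2 := pow_le_pow_left₀ (by positivity) e3 2
      calc (h ^ 4 * L) ^ 7 = (h ^ 12 * L ^ 3) ^ 2 * (h ^ 4 * L) := by ring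
        _ ≤ (256 * LL) ^ 2 * (h ^ 4 * L) := mul_le_mul_of_nonneg_right e4 (by positivity)
        _ = 65536 * (LL ^ 2 * (h ^ 2 * lam)) := by rw [hlam]; ring
        _ ≤ 65536 * (324 * q ^ 6) := by linarith
        _ ≤ 40 ^ 7 * q ^ 6 := by nlinarith [pow_pos hq0 6]

end Pool.Agent.H375R4
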