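import Pool.Agent.H375R4.Sup

set_option autoImplicit false
set_option linter.unusedSectionVars false

/-! # Spherical means of an extension on an admissible sphere (dimension three) -/

open Finset ComplexConjugate

namespace Pool.Agent.H375R4

variable {F : Type*} [Field F] [Fintype F] [DecidableEq F]
variable {V : Type*} [AddCommGroup V] [Module F V] [Fintype V] [DecidableEq V]
variable (b : SForm F V) {ψ : AddChar F ℂ}

lemma inversion (hψ : ψ ≠ 1) (g : V → ℂ) (x : V) :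
    (Fintype.card V : ℂ)⁻¹ * ∑ m, ft b ψ g m * ψ (b.B m x) = g x := by
  have hv : (Fintype.card V : ℂ) ≠ 0 := by exact_mod_cast Fintype.card_ne_zero
  unfold ft
  simp_rw [Finset.sum_mul]
  rw [Finset.sum_comm]
  have e : ∀ y : V, ∑ m : V, g y * ψ (-(b.B m y)) * ψ (b.B m x) =
      g y * (if x - y = 0 then (Fintype.card V : ℂ) else 0) := by
    intro y
    rw [← sum_V b hψ (x - y), Finset.mul_sum]
    refine Finset.sum_congr rfl fun m _ => ?_
    rw [mul_assoc, ← AddChar.map_add_eq_mul, b.sub_right]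
    congr 2; ring
  simp_rw [e, sub_eq_zero]
  simp
  field_simp

/-- the form `∑ f(ξ) conj f(ξ') ψ(c B(ξ, ξ'))` -/
noncomputable def Mc (ψ : AddChar F ℂ) (f : V → ℂ) (c : F) : ℂ :=
  ∑ x, ∑ y, f x * conj (f y) * ψ (c * b.B x y)

lemma Mc_le (f : V → ℂ) (S : Finset V) (hS : ∀ x, x ∉ S → f x = 0)
    (h1 : ∑ x, ‖f x‖ ^ 2 = 1) (c : F) :
    ‖Mc b ψ f c‖ ^ 2 ≤ ∑ z ∈ S, ‖∑ x, f x * ψ (c * b.B x z)‖ ^ 2 := by
  have e1 : Mc b ψ f c = ∑ z ∈ S, conj (f z) * ∑ x, f x * ψ (c * b.B x z) := by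
    unfold Mc
    rw [Finset.sum_comm, ← Finset.sum_subset (Finset.subset_univ S)]
    · refine Finset.sum_congr rfl fun z _ => ?_
      rw [Finset.mul_sum]
      exact Finset.sum_congr rfl fun x _ => by ring
    · intro z _ hz
      refine Finset.sum_eq_zero fun x _ => ?_
      rw [hS z hz]; simp
  rw [e1]
  have h2 : ‖∑ z ∈ S, conj (f z) * ∑ x, f x * ψ (c * b.B x z)‖ ≤
      ∑ z ∈ S, ‖f z‖ * ‖∑ x, f x * ψ (c * b.B x z)‖ := by
    refine (norm_sum_le _ _).trans (le_of_eq ?_)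
    refine Finset.sum_congr rfl fun z _ => ?_
    rw [norm_mul, RCLike.norm_conj]
  have h3 := Finset.sum_mul_sq_le_sq_mul_sq S (fun z => ‖f z‖)
    (fun z => ‖∑ x, f x * ψ (c * b.B x z)‖)
  have h4 : ∑ z ∈ S, ‖f z‖ ^ 2 ≤ 1 := by
    rw [← h1]
    exact Finset.sum_le_sum_of_subset_of_nonneg (Finset.subset_univ S)
      (fun _ _ _ => by positivity)
  have h5 : 0 ≤ ∑ z ∈ S, ‖∑ x, f x * ψ (c * b.B x z)‖ ^ 2 :=
    Finset.sum_nonneg fun z _ => by positivity
  calc _ ≤ (∑ z ∈ S, ‖f z‖ * ‖∑ x, f x * ψ (c * b.B x z)‖) ^ 2 :=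
        pow_le_pow_left₀ (norm_nonneg _) h2 2
    _ ≤ _ := h3
    _ ≤ 1 * ∑ z ∈ S, ‖∑ x, f x * ψ (c * b.B x z)‖ ^ 2 :=
        mul_le_mul_of_nonneg_right h4 h5
    _ = _ := one_mul _

lemma sum_split0 (f : F → ℝ) : ∑ r, f r = f 0 + ∑ r with r ≠ 0, f r := by
  rw [← Finset.add_sum_erase _ _ (Finset.mem_univ (0 : F))]
  congr 2
  ext r; simp

theorem X_bound (hψ : ψ ≠ 1) (q : ℝ) (hq : q = Fintype.card F)
    (hq2 : 2 ≤ q) (j : F) (f : V → ℂ) (S : Finset V) (hS : ∀ x, x ∉ S → f x = 0)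
    (hj : ∀ x ∈ S, b.Q x = j)
    (h1 : ∑ x, ‖f x‖ ^ 2 = 1) (hcard : (#S : ℝ) = q * (q - 1)) (φ : F → ℝ) (hφ0 : φ 0 = 0)
    (hφ : ∀ t, |φ t| ≤ 2)
    (hg : ∀ x ∈ S, ∀ y ∈ S, x ≠ y → (#{z ∈ S | b.B z (x - y) = 0} : ℝ) =
      (q - 1) + φ (b.Q (x - y))) :
    ∑ c with c ≠ 0, ‖Mc b ψ f c‖ ^ 2 ≤ 8 * q ^ 3 := by
  have hq0 : 0 < q := by linarith
  set X := ∑ c with c ≠ 0, ‖Mc b ψ f c‖ ^ 2 with hX
  have hX0 : 0 ≤ X := Finset.sum_nonneg fun c _ => by positivity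
  set s : ℂ := ∑ x, f x with hs
  set Z : ℂ := ∑ x, ∑ y, f x * conj (f y) * (φ (b.Q (x - y)) : ℂ) with hZ
  -- step 1 : the full sum
  have hT : ((∑ c, ∑ z ∈ S, ‖∑ x, f x * ψ (c * b.B x z)‖ ^ 2 : ℝ) : ℂ) =
      (q * (q - 1) : ℝ) * (‖s‖ : ℂ) ^ 2 + ((q * (#S - (q - 1)) : ℝ) : ℂ) + (q : ℂ) * Z := by
    rw [Finset.sum_comm, Complex.ofReal_sum]
    have e1 : ∀ z, ((∑ c, ‖∑ x, f x * ψ (c * b.B x z)‖ ^ 2 : ℝ) : ℂ) =
        (q : ℂ) * ∑ x, ∑ y, if b.B x z = b.B y z then f x * conj (f y) else 0 := by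
      intro z
      rw [fiber_pair hψ f (fun x => b.B x z), hq]; simp
    simp_rw [e1]
    rw [← Finset.mul_sum]
    have e2 : ∑ z ∈ S, ∑ x, ∑ y, (if b.B x z = b.B y z then f x * conj (f y) else 0) =
        ∑ x, ∑ y, f x * conj (f y) * (#{z ∈ S | b.B z (x - y) = 0} : ℂ) := by
      rw [Finset.sum_comm]
      refine Finset.sum_congr rfl fun x _ => ?_
      rw [Finset.sum_comm]
      refine Finset.sum_congr rfl fun y _ => ?_
      rw [← Finset.sum_filter, Finset.sum_const, nsmul_eq_mul, mul_comm]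
      congr 3
      ext z
      rw [Finset.mem_filter, Finset.mem_filter, b.sub_right, sub_eq_zero, b.symm z x, b.symm z y]
    rw [e2]
    have e3 : ∀ x y, f x * conj (f y) * (#{z ∈ S | b.B z (x - y) = 0} : ℂ) =
        ((q - 1 : ℝ) : ℂ) * (f x * conj (f y)) +
          (if y = x then ((#S - (q - 1) : ℝ) : ℂ) * (‖f x‖ : ℂ) ^ 2 else 0) +
          f x * conj (f y) * (φ (b.Q (x - y)) : ℂ) := by
      intro x y
      by_cases hx : x ∈ S
      · by_cases hy : y ∈ S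
        · by_cases hxy : y = x
          · subst hxy
            rw [if_pos rfl, sub_self, b.Q_zero, hφ0, ← Complex.mul_conj']
            have : (#{z ∈ S | b.B z 0 = 0} : ℂ) = ((#S : ℝ) : ℂ) := by simp
            rw [this]; push_cast; ring
          · rw [if_neg hxy]
            have := hg x hx y hy (fun h => hxy h.symm)
            have h' : (#{z ∈ S | b.B z (x - y) = 0} : ℂ) =
                (((q - 1) + φ (b.Q (x - y)) : ℝ) : ℂ) := by rw [← this]; simp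
            rw [h']; push_cast; ring
        · have hy0 := hS y hy
          have hxy : y ≠ x := fun h => hy (h ▸ hx)
          rw [if_neg hxy, hy0]; simp
      · have hx0 := hS x hx
        by_cases hxy : y = x
        · rw [if_pos hxy, hx0]; simp
        · rw [if_neg hxy, hx0]; simp
    simp_rw [e3, Finset.sum_add_distrib, ← Finset.mul_sum]
    simp only [Finset.sum_ite_eq', Finset.mem_univ, if_true]
    rw [← Finset.mul_sum]
    have e4 : ∑ x, (‖f x‖ : ℂ) ^ 2 = 1 := by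
      have := congrArg (Complex.ofReal) h1
      push_cast at this
      exact this
    have e5 : ∑ x, f x * ∑ y, conj (f y) = (‖s‖ : ℂ) ^ 2 := by
      rw [← Finset.sum_mul, ← map_sum, ← hs, Complex.mul_conj']
    rw [e4, e5, ← hZ]
    push_cast
    ring
  have hc0 : ∑ z ∈ S, ‖∑ x, f x * ψ (0 * b.B x z)‖ ^ 2 = #S * ‖s‖ ^ 2 := by
    simp [hs]
  have hXT : X + #S * ‖s‖ ^ 2 ≤ ∑ c, ∑ z ∈ S, ‖∑ x, f x * ψ (c * b.B x z)‖ ^ 2 := by
    rw [sum_split0 (fun c => ∑ z ∈ S, ‖∑ x, f x * ψ (c * b.B x z)‖ ^ 2), hc0, add_comm]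
    refine add_le_add (le_refl _) ?_
    exact Finset.sum_le_sum fun c _ => Mc_le b f S hS h1 c
  have hTre : ∑ c, ∑ z ∈ S, ‖∑ x, f x * ψ (c * b.B x z)‖ ^ 2 =
      (q * (q - 1)) * ‖s‖ ^ 2 + (q * (#S - (q - 1))) + q * Z.re := by
    have := congrArg Complex.re hT
    rw [Complex.ofReal_re] at this
    rw [this]
    simp only [Complex.add_re, Complex.re_ofReal_mul, Complex.ofReal_re]
    congr 3
    rw [← Complex.ofReal_pow, Complex.ofReal_re]
  have hX1 : X ≤ q ^ 3 + q * ‖Z‖ := by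
    have hZre : Z.re ≤ ‖Z‖ := Complex.re_le_norm Z
    rw [hTre, hcard] at hXT
    nlinarith [mul_le_mul_of_nonneg_left hZre hq0.le]
  -- step 2 : the sum Z
  set Φ : F → ℂ := ft (formF F) ψ (fun y => (φ (2 * j - 2 * y) : ℂ)) with hΦ
  have hZM : Z = (q : ℂ)⁻¹ * ∑ c, Φ c * Mc b ψ f c := by
    have e1 : ∀ x y, f x * conj (f y) * (φ (b.Q (x - y)) : ℂ) =
        (q : ℂ)⁻¹ * ∑ c, Φ c * (f x * conj (f y) * ψ (c * b.B x y)) := by
      intro x y
      by_cases hx : x ∈ S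
      · by_cases hy : y ∈ S
        · have h3 := inversion (formF F) hψ (fun y => (φ (2 * j - 2 * y) : ℂ)) (b.B x y)
          have h4 : b.Q (x - y) = 2 * j - 2 * b.B x y := by
            rw [b.Q_sub, hj x hx, hj y hy]; ring
          rw [h4, ← h3, hq]
          simp only [Complex.ofReal_natCast]
          rw [mul_left_comm, Finset.mul_sum]
          congr 1
          refine Finset.sum_congr rfl fun c _ => ?_
          change f x * conj (f y) * (Φ c * ψ (c * b.B x y)) = _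
          ring
        · rw [hS y hy]; simp
      · rw [hS x hx]; simp
    rw [hZ]
    simp_rw [e1, ← Finset.mul_sum]
    congr 1
    rw [← sum_rot3]
    refine Finset.sum_congr rfl fun c _ => ?_
    unfold Mc
    simp_rw [Finset.mul_sum]
  have hΦ0 : ‖Φ 0‖ ≤ 2 * q := by
    rw [hΦ]
    unfold ft
    refine (norm_sum_le _ _).trans ?_
    calc _ ≤ ∑ y : F, (2 : ℝ) := by
          refine Finset.sum_le_sum fun y _ => ?_
          rw [norm_mul, norm_psi, mul_one, Complex.norm_real, Real.norm_eq_abs]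
          exact hφ _
      _ = _ := by rw [hq]; simp; ring
  have hΦ2 : ∑ c, ‖Φ c‖ ^ 2 ≤ (2 * q) ^ 2 := by
    rw [hΦ, parseval (formF F) ψ hψ]
    calc _ ≤ (Fintype.card F : ℝ) * ∑ y : F, (4 : ℝ) := by
          refine mul_le_mul_of_nonneg_left ?_ (by positivity)
          refine Finset.sum_le_sum fun y _ => ?_
          rw [Complex.norm_real, Real.norm_eq_abs]
          have := hφ (2 * j - 2 * y)
          nlinarith [abs_nonneg (φ (2 * j - 2 * y))]
      _ = _ := by rw [hq]; simp; ring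
  have hM0 : ‖Mc b ψ f 0‖ ≤ q ^ 2 := by
    have h5 := Mc_le b (ψ := ψ) f S hS h1 0
    have : Mc b ψ f 0 = (‖s‖ : ℂ) ^ 2 := by
      unfold Mc
      simp only [zero_mul, AddChar.map_zero_eq_one, mul_one]
      simp_rw [← Finset.mul_sum]
      rw [← Finset.sum_mul, ← map_sum, ← hs, Complex.mul_conj']
    rw [this]
    rw [norm_pow, Complex.norm_real, norm_norm]
    -- ‖s‖² ≤ #S
    have h6 : ‖s‖ ^ 2 ≤ #S := by
      have e1 : s = ∑ x ∈ S, f x := by
        rw [hs, ← Finset.sum_subset (Finset.subset_univ S)]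
        intro x _ hx; exact hS x hx
      have h7 : ‖s‖ ≤ ∑ x ∈ S, 1 * ‖f x‖ := by
        rw [e1]; simpa using norm_sum_le S f
      have h8 := Finset.sum_mul_sq_le_sq_mul_sq S (fun _ => (1 : ℝ)) (fun z => ‖f z‖)
      have h9 : ∑ z ∈ S, ‖f z‖ ^ 2 ≤ 1 := by
        rw [← h1]
        exact Finset.sum_le_sum_of_subset_of_nonneg (Finset.subset_univ S)
          (fun _ _ _ => by positivity)
      calc ‖s‖ ^ 2 ≤ (∑ x ∈ S, 1 * ‖f x‖) ^ 2 := pow_le_pow_left₀ (norm_nonneg _) h7 2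
        _ ≤ _ := h8
        _ ≤ (#S : ℝ) * 1 := by
            refine mul_le_mul ?_ h9 (Finset.sum_nonneg fun _ _ => by positivity) (by positivity)
            simp
        _ = _ := mul_one _
    rw [hcard] at h6
    nlinarith
  have hsum : ∑ c with c ≠ 0, ‖Φ c‖ * ‖Mc b ψ f c‖ ≤ 2 * q * Real.sqrt X := by
    refine (Real.sum_mul_le_sqrt_mul_sqrt _ _ _).trans ?_
    refine mul_le_mul_of_nonneg_right ?_ (Real.sqrt_nonneg _)
    rw [show 2 * q = Real.sqrt ((2 * q) ^ 2) by rw [Real.sqrt_sq (by positivity)]]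
    refine Real.sqrt_le_sqrt (le_trans ?_ hΦ2)
    exact Finset.sum_le_sum_of_subset_of_nonneg (Finset.filter_subset _ _)
      (fun _ _ _ => by positivity)
  have hZb : ‖Z‖ ≤ 2 * q ^ 2 + 2 * Real.sqrt X := by
    rw [hZM, norm_mul, norm_inv, Complex.norm_real, Real.norm_of_nonneg hq0.le]
    have h7 : ‖∑ c, Φ c * Mc b ψ f c‖ ≤ 2 * q * q ^ 2 + 2 * q * Real.sqrt X := by
      refine (norm_sum_le _ _).trans ?_
      simp_rw [norm_mul]
      rw [sum_split0 (fun c => ‖Φ c‖ * ‖Mc b ψ f c‖)]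
      exact add_le_add (mul_le_mul hΦ0 hM0 (norm_nonneg _) (by positivity)) hsum
    rw [inv_mul_le_iff₀ hq0]
    linarith
  have hsq : Real.sqrt X ^ 2 = X := Real.sq_sqrt hX0
  have h8 : X ≤ 3 * q ^ 3 + 2 * q * Real.sqrt X := by
    nlinarith [mul_le_mul_of_nonneg_left hZb hq0.le]
  have h9 : 2 * q * Real.sqrt X ≤ X / 2 + 2 * q ^ 2 := by
    nlinarith [sq_nonneg (Real.sqrt X - 2 * q)]
  nlinarith [sq_nonneg q]

/-- bound for the number of equidistant pairs of a level set -/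
theorem Psi_bound (hψ : ψ ≠ 1) (h2 : (2 : F) ≠ 0) (q : ℝ) (hq : q = Fintype.card F)
    (hq2 : 2 ≤ q) (hv : (Fintype.card V : ℝ) = q ^ 3) (j : F) (f : V → ℂ) (S : Finset V)
    (hS : ∀ x, x ∉ S → f x = 0) (hj : ∀ x ∈ S, b.Q x = j)
    (h1 : ∑ x, ‖f x‖ ^ 2 = 1) (hcard : (#S : ℝ) = q * (q - 1)) (φ : F → ℝ) (hφ0 : φ 0 = 0)
    (hφ : ∀ t, |φ t| ≤ 2)
    (hg : ∀ x ∈ S, ∀ y ∈ S, x ≠ y → (#{z ∈ S | b.B z (x - y) = 0} : ℝ) =
      (q - 1) + φ (b.Q (x - y)))
    (G : Finset V) (h : ℝ) (hh : 0 < h) (hG : ∀ m ∈ G, h ≤ ‖ft b ψ f m‖) (m : V) :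
    Psi b G m ≤ 9 * q ^ 5 / h ^ 4 := by
  have hq0 : 0 < q := by linarith
  set D : ℝ := ∑ x, ∑ y, if b.Q (x - m) = b.Q (y - m) then
    ‖ft b ψ f x‖ ^ 2 * ‖ft b ψ f y‖ ^ 2 else 0 with hD
  have hPD : Psi b G m * h ^ 4 ≤ D := by
    unfold Psi
    rw [Finset.sum_mul]
    have e0 : ∀ x y : V, 0 ≤ (if b.Q (x - m) = b.Q (y - m) then
        ‖ft b ψ f x‖ ^ 2 * ‖ft b ψ f y‖ ^ 2 else 0) := fun x y => by split_ifs <;> positivity
    calc ∑ x ∈ G, (∑ y ∈ G, if b.Q (x - m) = b.Q (y - m) then (1 : ℝ) else 0) * h ^ 4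
        ≤ ∑ x ∈ G, ∑ y ∈ G, (if b.Q (x - m) = b.Q (y - m) then
          ‖ft b ψ f x‖ ^ 2 * ‖ft b ψ f y‖ ^ 2 else 0) := by
          refine Finset.sum_le_sum fun x hx => ?_
          rw [Finset.sum_mul]
          refine Finset.sum_le_sum fun y hy => ?_
          split_ifs
          · have h3 := pow_le_pow_left₀ hh.le (hG x hx) 2
            have h4 := pow_le_pow_left₀ hh.le (hG y hy) 2
            calc 1 * h ^ 4 = h ^ 2 * h ^ 2 := by ring
              _ ≤ _ := mul_le_mul h3 h4 (by positivity) (by positivity)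
          · simp
      _ ≤ ∑ x ∈ G, ∑ y, (if b.Q (x - m) = b.Q (y - m) then
          ‖ft b ψ f x‖ ^ 2 * ‖ft b ψ f y‖ ^ 2 else 0) :=
          Finset.sum_le_sum fun x _ => Finset.sum_le_sum_of_subset_of_nonneg
            (Finset.subset_univ G) (fun y _ _ => e0 x y)
      _ ≤ D := Finset.sum_le_sum_of_subset_of_nonneg
            (Finset.subset_univ G) (fun x _ _ => Finset.sum_nonneg fun y _ => e0 x y)
  set F' : V → ℂ := fun ξ => f ξ * ψ (-(b.B m ξ)) with hF'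
  have hF'n : ∀ ξ, ‖F' ξ‖ = ‖f ξ‖ := fun ξ => by rw [hF']; simp
  have hF'S : ∀ x, x ∉ S → F' x = 0 := fun x hx => by rw [hF']; simp [hS x hx]
  have hF'1 : ∑ x, ‖F' x‖ ^ 2 = 1 := by simp_rw [hF'n]; exact h1
  have hX := X_bound b hψ q hq hq2 j F' S hF'S hj hF'1 hcard φ hφ0 hφ hg
  -- D as an average
  have hDavg : D = q⁻¹ * ∑ r, ‖∑ x, ((‖ft b ψ f x‖ ^ 2 : ℝ) : ℂ) * ψ (r * b.Q (x - m))‖ ^ 2 := by
    apply Complex.ofReal_injective
    rw [Complex.ofReal_mul, fiber_pair hψ (fun x => ((‖ft b ψ f x‖ ^ 2 : ℝ) : ℂ))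
      (fun x => b.Q (x - m)), hD]
    have hqC : (q : ℂ) ≠ 0 := by exact_mod_cast hq0.ne'
    have hqq : (Fintype.card F : ℂ) = (q : ℂ) := by rw [hq]; simp
    rw [hqq, Complex.ofReal_inv, inv_mul_cancel_left₀ hqC]
    push_cast
    refine Finset.sum_congr rfl fun x _ => Finset.sum_congr rfl fun y _ => ?_
    split_ifs
    · simp
    · simp
  have hB0 : ‖∑ x, ((‖ft b ψ f x‖ ^ 2 : ℝ) : ℂ) * ψ (0 * b.Q (x - m))‖ ^ 2 = q ^ 6 := by
    have : ∑ x, ((‖ft b ψ f x‖ ^ 2 : ℝ) : ℂ) * ψ (0 * b.Q (x - m)) = ((q ^ 3 : ℝ) : ℂ) := by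
      have h3 := parseval b ψ hψ f
      rw [h1, mul_one, hv] at h3
      rw [← h3]
      simp
    rw [this, Complex.norm_real, Real.norm_of_nonneg (by positivity)]
    ring
  have hBr : ∀ r, r ≠ 0 → ‖∑ x, ((‖ft b ψ f x‖ ^ 2 : ℝ) : ℂ) * ψ (r * b.Q (x - m))‖ ^ 2 =
      q ^ 3 * ‖Mc b ψ F' (2 * r)⁻¹‖ ^ 2 := by
    intro r hr
    have h4 : (4 : F) ≠ 0 := by
      have : (4 : F) = 2 * 2 := by norm_num
      rw [this]; exact mul_ne_zero h2 h2
    have e1 : ∑ x, ((‖ft b ψ f x‖ ^ 2 : ℝ) : ℂ) * ψ (r * b.Q (x - m)) =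
        ∑ y, ((‖ft b ψ F' y‖ ^ 2 : ℝ) : ℂ) * ψ (r * b.Q y) := by
      rw [← Equiv.sum_comp (Equiv.addRight m)]
      refine Finset.sum_congr rfl fun y _ => ?_
      simp only [Equiv.coe_addRight, add_sub_cancel_right]
      have : ft b ψ f (y + m) = ft b ψ F' y := by
        unfold ft
        refine Finset.sum_congr rfl fun x _ => ?_
        rw [hF', b.add_left, mul_assoc, ← AddChar.map_add_eq_mul]
        congr 2; ring
      rw [this]
    have e2 : ∑ y, ((‖ft b ψ F' y‖ ^ 2 : ℝ) : ℂ) * ψ (r * b.Q y) =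
        gam b ψ r * (ψ (-(j * (2 * r)⁻¹)) * Mc b ψ F' (2 * r)⁻¹) := by
      have e3 : ∀ y, ((‖ft b ψ F' y‖ ^ 2 : ℝ) : ℂ) * ψ (r * b.Q y) =
          ∑ x, ∑ z, F' x * conj (F' z) * ψ (r * b.Q y + b.B y (z - x)) := by
        intro y
        rw [Complex.ofReal_pow, ← Complex.mul_conj', ft, map_sum, Finset.sum_mul_sum,
          Finset.sum_mul]
        refine Finset.sum_congr rfl fun x _ => ?_
        rw [Finset.sum_mul]
        refine Finset.sum_congr rfl fun z _ => ?_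
        rw [RingHom.map_mul, conj_psi, neg_neg, b.sub_right, AddChar.map_add_eq_mul,
          sub_eq_add_neg, AddChar.map_add_eq_mul]
        ring
      simp_rw [e3]
      rw [sum_rot3]
      simp_rw [← Finset.mul_sum, gauss_shift b ψ h2 hr]
      unfold Mc
      simp_rw [Finset.mul_sum]
      refine Finset.sum_congr rfl fun x _ => Finset.sum_congr rfl fun z _ => ?_
      by_cases hx : x ∈ S
      · by_cases hz : z ∈ S
        · have e4 : ψ (-(b.Q (z - x)) / (4 * r)) =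
              ψ (-(j * (2 * r)⁻¹)) * ψ ((2 * r)⁻¹ * b.B x z) := by
            rw [← AddChar.map_add_eq_mul, b.Q_sub, hj x hx, hj z hz, b.symm z x]
            congr 1
            rw [show (4 : F) = 2 * 2 by norm_num]
            field_simp
            ring
          rw [e4]; ring
        · rw [hF'S z hz]; simp
      · rw [hF'S x hx]; simp
    rw [e1, e2, norm_mul, norm_mul, norm_psi, one_mul, mul_pow, norm_gam_sq b ψ h2 hψ hr, hv]
  have hsumr : ∑ r with r ≠ 0, ‖Mc b ψ F' (2 * r)⁻¹‖ ^ 2 =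
      ∑ c with c ≠ 0, ‖Mc b ψ F' c‖ ^ 2 := by
    refine Finset.sum_bij' (fun r _ => (2 * r)⁻¹) (fun r _ => (2 * r)⁻¹) ?_ ?_ ?_ ?_ ?_
    · intro r hr
      simp only [Finset.mem_filter, Finset.mem_univ, true_and] at hr ⊢
      exact inv_ne_zero (mul_ne_zero h2 hr)
    · intro r hr
      simp only [Finset.mem_filter, Finset.mem_univ, true_and] at hr ⊢
      exact inv_ne_zero (mul_ne_zero h2 hr)
    · intro r hr
      simp only [Finset.mem_filter, Finset.mem_univ, true_and] at hr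
      field_simp
    · intro r hr
      simp only [Finset.mem_filter, Finset.mem_univ, true_and] at hr
      field_simp
    · intro r _; rfl
  have hDle : D ≤ 9 * q ^ 5 := by
    rw [hDavg, sum_split0, hB0]
    have : ∑ r with r ≠ 0, ‖∑ x, ((‖ft b ψ f x‖ ^ 2 : ℝ) : ℂ) * ψ (r * b.Q (x - m))‖ ^ 2 =
        q ^ 3 * ∑ r with r ≠ 0, ‖Mc b ψ F' (2 * r)⁻¹‖ ^ 2 := by
      rw [Finset.mul_sum]
      refine Finset.sum_congr rfl fun r hr => ?_
      simp only [Finset.mem_filter, Finset.mem_univ, true_and] at hr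
      exact hBr r hr
    rw [this, hsumr, inv_mul_le_iff₀ hq0]
    nlinarith [mul_le_mul_of_nonneg_left hX (pow_pos hq0 3).le]
  rw [le_div_iff₀ (by positivity)]
  exact hPD.trans hDle

end Pool.Agent.H375R4
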