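import Pool.Agent.H375R4.Stage2

set_option autoImplicit false
set_option linter.unusedSectionVars false

/-! # Second stage: bound for the weighted fourth moment -/

open Finset ComplexConjugate

namespace Pool.Agent.H375R4

variable {F : Type*} [Field F] [Fintype F] [DecidableEq F]
variable {V : Type*} [AddCommGroup V] [Module F V] [Fintype V] [DecidableEq V]
variable (b : SForm F V) {ψ : AddChar F ℂ}

lemma sum_tr2 (hψ : ψ ≠ 1) (h2 : (2 : F) ≠ 0) (w : V → ℝ) :
    ∑ t, (kmat (ker0 b ψ w) (lev b t) * kmat (ker0 b ψ w) (lev b t)).trace.re ≤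
      (Fintype.card V : ℝ) / Fintype.card F * ((Fintype.card V : ℝ)⁻¹ * ∑ m, w m ^ 2) := by
  have e1 : ∀ t, (kmat (ker0 b ψ w) (lev b t) * kmat (ker0 b ψ w) (lev b t)).trace.re =
      ∑ x, (cnt2 (lev b t) x : ℝ) * ‖ker0 b ψ w x‖ ^ 2 := by
    intro t
    rw [kmat_tr2 _ _ (ker0_neg b ψ w), Complex.ofReal_re]
  simp_rw [e1]
  rw [Finset.sum_comm]
  have e2 : ∀ x, ∑ t, (cnt2 (lev b t) x : ℝ) * ‖ker0 b ψ w x‖ ^ 2 =
      (Fintype.card V : ℝ) / Fintype.card F * ‖ker0 b ψ w x‖ ^ 2 := by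
    intro x
    rw [← Finset.sum_mul]
    by_cases hx : x = 0
    · simp [hx, ker0]
    · rw [← Nat.cast_sum, sum_cnt2, C2_eq b hψ h2 x hx]
  simp_rw [e2]
  rw [← Finset.mul_sum]
  exact mul_le_mul_of_nonneg_left (ker0_sq_le b hψ w) (by positivity)

theorem stage2 (hψ : ψ ≠ 1) (h2 : (2 : F) ≠ 0) (u : F → V → ℂ)
    (hu : ∀ t x, b.Q x ≠ t → u t x = 0) (c : F → ℝ) (hc0 : ∀ t, 0 < c t)
    (hc : ∀ t, ∑ x, ‖u t x‖ ^ 2 ≤ c t) (w : V → ℝ)
    (hw : ∀ m, w m = ∑ t, (c t)⁻¹ * ‖ft b ψ (u t) m‖ ^ 2)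
    (ws W : ℝ) (hws : ∀ m, w m ≤ ws) (hW0 : 0 ≤ W)
    (hW : ∀ e : V, e ≠ 0 → b.Q e = 0 → ∀ c, pmass b w e c ≤ W) :
    (Fintype.card V : ℝ)⁻¹ * ∑ m, w m ≤ Fintype.card F ∧
    ∃ Y : ℝ, 0 ≤ Y ∧
      (Fintype.card V : ℝ)⁻¹ * ∑ m, w m ^ 2 ≤
        Fintype.card F * ((Fintype.card V : ℝ)⁻¹ * ∑ m, w m) + Y ∧
      Y ^ 3 ≤ (Fintype.card F : ℝ) ^ 2 * (((Fintype.card V : ℝ)⁻¹ * ∑ m, w m ^ 2) *
        ((Fintype.card V : ℝ) / (Fintype.card F) ^ 2 * ws +
         (Fintype.card V : ℝ) / (Fintype.card F) ^ 2 * ((Fintype.card F : ℝ) + 1) *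
           ((Fintype.card V : ℝ)⁻¹ * ∑ m, w m) +
         (Fintype.card V : ℝ) / Fintype.card F * W +
         (Fintype.card V : ℝ) / Fintype.card F * ((Fintype.card V : ℝ)⁻¹ * ∑ m, w m))) := by
  have hv : (0 : ℝ) < Fintype.card V := by exact_mod_cast Fintype.card_pos
  have hq : (0 : ℝ) < Fintype.card F := by exact_mod_cast Fintype.card_pos
  have hw0 : ∀ m, 0 ≤ w m := by
    intro m; rw [hw]
    exact Finset.sum_nonneg fun t _ => mul_nonneg (inv_nonneg.mpr (hc0 t).le) (by positivity)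
  set K := ker0 b ψ w with hK
  set LL := (Fintype.card V : ℝ)⁻¹ * ∑ m, w m ^ 2 with hLL
  set G0 := (Fintype.card V : ℝ)⁻¹ * ∑ m, w m with hG0
  have hG00 : 0 ≤ G0 := mul_nonneg (by positivity) (Finset.sum_nonneg fun m _ => hw0 m)
  have hnn : ∀ t, 0 ≤ ∑ x, ‖u t x‖ ^ 2 := fun t => Finset.sum_nonneg fun x _ => by positivity
  refine ⟨?_, ?_⟩
  · -- G0 ≤ q
    have : G0 = ∑ t, (c t)⁻¹ * ∑ x, ‖u t x‖ ^ 2 := by
      rw [hG0]
      simp_rw [hw]
      rw [Finset.sum_comm, Finset.mul_sum]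
      refine Finset.sum_congr rfl fun t _ => ?_
      rw [← Finset.mul_sum, parseval b ψ hψ]
      field_simp
    rw [this]
    calc _ ≤ ∑ t : F, (1 : ℝ) := by
          refine Finset.sum_le_sum fun t _ => ?_
          rw [inv_mul_le_iff₀ (hc0 t), mul_one]
          exact hc t
      _ = _ := by simp
  · have htm : ∀ t, _ := fun t => third_moment (kmat K (lev b t))
      (kmat_herm K _ (ker0_neg b ψ w)) G0 hG00 (by
        intro x
        rw [hK, kmat0_quad, Complex.ofReal_re]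
        have h1 : 0 ≤ (Fintype.card V : ℝ)⁻¹ *
            ∑ m, w m * ‖ft b ψ (fun y => if y ∈ lev b t then x y else 0) m‖ ^ 2 :=
          mul_nonneg (by positivity) (Finset.sum_nonneg fun m _ =>
            mul_nonneg (hw0 m) (by positivity))
        have h3 : ∑ y, ‖if y ∈ lev b t then x y else 0‖ ^ 2 ≤ ∑ y, ‖x y‖ ^ 2 := by
          refine Finset.sum_le_sum fun y _ => ?_
          split_ifs
          · exact le_refl _
          · simp
        have h4 := mul_le_mul_of_nonneg_left h3 hG00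
        rw [← hG0]
        linarith)
    set θ : F → ℝ := fun t => (kmat K (lev b t) * kmat K (lev b t) * kmat K (lev b t)).trace.re +
      G0 * (kmat K (lev b t) * kmat K (lev b t)).trace.re with hθ
    have hθ0 : ∀ t, 0 ≤ θ t := fun t => (htm t).1
    set y : F → ℝ := fun t => θ t ^ (1 / 3 : ℝ) with hy
    have hy0 : ∀ t, 0 ≤ y t := fun t => Real.rpow_nonneg (hθ0 t) _
    have hy3 : ∀ t, y t ^ 3 = θ t := by
      intro t
      rw [hy]
      simp only
      rw [← Real.rpow_natCast, ← Real.rpow_mul (hθ0 t)]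
      norm_num
    have hmain : ∀ t, (Fintype.card V : ℝ)⁻¹ * ∑ m, w m * ‖ft b ψ (u t) m‖ ^ 2 ≤
        (G0 + y t) * ∑ x, ‖u t x‖ ^ 2 := by
      intro t
      have h := (htm t).2 (u t)
      rw [hK, kmat0_quad, Complex.ofReal_re] at h
      have hut : (fun x => if x ∈ lev b t then u t x else 0) = u t := by
        funext x
        by_cases hx : b.Q x = t
        · simp [lev, hx]
        · simp [lev, hx, hu t x hx]
      have hut' : ∀ x, (if x ∈ lev b t then u t x else 0) = u t x := fun x => congrFun hut x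
      simp_rw [hut'] at h
      rw [← hG0] at h
      have h' : (Fintype.card V : ℝ)⁻¹ * ∑ m, w m * ‖ft b ψ (fun x => u t x) m‖ ^ 2 ≤
        (G0 + y t) * ∑ x, ‖u t x‖ ^ 2 := by
        have : y t = ((kmat (ker0 b ψ w) (lev b t) * kmat (ker0 b ψ w) (lev b t) *
          kmat (ker0 b ψ w) (lev b t)).trace.re +
          G0 * (kmat (ker0 b ψ w) (lev b t) * kmat (ker0 b ψ w) (lev b t)).trace.re) ^
            (1 / 3 : ℝ) := rfl
        rw [this]
        linarith
      exact h'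
    refine ⟨∑ t, y t, Finset.sum_nonneg fun t _ => hy0 t, ?_, ?_⟩
    · have e1 : LL = ∑ t, (c t)⁻¹ * ((Fintype.card V : ℝ)⁻¹ *
          ∑ m, w m * ‖ft b ψ (u t) m‖ ^ 2) := by
        rw [hLL]
        have : ∀ m, w m ^ 2 = ∑ t, (c t)⁻¹ * (w m * ‖ft b ψ (u t) m‖ ^ 2) := by
          intro m
          rw [sq]
          nth_rewrite 2 [hw m]
          rw [Finset.mul_sum]
          exact Finset.sum_congr rfl fun t _ => by ring
        simp_rw [this]
        rw [Finset.sum_comm, Finset.mul_sum]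
        refine Finset.sum_congr rfl fun t _ => ?_
        rw [← Finset.mul_sum]; ring
      rw [e1]
      calc _ ≤ ∑ t, (G0 + y t) := by
            refine Finset.sum_le_sum fun t _ => ?_
            have h1 := hmain t
            have h3 : (G0 + y t) * ∑ x, ‖u t x‖ ^ 2 ≤ (G0 + y t) * c t :=
              mul_le_mul_of_nonneg_left (hc t) (by linarith [hy0 t])
            rw [inv_mul_le_iff₀ (hc0 t)]
            linarith
        _ = _ := by
            rw [Finset.sum_add_distrib, Finset.sum_const, Finset.card_univ, nsmul_eq_mul]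
    · have hpm : (∑ t, y t) ^ 3 ≤ (Fintype.card F : ℝ) ^ 2 * ∑ t, y t ^ 3 := by
        have := pow_sum_le_card_mul_sum_pow (s := (univ : Finset F)) (f := y)
          (fun t _ => hy0 t) 2
        rw [Finset.card_univ] at this
        norm_num at this
        exact this
      refine hpm.trans ?_
      refine mul_le_mul_of_nonneg_left ?_ (by positivity)
      simp_rw [hy3, hθ]
      rw [Finset.sum_add_distrib, ← Finset.mul_sum]
      have h3 := sum_tr3 b hψ h2 w hw0 ws W hws hW0 hW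
      have h4 := mul_le_mul_of_nonneg_left (sum_tr2 b hψ h2 w) hG00
      rw [← hLL, ← hG0] at h3
      rw [← hLL] at h4
      linarith

end Pool.Agent.H375R4
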