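import Mathlib

set_option autoImplicit false
set_option linter.unusedSectionVars false

/-! # Third moment bound for the top of the spectrum of a Hermitian matrix -/

open Finset ComplexConjugate Matrix

namespace Pool.Agent.H375R4

variable {X : Type*} [Fintype X] [DecidableEq X]

lemma quad_eq (M : Matrix X X ℂ) (u : X → ℂ) :
    ∑ x, ∑ y, conj (u x) * M x y * u y = star u ⬝ᵥ (M *ᵥ u) := by
  simp only [dotProduct, mulVec, Pi.star_apply, Finset.mul_sum]
  refine Finset.sum_congr rfl fun x _ => Finset.sum_congr rfl fun y _ => ?_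
  rw [mul_assoc]; rfl

lemma norm_sq_eq (u : X → ℂ) : ((∑ x, ‖u x‖ ^ 2 : ℝ) : ℂ) = star u ⬝ᵥ u := by
  simp only [dotProduct, Pi.star_apply]
  push_cast
  refine Finset.sum_congr rfl fun x _ => ?_
  rw [← Complex.conj_mul']; rfl

/-- diagonalisation data in plain form -/
lemma diag_data (M : Matrix X X ℂ) (hM : M.IsHermitian) :
    ∃ μ : X → ℝ, ∃ U : Matrix X X ℂ, U * star U = 1 ∧ star U * U = 1 ∧
      M = U * diagonal (fun i => (μ i : ℂ)) * star U := by
  refine ⟨hM.eigenvalues, (hM.eigenvectorUnitary : Matrix X X ℂ), ?_, ?_, ?_⟩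
  · exact Unitary.coe_mul_star_self _
  · exact Unitary.coe_star_mul_self _
  · have := hM.spectral_theorem
    rw [Unitary.conjStarAlgAut_apply] at this
    exact this

lemma third_moment (M : Matrix X X ℂ) (hM : M.IsHermitian) (c : ℝ) (hc : 0 ≤ c)
    (hpos : ∀ u : X → ℂ, -(c * ∑ x, ‖u x‖ ^ 2) ≤ (∑ x, ∑ y, conj (u x) * M x y * u y).re) :
    0 ≤ (M * M * M).trace.re + c * (M * M).trace.re ∧
    ∀ u : X → ℂ, (∑ x, ∑ y, conj (u x) * M x y * u y).re ≤
      ((M * M * M).trace.re + c * (M * M).trace.re) ^ (1 / 3 : ℝ) * ∑ x, ‖u x‖ ^ 2 := by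
  obtain ⟨μ, U, hU1, hU2, hMU⟩ := diag_data M hM
  set D : Matrix X X ℂ := diagonal (fun i => (μ i : ℂ)) with hD
  have hquad : ∀ u : X → ℂ, ∑ x, ∑ y, conj (u x) * M x y * u y =
      ((∑ i, μ i * ‖(star U *ᵥ u) i‖ ^ 2 : ℝ) : ℂ) := by
    intro u
    rw [quad_eq, hMU, ← mulVec_mulVec, ← mulVec_mulVec]
    have e1 : star u ⬝ᵥ (U *ᵥ (D *ᵥ (star U *ᵥ u))) =
        star (star U *ᵥ u) ⬝ᵥ (D *ᵥ (star U *ᵥ u)) := by
      rw [star_mulVec, dotProduct_mulVec]
      congr 1
      rw [← Matrix.star_eq_conjTranspose, star_star]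
    rw [e1]
    simp only [dotProduct, Pi.star_apply]
    push_cast
    refine Finset.sum_congr rfl fun i _ => ?_
    rw [hD, mulVec_diagonal, ← Complex.conj_mul']
    change conj _ * _ = _
    ring
  have hnorm : ∀ u : X → ℂ, ∑ i, ‖(star U *ᵥ u) i‖ ^ 2 = ∑ x, ‖u x‖ ^ 2 := by
    intro u
    have h1 := norm_sq_eq (star U *ᵥ u)
    have h2 := norm_sq_eq u
    have e1 : star (star U *ᵥ u) ⬝ᵥ (star U *ᵥ u) = star u ⬝ᵥ u := by
      rw [star_mulVec, ← dotProduct_mulVec, ← Matrix.star_eq_conjTranspose, star_star,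
        mulVec_mulVec, hU1, one_mulVec]
    rw [e1, ← h2] at h1
    exact_mod_cast h1
  have hμ : ∀ i, -c ≤ μ i := by
    intro i
    have h := hpos (U *ᵥ Pi.single i 1)
    rw [hquad, Complex.ofReal_re, ← hnorm (U *ᵥ Pi.single i 1), mulVec_mulVec, hU2,
      one_mulVec] at h
    rw [Finset.sum_eq_single i, Finset.sum_eq_single i] at h
    · simpa using h
    · intro j _ hj; simp [hj]
    · simp
    · intro j _ hj; simp [hj]
    · simp
  have ht2 : (M * M).trace = ((∑ i, μ i ^ 2 : ℝ) : ℂ) := by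
    have : M * M = U * (D * D) * star U := by
      rw [hMU]
      calc U * D * star U * (U * D * star U) = U * D * (star U * U) * D * star U := by
            simp only [Matrix.mul_assoc]
        _ = _ := by rw [hU2]; simp only [Matrix.mul_assoc, Matrix.one_mul]
    rw [this, Matrix.trace_mul_comm, ← Matrix.mul_assoc, hU2, Matrix.one_mul, hD,
      diagonal_mul_diagonal, trace_diagonal]
    push_cast
    exact Finset.sum_congr rfl fun i _ => by ring
  have ht3 : (M * M * M).trace = ((∑ i, μ i ^ 3 : ℝ) : ℂ) := by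
    have : M * M * M = U * (D * D * D) * star U := by
      rw [hMU]
      calc U * D * star U * (U * D * star U) * (U * D * star U)
          = U * D * (star U * U) * D * (star U * U) * D * star U := by
            simp only [Matrix.mul_assoc]
        _ = _ := by rw [hU2]; simp only [Matrix.mul_assoc, Matrix.one_mul]
    rw [this, Matrix.trace_mul_comm, ← Matrix.mul_assoc, hU2, Matrix.one_mul, hD,
      diagonal_mul_diagonal, diagonal_mul_diagonal, trace_diagonal]
    push_cast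
    exact Finset.sum_congr rfl fun i _ => by ring
  rw [ht2, ht3, Complex.ofReal_re, Complex.ofReal_re]
  have hΘ : ∑ i, μ i ^ 3 + c * ∑ i, μ i ^ 2 = ∑ i, (μ i + c) * μ i ^ 2 := by
    rw [Finset.mul_sum, ← Finset.sum_add_distrib]
    exact Finset.sum_congr rfl fun i _ => by ring
  rw [hΘ]
  have hterm : ∀ i ∈ (univ : Finset X), 0 ≤ (μ i + c) * μ i ^ 2 := fun i _ =>
    mul_nonneg (by linarith [hμ i]) (sq_nonneg _)
  have hΘ0 : 0 ≤ ∑ i, (μ i + c) * μ i ^ 2 := Finset.sum_nonneg hterm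
  refine ⟨hΘ0, fun u => ?_⟩
  rw [hquad, Complex.ofReal_re, ← hnorm u, Finset.mul_sum]
  refine Finset.sum_le_sum fun i _ => mul_le_mul_of_nonneg_right ?_ (sq_nonneg _)
  by_cases hi : μ i ≤ 0
  · exact hi.trans (Real.rpow_nonneg hΘ0 _)
  · push Not at hi
    have h1 : μ i ^ 3 ≤ ∑ i, (μ i + c) * μ i ^ 2 := by
      refine le_trans ?_ (Finset.single_le_sum hterm (Finset.mem_univ i))
      nlinarith [mul_nonneg hc (sq_nonneg (μ i))]
    calc μ i = (μ i ^ 3) ^ (1 / 3 : ℝ) := by
          rw [← Real.rpow_natCast, ← Real.rpow_mul hi.le]; norm_num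
      _ ≤ _ := Real.rpow_le_rpow (by positivity) h1 (by norm_num)

end Pool.Agent.H375R4
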