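import Pool.Agent.H375R4.Plane
import Pool.Agent.H375R4.Num
import Pool.Agent.H375R4.Third
import Pool.Agent.H375R4.Stage2b
import Pool.Agent.H375R4.Sph

set_option autoImplicit false
set_option linter.unusedSectionVars false

/-! # The distributional estimate -/

open Finset ComplexConjugate

namespace Pool.Agent.H375R4

variable {F : Type*} [Field F] [Fintype F] [DecidableEq F]
variable {V : Type*} [AddCommGroup V] [Module F V] [Fintype V] [DecidableEq V]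
variable (b : SForm F V) {ψ : AddChar F ℂ}
variable {κ : ℝ} {j : F}

lemma cs_pairs (c : F → ℝ) (hc : ∀ t, 0 < c t) (X : F → F → ℝ) (hX : ∀ s t, 0 ≤ X s t) :
    ∑ s, ∑ t, Real.sqrt (X s t) ≤
      (∑ t, c t) * Real.sqrt (∑ s, ∑ t, (c s)⁻¹ * (c t)⁻¹ * X s t) := by
  have h0 : ∀ s t, 0 ≤ (c s)⁻¹ * (c t)⁻¹ * X s t := fun s t =>
    mul_nonneg (mul_nonneg (inv_nonneg.mpr (hc s).le) (inv_nonneg.mpr (hc t).le)) (hX s t)
  have h1 : ∀ s t, Real.sqrt (X s t) =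
      Real.sqrt (c s * c t) * Real.sqrt ((c s)⁻¹ * (c t)⁻¹ * X s t) := by
    intro s t
    rw [← Real.sqrt_mul (mul_nonneg (hc s).le (hc t).le)]
    congr 1
    have := (hc s).ne'
    have := (hc t).ne'
    field_simp
  have h2 := Finset.sum_mul_sq_le_sq_mul_sq (univ : Finset (F × F))
    (fun p => Real.sqrt (c p.1 * c p.2))
    (fun p => Real.sqrt ((c p.1)⁻¹ * (c p.2)⁻¹ * X p.1 p.2))
  have h3 : ∑ p : F × F, Real.sqrt (c p.1 * c p.2) ^ 2 = (∑ t, c t) ^ 2 := by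
    rw [sq (∑ t, c t), Finset.sum_mul_sum, Fintype.sum_prod_type]
    refine Finset.sum_congr rfl fun s _ => Finset.sum_congr rfl fun t _ => ?_
    exact Real.sq_sqrt (mul_nonneg (hc s).le (hc t).le)
  have h4 : ∑ p : F × F, Real.sqrt ((c p.1)⁻¹ * (c p.2)⁻¹ * X p.1 p.2) ^ 2 =
      ∑ s, ∑ t, (c s)⁻¹ * (c t)⁻¹ * X s t := by
    rw [Fintype.sum_prod_type]
    refine Finset.sum_congr rfl fun s _ => Finset.sum_congr rfl fun t _ => ?_
    exact Real.sq_sqrt (h0 s t)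
  rw [h3, h4] at h2
  have h5 : ∑ s, ∑ t, Real.sqrt (X s t) = ∑ p : F × F, Real.sqrt (c p.1 * c p.2) *
      Real.sqrt ((c p.1)⁻¹ * (c p.2)⁻¹ * X p.1 p.2) := by
    rw [Fintype.sum_prod_type]
    exact Finset.sum_congr rfl fun s _ => Finset.sum_congr rfl fun t _ => h1 s t
  rw [h5]
  have h6 : 0 ≤ ∑ s, ∑ t, (c s)⁻¹ * (c t)⁻¹ * X s t :=
    Finset.sum_nonneg fun s _ => Finset.sum_nonneg fun t _ => h0 s t
  have h7 : 0 ≤ ∑ t, c t := Finset.sum_nonneg fun t _ => (hc t).le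
  apply le_of_sq_le_sq _ (mul_nonneg h7 (Real.sqrt_nonneg _))
  rw [mul_pow, Real.sq_sqrt h6]
  exact h2

lemma omega_sq (hψ : ψ ≠ 1) (u : F → V → ℂ) (c : F → ℝ) (w : V → ℝ)
    (hw : ∀ m, w m = ∑ t, (c t)⁻¹ * ‖ft b ψ (u t) m‖ ^ 2) :
    ∑ s, ∑ t, (c s)⁻¹ * (c t)⁻¹ * ∑ z, ‖cv (u s) (u t) z‖ ^ 2 =
      (Fintype.card V : ℝ)⁻¹ * ∑ m, w m ^ 2 := by
  have h1 : ∀ m, w m ^ 2 = ∑ s, ∑ t, (c s)⁻¹ * (c t)⁻¹ *
      (‖ft b ψ (u s) m‖ ^ 2 * ‖ft b ψ (u t) m‖ ^ 2) := by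
    intro m
    rw [sq, hw, Finset.sum_mul_sum]
    refine Finset.sum_congr rfl fun s _ => Finset.sum_congr rfl fun t _ => ?_
    ring
  simp_rw [h1, cv_sq b ψ hψ]
  rw [sum_rot3, Finset.mul_sum]
  refine Finset.sum_congr rfl fun s _ => ?_
  rw [Finset.mul_sum]
  refine Finset.sum_congr rfl fun t _ => ?_
  rw [← Finset.mul_sum]
  ring

/-- the lower bound for the trace -/
lemma trace_lower (hψ : ψ ≠ 1) (S G : Finset V) (f : V → ℂ) (hf : ∀ x, x ∉ S → f x = 0)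
    (h1 : ∑ x, ‖f x‖ ^ 2 = 1) (h : ℝ) (hh : 0 < h) (hG : ∀ m ∈ G, h ≤ ‖ft b ψ f m‖) :
    (h ^ 2 * ((Fintype.card V : ℝ)⁻¹ * #G)) ^ 3 ≤
      (kmat (ker b ψ (ind G)) S * kmat (ker b ψ (ind G)) S *
        kmat (ker b ψ (ind G)) S).trace.re := by
  set M := kmat (ker b ψ (ind G)) S with hM
  have hherm : M.IsHermitian := kmat_herm _ S (fun x => ker_neg b ψ _ x)
  have hpos : ∀ u : V → ℂ, -((0 : ℝ) * ∑ x, ‖u x‖ ^ 2) ≤
      (∑ x, ∑ y, conj (u x) * M x y * u y).re := by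
    intro u
    rw [hM, kmat_quad, Complex.ofReal_re, zero_mul, neg_zero]
    exact mul_nonneg (by positivity) (Finset.sum_nonneg fun m _ =>
      mul_nonneg (ind_nonneg G m) (by positivity))
  obtain ⟨h2, h3⟩ := third_moment M hherm 0 le_rfl hpos
  have h4 := h3 f
  rw [h1, mul_one, hM, kmat_quad, Complex.ofReal_re, zero_mul, add_zero, ← hM] at h4
  rw [zero_mul, add_zero] at h2
  have h5 : (fun x => if x ∈ S then f x else 0) = f := by
    funext x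
    split_ifs with hx
    · rfl
    · exact (hf x hx).symm
  rw [h5] at h4
  have h6 : h ^ 2 * ((Fintype.card V : ℝ)⁻¹ * #G) ≤
      (Fintype.card V : ℝ)⁻¹ * ∑ m, ind G m * ‖ft b ψ f m‖ ^ 2 := by
    have : (#G : ℝ) * h ^ 2 ≤ ∑ m, ind G m * ‖ft b ψ f m‖ ^ 2 := by
      rw [← sum_ind G, Finset.sum_mul]
      refine Finset.sum_le_sum fun m _ => ?_
      unfold ind
      split_ifs with hm
      · rw [one_mul, one_mul]
        exact pow_le_pow_left₀ hh.le (hG m hm) 2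
      · simp
    calc h ^ 2 * ((Fintype.card V : ℝ)⁻¹ * #G) = (Fintype.card V : ℝ)⁻¹ * (#G * h ^ 2) := by ring
      _ ≤ _ := mul_le_mul_of_nonneg_left this (by positivity)
  have h7 := h6.trans h4
  have h8 := pow_le_pow_left₀ (by positivity) h7 3
  rwa [← Real.rpow_natCast (_ ^ (1 / 3 : ℝ)) 3, ← Real.rpow_mul h2, show (1 / 3 : ℝ) * (3 : ℕ) = 1 by
    norm_num, Real.rpow_one] at h8

/-- The distributional estimate in the middle range. -/
theorem Adm.core (H : Adm b ψ κ j) (f : V → ℂ) (hf : ∀ x, x ∉ lev b j → f x = 0)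
    (h1 : ∑ x, ‖f x‖ ^ 2 = 1) (G : Finset V) (h : ℝ) (hh : 0 < h)
    (hG : ∀ m ∈ G, h ≤ ‖ft b ψ f m‖) (hh4 : h ^ 2 ≤ 4 * (Fintype.card F : ℝ))
    (hh7 : (Fintype.card F : ℝ) ^ 3 ≤ h ^ 7) :
    (h ^ 4 * ((Fintype.card V : ℝ)⁻¹ * #G)) ^ 7 ≤ 40 ^ 7 * (Fintype.card F : ℝ) ^ 6 := by
  rcases Finset.eq_empty_or_nonempty G with hGe | hGe
  · subst hGe
    have : (h ^ 4 * ((Fintype.card V : ℝ)⁻¹ * (#(∅ : Finset V) : ℝ))) ^ 7 = 0 := by simp
    rw [this]; positivity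
  have h2 := H.two
  have hψ := H.hψ
  have hq3 := H.q3
  have hv := H.hv
  have hcard := H.card_lev b
  obtain ⟨q, hq⟩ : ∃ q : ℝ, q = (Fintype.card F : ℝ) := ⟨_, rfl⟩
  rw [← hq] at hq3 hh4 hh7 hv hcard ⊢
  have hq0 : 0 < q := by linarith
  have hvpos : (0 : ℝ) < Fintype.card V := by exact_mod_cast Fintype.card_pos
  have hNpos : (0 : ℝ) < #G := by exact_mod_cast Finset.card_pos.mpr hGe
  obtain ⟨L, hL⟩ : ∃ L : ℝ, L = (Fintype.card V : ℝ)⁻¹ * #G := ⟨_, rfl⟩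
  rw [← hL]
  have hLpos : 0 < L := by rw [hL]; positivity
  have hNL : (#G : ℝ) = q ^ 3 * L := by rw [hL, hv]; field_simp
  set A : V → ℂ := ker b ψ (ind G) with hA
  set S : Finset V := lev b j with hS
  have hA1 : ∀ x, ‖A x‖ ≤ L := by
    intro x
    have := norm_ker_le b ψ (ind G) (ind_nonneg G) x
    rwa [sum_ind, ← hL] at this
  have hA2 : ∑ x, ‖A x‖ ^ 2 = L := by
    have := ker_sq b ψ hψ (ind G)
    simp_rw [ind_sq] at this
    rw [hA, this, sum_ind, hL]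
  obtain ⟨n, hn0, hn⟩ := H.exists_n b
  have hst1 := stage1 (b := b) A L hLpos.le (fun x => ker_neg b ψ _ x) hA1 hA2.le S q hq
    (fun x hx => by rw [hq]; exact H.cnt2_le b x hx) (fun x y hd hx hy hxy => H.cnt3_dep b x y hd hx hy hxy)
    n hn0 hn
  have hlow := trace_lower b hψ S G f hf h1 h hh hG
  rw [← hL, ← hA] at hlow
  -- the weights
  obtain ⟨a, hadef⟩ : ∃ a : F → ℝ, ∀ t, a t = ∑ x, ‖At b A t x‖ ^ 2 := ⟨_, fun t => rfl⟩
  have ha0 : ∀ t, 0 ≤ a t := fun t => by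
    rw [hadef]; exact Finset.sum_nonneg fun x _ => by positivity
  obtain ⟨c, hcdef⟩ : ∃ c : F → ℝ, ∀ t, c t = a t + L / q := ⟨_, fun t => rfl⟩
  have hc0 : ∀ t, 0 < c t := fun t => by
    have : 0 < L / q := by positivity
    rw [hcdef]; linarith [ha0 t]
  have hcL : ∀ t, L / q ≤ c t := fun t => by rw [hcdef]; linarith [ha0 t]
  have hcsum : ∑ t, c t = 2 * L := by
    simp_rw [hcdef]
    rw [Finset.sum_add_distrib, Finset.sum_const, Finset.card_univ, nsmul_eq_mul, ← hq]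
    have : ∑ t, a t = L := by
      rw [← hA2]; simp_rw [hadef]; exact sum_norm_At_sq b A
    rw [this]; field_simp; ring
  obtain ⟨w, hw⟩ : ∃ w : V → ℝ, ∀ m, w m = ∑ t, (c t)⁻¹ * ‖ft b ψ (At b A t) m‖ ^ 2 :=
    ⟨_, fun m => rfl⟩
  obtain ⟨LL, hLL⟩ : ∃ LL : ℝ, LL = (Fintype.card V : ℝ)⁻¹ * ∑ m, w m ^ 2 := ⟨_, rfl⟩
  have hLL0 : 0 ≤ LL := by
    rw [hLL]; exact mul_nonneg (by positivity) (Finset.sum_nonneg fun m _ => by positivity)
  have hcs := cs_pairs c hc0 (fun s t => ∑ z, ‖cv (At b A s) (At b A t) z‖ ^ 2)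
    (fun s t => Finset.sum_nonneg fun z _ => by positivity)
  rw [omega_sq b hψ (fun t => At b A t) c w hw, ← hLL, hcsum] at hcs
  have hI : h ^ 6 * L ^ 3 ≤ 3 * q ^ 2 * L ^ 3 + 10 * q * L ^ 2 +
      4 * L * Real.sqrt L * Real.sqrt LL := by
    have e1 : (h ^ 2 * L) ^ 3 = h ^ 6 * L ^ 3 := by ring
    rw [e1] at hlow
    have e2 : (#S : ℝ) ≤ q ^ 2 := by
      rw [hS, hcard]; nlinarith
    have e3 : ∑ t₁, ∑ t₂, Real.sqrt L * Real.sqrt (∑ z, ‖cv (At b A t₁) (At b A t₂) z‖ ^ 2) =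
        Real.sqrt L * ∑ t₁, ∑ t₂, Real.sqrt (∑ z, ‖cv (At b A t₁) (At b A t₂) z‖ ^ 2) := by
      simp_rw [Finset.mul_sum]
    rw [e3] at hst1
    have e4 : Real.sqrt L * ∑ t₁, ∑ t₂, Real.sqrt (∑ z, ‖cv (At b A t₁) (At b A t₂) z‖ ^ 2) ≤
        Real.sqrt L * (2 * L * Real.sqrt LL) :=
      mul_le_mul_of_nonneg_left hcs (Real.sqrt_nonneg _)
    have e5 : 3 * (#S : ℝ) * L ^ 3 ≤ 3 * q ^ 2 * L ^ 3 := by
      have := pow_pos hLpos 3
      exact mul_le_mul_of_nonneg_right (by linarith) this.le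
    have e6 : 6 * q * L ^ 2 + 2 * (q + 1) * L ^ 2 ≤ 10 * q * L ^ 2 := by
      have := pow_pos hLpos 2
      have e7 : 6 * q * L ^ 2 + 2 * (q + 1) * L ^ 2 = (6 * q + 2 * (q + 1)) * L ^ 2 := by ring
      rw [e7]
      exact mul_le_mul_of_nonneg_right (by linarith) this.le
    have e8 : 2 * (Real.sqrt L * (2 * L * Real.sqrt LL)) =
        4 * L * Real.sqrt L * Real.sqrt LL := by ring
    linarith
  -- bounds for the square function
  have hwnn : ∀ t m, 0 ≤ ‖ft b ψ (At b A t) m‖ ^ 2 := fun t m => by positivity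
  have hwle : ∀ m, w m ≤ (L / q)⁻¹ * ∑ t, ‖ft b ψ (At b A t) m‖ ^ 2 := by
    intro m
    rw [hw, Finset.mul_sum]
    refine Finset.sum_le_sum fun t _ => ?_
    exact mul_le_mul_of_nonneg_right (inv_anti₀ (by positivity) (hcL t)) (hwnn t m)
  have hlam1 : h ^ 2 * L ≤ 1 := by
    have e1 : (#G : ℝ) * h ^ 2 ≤ q ^ 3 := by
      have hp := parseval b ψ hψ f
      rw [h1, mul_one, hv] at hp
      rw [← hp, ← nsmul_eq_mul, ← Finset.sum_const]
      refine (Finset.sum_le_sum (f := fun _ => h ^ 2) (g := fun m => ‖ft b ψ f m‖ ^ 2)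
        fun m hm => pow_le_pow_left₀ hh.le (hG m hm) 2).trans
        (Finset.sum_le_sum_of_subset_of_nonneg (Finset.subset_univ _)
          fun m _ _ => by positivity)
    rw [hNL] at e1
    have e2 : q ^ 3 * (h ^ 2 * L) ≤ q ^ 3 * 1 := by linarith
    exact le_of_mul_le_mul_left e2 (by positivity)
  have hPsi : ∀ m, Psi b G m ≤ 9 * q ^ 5 / h ^ 4 := fun m =>
    Psi_bound b hψ h2 q hq (by linarith) hv j f S hf (fun x hx => by simpa [hS, lev] using hx) h1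
      hcard (phiS κ) phiS_zero (fun t => H.phiS_le b t)
      (fun x hx y hy hxy => by rw [hq]; exact H.phiS_eq b x y hx hy hxy) G h hh hG m
  have hws : ∀ m, w m ≤ L⁻¹ * (1 + 9 * q ^ 3 / h ^ 4) := by
    intro m
    have e1 := wu_le b hψ h2 G m
    rw [← hA, ← hq] at e1
    have e2 : q⁻¹ + (Fintype.card V : ℝ)⁻¹ * Psi b G m ≤
        q⁻¹ + (q ^ 3)⁻¹ * (9 * q ^ 5 / h ^ 4) := by
      rw [hv]
      have : 0 ≤ (q ^ 3)⁻¹ := by positivity
      linarith [mul_le_mul_of_nonneg_left (hPsi m) this]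
    refine (hwle m).trans ((mul_le_mul_of_nonneg_left (e1.trans e2) (by positivity)).trans
      (le_of_eq ?_))
    field_simp
  have hWb : ∀ e : V, e ≠ 0 → b.Q e = 0 → ∀ c', pmass b w e c' ≤ q + 2 * q / (h ^ 2 * L) := by
    intro e he hQ c'
    have e1 := wu_plane b hψ h2 G e he hQ c'
    rw [← hA, ← hq] at e1
    have e2 := H.plane_few b f hf h1 e he hQ c' G h hh hG
    rw [← hq] at e2
    have e3 : (#{m ∈ G | b.B m e = c'} : ℝ) ≤ q ^ 2 / h ^ 2 := by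
      rw [le_div_iff₀ (by positivity)]; exact e2
    unfold pmass
    rw [← hq]
    have e4 : ∑ m with b.B m e = c', w m ≤ (L / q)⁻¹ * ((#G : ℝ) / q + 2 * (q ^ 2 / h ^ 2)) := by
      calc ∑ m with b.B m e = c', w m ≤ ∑ m with b.B m e = c',
            (L / q)⁻¹ * ∑ t, ‖ft b ψ (At b A t) m‖ ^ 2 := Finset.sum_le_sum fun m _ => hwle m
        _ = (L / q)⁻¹ * ∑ m with b.B m e = c', ∑ t, ‖ft b ψ (At b A t) m‖ ^ 2 := by
            rw [Finset.mul_sum]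
        _ ≤ _ := mul_le_mul_of_nonneg_left (by linarith) (by positivity)
    have e5 := mul_le_mul_of_nonneg_left e4
      (show 0 ≤ q / (Fintype.card V : ℝ) by positivity)
    refine e5.trans (le_of_eq ?_)
    rw [hv, hNL]
    field_simp
  have hWnn : 0 ≤ q + 2 * q / (h ^ 2 * L) := by positivity
  have hst2 := stage2 b hψ h2 (fun t => At b A t)
    (fun t x hx => if_neg hx) c hc0
    (fun t => by
      have : 0 < L / q := by positivity
      rw [hcdef, hadef]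
      linarith) w hw (L⁻¹ * (1 + 9 * q ^ 3 / h ^ 4))
    (q + 2 * q / (h ^ 2 * L)) hws hWnn hWb
  obtain ⟨hG0, Y, hY0, hYL, hY3⟩ := hst2
  rw [← hLL] at hYL hY3
  rw [← hq] at hG0 hYL hY3
  have hv2 : (Fintype.card V : ℝ) / q ^ 2 = q := by rw [hv]; field_simp
  have hv1 : (Fintype.card V : ℝ) / q = q ^ 2 := by rw [hv]; field_simp
  rw [hv2, hv1] at hY3
  have hII := num_II q h (h ^ 2 * L) L Y _ LL _ _ hq3 hh hLpos rfl hlam1 hh4 hG0 hY0 hLL0 hYL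
    rfl rfl hY3
  exact num_I q h (h ^ 2 * L) L (Real.sqrt L) (Real.sqrt LL) LL hq3 hh hLpos rfl hlam1 hh4 hh7
    (Real.sqrt_nonneg _) (Real.sq_sqrt hLpos.le) (Real.sqrt_nonneg _) (Real.sq_sqrt hLL0) hI hII

end Pool.Agent.H375R4
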