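import Pool.Agent.H375R4.Stage1

set_option autoImplicit false
set_option linter.unusedSectionVars false

/-! # Counting solutions of linear equations by characters -/

open Finset ComplexConjugate

namespace Pool.Agent.H375R4

variable {F : Type*} [Field F] [Fintype F] [DecidableEq F]
variable {V : Type*} [AddCommGroup V] [Module F V] [Fintype V] [DecidableEq V]
variable (b : SForm F V) {ψ : AddChar F ℂ}

lemma indicator_psi (hψ : ψ ≠ 1) (x : F) :
    (if x = 0 then (1 : ℂ) else 0) = (Fintype.card F : ℂ)⁻¹ * ∑ s : F, ψ (s * x) := by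
  have hq : (Fintype.card F : ℂ) ≠ 0 := by exact_mod_cast Fintype.card_ne_zero
  rw [sum_F hψ x]; split_ifs
  · field_simp
  · simp

lemma card_one (hψ : ψ ≠ 1) (x : V) (hx : x ≠ 0) (α : F) :
    (#{ξ : V | b.B ξ x = α} : ℝ) = (Fintype.card V : ℝ) / Fintype.card F := by
  have hq : (Fintype.card F : ℂ) ≠ 0 := by exact_mod_cast Fintype.card_ne_zero
  have h : (#{ξ : V | b.B ξ x = α} : ℂ) = (Fintype.card V : ℂ) / Fintype.card F := by
    rw [← Finset.sum_boole]
    have e : ∀ ξ : V, (if b.B ξ x = α then (1 : ℂ) else 0) =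
        (Fintype.card F : ℂ)⁻¹ * ∑ s : F, ψ (-(s * α)) * ψ (b.B ξ (s • x)) := by
      intro ξ
      have := indicator_psi hψ (b.B ξ x - α)
      simp_rw [sub_eq_zero] at this
      rw [this]
      congr 1
      refine Finset.sum_congr rfl fun s _ => ?_
      rw [← AddChar.map_add_eq_mul, b.smul_right]
      congr 1; ring
    simp_rw [e, ← Finset.mul_sum]
    rw [Finset.sum_comm]
    simp_rw [← Finset.mul_sum, sum_V b hψ]
    rw [Finset.sum_eq_single (0 : F)]
    · simp; field_simp
    · intro s _ hs
      rw [if_neg (smul_ne_zero hs hx)]; simp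
    · simp
  apply Complex.ofReal_injective
  push_cast
  exact h

lemma card_two (hψ : ψ ≠ 1) (x y : V) (hxy : ¬ Dep F x y) (α β : F) :
    (#{ξ : V | b.B ξ x = α ∧ b.B ξ y = β} : ℝ) =
      (Fintype.card V : ℝ) / (Fintype.card F) ^ 2 := by
  have hq : (Fintype.card F : ℂ) ≠ 0 := by exact_mod_cast Fintype.card_ne_zero
  have h : (#{ξ : V | b.B ξ x = α ∧ b.B ξ y = β} : ℂ) =
      (Fintype.card V : ℂ) / (Fintype.card F) ^ 2 := by
    rw [← Finset.sum_boole]
    have e : ∀ ξ : V, (if b.B ξ x = α ∧ b.B ξ y = β then (1 : ℂ) else 0) =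
        (Fintype.card F : ℂ)⁻¹ * (Fintype.card F : ℂ)⁻¹ * ∑ s : F, ∑ t : F,
          ψ (-(s * α) - t * β) * ψ (b.B ξ (s • x + t • y)) := by
      intro ξ
      have h1 := indicator_psi hψ (b.B ξ x - α)
      have h2 := indicator_psi hψ (b.B ξ y - β)
      simp_rw [sub_eq_zero] at h1 h2
      have h3 : (if b.B ξ x = α ∧ b.B ξ y = β then (1 : ℂ) else 0) =
          (if b.B ξ x = α then (1 : ℂ) else 0) * (if b.B ξ y = β then (1 : ℂ) else 0) := by
        by_cases h : b.B ξ x = α <;> by_cases h' : b.B ξ y = β <;> simp [h, h']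
      rw [h3, h1, h2, mul_mul_mul_comm, Finset.sum_mul_sum]
      congr 1
      refine Finset.sum_congr rfl fun s _ => Finset.sum_congr rfl fun t _ => ?_
      rw [← AddChar.map_add_eq_mul, ← AddChar.map_add_eq_mul, b.add_right, b.smul_right,
        b.smul_right]
      congr 1; ring
    simp_rw [e, ← Finset.mul_sum]
    rw [sum_rot3]
    simp_rw [← Finset.mul_sum, sum_V b hψ]
    rw [Finset.sum_eq_single (0 : F), Finset.sum_eq_single (0 : F)]
    · simp; field_simp
    · intro t _ ht
      have : (0 : F) • x + t • y ≠ 0 := by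
        rw [zero_smul, zero_add]
        refine smul_ne_zero ht fun h => hxy (Or.inr ⟨0, by simp [h]⟩)
      rw [if_neg this]; simp
    · simp
    · intro s _ hs
      refine Finset.sum_eq_zero fun t _ => ?_
      have : s • x + t • y ≠ 0 := by
        intro h
        by_cases ht : t = 0
        · subst ht
          rw [zero_smul, add_zero] at h
          rcases smul_eq_zero.mp h with h | h
          · exact hs h
          · exact hxy (Or.inl h)
        · apply hxy
          refine Or.inr ⟨-(t⁻¹ * s), ?_⟩
          have : t • y = -(s • x) := by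
            rw [eq_neg_iff_add_eq_zero, add_comm]; exact h
          calc y = t⁻¹ • (t • y) := by rw [smul_smul, inv_mul_cancel₀ ht, one_smul]
            _ = _ := by rw [this, smul_neg, smul_smul, neg_smul]
      rw [if_neg this]; simp
    · simp
  apply Complex.ofReal_injective
  push_cast
  exact h

end Pool.Agent.H375R4
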