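import Pool.Agent.H375R4.Lr

set_option autoImplicit false
set_option linter.unusedSectionVars false

/-! # Duality and instantiation -/

open Finset ComplexConjugate

namespace Pool.Agent.H375R4

variable {F : Type*} [Field F] [Fintype F] [DecidableEq F]
variable {V : Type*} [AddCommGroup V] [Module F V] [Fintype V] [DecidableEq V]
variable (b : SForm F V) {ψ : AddChar F ℂ}
variable {κ : ℝ} {j : F}

/-- extension estimate -/
theorem Adm.ext (H : Adm b ψ κ j) (u : V → ℂ) (hu : ∀ x, x ∉ lev b j → u x = 0)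
    (q : ℝ) (hq : q = Fintype.card F) :
    ∑ m, ‖ft b ψ u m‖ ^ (15 / 4 : ℝ) ≤
      4003 * q ^ (15 / 4 : ℝ) * (∑ x, ‖u x‖ ^ 2) ^ (15 / 8 : ℝ) := by
  obtain ⟨E, hE⟩ : ∃ E : ℝ, E = ∑ x, ‖u x‖ ^ 2 := ⟨_, rfl⟩
  have hE0 : 0 ≤ E := by rw [hE]; exact Finset.sum_nonneg fun x _ => by positivity
  rw [← hE]
  rcases hE0.eq_or_lt with h0 | hpos
  · have hu0 : ∀ x, u x = 0 := by
      intro x
      rw [← h0] at hE
      have := (Finset.sum_eq_zero_iff_of_nonneg (fun x _ => by positivity)).mp hE.symm x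
        (Finset.mem_univ x)
      simpa using this
    have : ∀ m, ft b ψ u m = 0 := fun m => by unfold ft; simp [hu0]
    simp_rw [this, norm_zero]
    rw [Real.zero_rpow (by norm_num)]
    simp only [Finset.sum_const_zero]
    rw [← h0, Real.zero_rpow (by norm_num), mul_zero]
  · set s : ℝ := Real.sqrt E with hs
    have hs0 : 0 < s := Real.sqrt_pos.mpr hpos
    have hs2 : s ^ 2 = E := Real.sq_sqrt hE0
    set f : V → ℂ := fun x => (s : ℂ)⁻¹ * u x with hf
    have hfn : ∀ x, ‖f x‖ = s⁻¹ * ‖u x‖ := by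
      intro x; rw [hf]; simp [abs_of_pos hs0]
    have h1 : ∑ x, ‖f x‖ ^ 2 = 1 := by
      simp_rw [hfn, mul_pow]
      rw [← Finset.mul_sum, ← hE, ← hs2]
      field_simp
    have hfS : ∀ x, x ∉ lev b j → f x = 0 := fun x hx => by
      rw [hf]; simp [hu x hx]
    have h2 := H.ext_one b f hfS h1 q hq
    have h3 : ∀ m, ‖ft b ψ u m‖ = s * ‖ft b ψ f m‖ := by
      intro m
      have : ft b ψ f m = (s : ℂ)⁻¹ * ft b ψ u m := by
        unfold ft
        rw [Finset.mul_sum]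
        refine Finset.sum_congr rfl fun x _ => ?_
        rw [hf]; ring
      rw [this, norm_mul, norm_inv, Complex.norm_real, Real.norm_of_nonneg hs0.le]
      field_simp
    have h4 : ∀ m, ‖ft b ψ u m‖ ^ (15 / 4 : ℝ) =
        s ^ (15 / 4 : ℝ) * ‖ft b ψ f m‖ ^ (15 / 4 : ℝ) := by
      intro m
      rw [h3, Real.mul_rpow hs0.le (norm_nonneg _)]
    simp_rw [h4]
    rw [← Finset.mul_sum]
    have h5 : E ^ (15 / 8 : ℝ) = s ^ (15 / 4 : ℝ) := by
      rw [← hs2, ← Real.rpow_natCast s 2, ← Real.rpow_mul hs0.le]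
      norm_num
    rw [h5]
    calc s ^ (15 / 4 : ℝ) * ∑ m, ‖ft b ψ f m‖ ^ (15 / 4 : ℝ)
        ≤ s ^ (15 / 4 : ℝ) * (4003 * q ^ (15 / 4 : ℝ)) :=
          mul_le_mul_of_nonneg_left h2 (by positivity)
      _ = _ := by ring

/-- restriction estimate -/
theorem Adm.restr (H : Adm b ψ κ j) (g : V → ℂ) :
    Real.sqrt ((1 / (#(lev b j) : ℝ)) * ∑ ξ ∈ lev b j, ‖ft b ψ g ξ‖ ^ 2) ≤
      2 * (4003 : ℝ) ^ (4 / 15 : ℝ) * (∑ x, ‖g x‖ ^ (15 / 11 : ℝ)) ^ (11 / 15 : ℝ) := by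
  have hq3 := H.q3
  have hcard := H.card_lev b
  obtain ⟨q, hq⟩ : ∃ q : ℝ, q = (Fintype.card F : ℝ) := ⟨_, rfl⟩
  rw [← hq] at hq3 hcard
  have hq0 : 0 < q := by linarith
  obtain ⟨E, hE⟩ : ∃ E : ℝ, E = ∑ ξ ∈ lev b j, ‖ft b ψ g ξ‖ ^ 2 := ⟨_, rfl⟩
  have hE0 : 0 ≤ E := by rw [hE]; exact Finset.sum_nonneg fun x _ => by positivity
  rw [← hE, hcard]
  obtain ⟨T, hT⟩ : ∃ T : ℝ, T = (∑ x, ‖g x‖ ^ (15 / 11 : ℝ)) ^ (11 / 15 : ℝ) := ⟨_, rfl⟩
  have hT0 : 0 ≤ T := by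
    rw [hT]; exact Real.rpow_nonneg (Finset.sum_nonneg fun x _ => by positivity) _
  rw [← hT]
  set u : V → ℂ := fun ξ => if ξ ∈ lev b j then conj (ft b ψ g ξ) else 0 with hu
  have hun : ∑ x, ‖u x‖ ^ 2 = E := by
    rw [hE, ← Finset.sum_subset (Finset.subset_univ (lev b j))]
    · refine Finset.sum_congr rfl fun x hx => ?_
      rw [hu]; simp [hx]
    · intro x _ hx
      rw [hu]; simp [hx]
  have hext := H.ext b u (fun x hx => by rw [hu]; simp [hx]) q hq
  rw [hun] at hext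
  have hdual : (E : ℂ) = ∑ x, g x * ft b ψ u x := by
    have e1 : (E : ℂ) = ∑ ξ, u ξ * ft b ψ g ξ := by
      rw [hE, ← Finset.sum_subset (Finset.subset_univ (lev b j))]
      · push_cast
        refine Finset.sum_congr rfl fun x hx => ?_
        rw [hu]; simp only [hx, if_true]
        rw [← Complex.conj_mul']
      · intro x _ hx
        rw [hu]; simp [hx]
    rw [e1]
    unfold ft
    simp_rw [Finset.mul_sum]
    rw [Finset.sum_comm]
    refine Finset.sum_congr rfl fun x _ => Finset.sum_congr rfl fun ξ _ => ?_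
    rw [b.symm ξ x]; ring
  have hE1 : E ≤ ∑ x, ‖g x‖ * ‖ft b ψ u x‖ := by
    have : E = ‖(E : ℂ)‖ := by rw [Complex.norm_real, Real.norm_of_nonneg hE0]
    rw [this, hdual]
    refine (norm_sum_le _ _).trans (le_of_eq ?_)
    exact Finset.sum_congr rfl fun x _ => norm_mul _ _
  have hhol := Real.inner_le_Lp_mul_Lq univ (fun x : V => ‖g x‖) (fun x => ‖ft b ψ u x‖)
    (show (15 / 11 : ℝ).HolderConjugate (15 / 4 : ℝ) by
      rw [Real.holderConjugate_iff]; norm_num)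
  simp only [abs_norm] at hhol
  rw [show (1 / (15 / 11 : ℝ)) = 11 / 15 by norm_num, show (1 / (15 / 4 : ℝ)) = 4 / 15 by norm_num,
    ← hT] at hhol
  have h5 : (∑ x, ‖ft b ψ u x‖ ^ (15 / 4 : ℝ)) ^ (4 / 15 : ℝ) ≤
      (4003 : ℝ) ^ (4 / 15 : ℝ) * (q * Real.sqrt E) := by
    have e1 := Real.rpow_le_rpow (Finset.sum_nonneg fun x _ => by positivity) hext
      (show (0 : ℝ) ≤ 4 / 15 by norm_num)
    refine e1.trans (le_of_eq ?_)
    rw [Real.mul_rpow (by positivity) (by positivity), Real.mul_rpow (by norm_num) (by positivity),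
      ← Real.rpow_mul hq0.le, ← Real.rpow_mul hE0, Real.sqrt_eq_rpow]
    norm_num
    ring
  have h6 : E ≤ T * ((4003 : ℝ) ^ (4 / 15 : ℝ) * (q * Real.sqrt E)) :=
    hE1.trans (hhol.trans (mul_le_mul_of_nonneg_left h5 hT0))
  have h7 : Real.sqrt E ≤ T * ((4003 : ℝ) ^ (4 / 15 : ℝ) * q) := by
    rcases hE0.eq_or_lt with h0 | hpos
    · rw [← h0, Real.sqrt_zero]; positivity
    · have hs := Real.sqrt_pos.mpr hpos
      have hss : Real.sqrt E * Real.sqrt E = E := Real.mul_self_sqrt hE0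
      have : Real.sqrt E * Real.sqrt E ≤ Real.sqrt E * (T * ((4003 : ℝ) ^ (4 / 15 : ℝ) * q)) := by
        rw [hss]; refine h6.trans (le_of_eq ?_); ring
      exact le_of_mul_le_mul_left this hs
  have h8 : 0 < q * (q - 1) := by nlinarith
  have h9 : q ^ 2 ≤ 4 * (q * (q - 1)) := by nlinarith
  rw [Real.sqrt_le_left (by positivity)]
  have h10 : E ≤ (T * ((4003 : ℝ) ^ (4 / 15 : ℝ) * q)) ^ 2 := by
    have := pow_le_pow_left₀ (Real.sqrt_nonneg E) h7 2
    rwa [Real.sq_sqrt hE0] at this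
  rw [one_div, inv_mul_le_iff₀ h8]
  calc E ≤ (T * ((4003 : ℝ) ^ (4 / 15 : ℝ) * q)) ^ 2 := h10
    _ = q ^ 2 * (T * (4003 : ℝ) ^ (4 / 15 : ℝ)) ^ 2 := by ring
    _ ≤ 4 * (q * (q - 1)) * (T * (4003 : ℝ) ^ (4 / 15 : ℝ)) ^ 2 :=
        mul_le_mul_of_nonneg_right h9 (by positivity)
    _ = _ := by ring

/-- monotonicity of the `ℓ^p` norms -/
lemma lp_mono {X : Type*} [Fintype X] (g : X → ℂ) (p s : ℝ) (hp : 1 ≤ p) (hps : p ≤ s) :
    (∑ x, ‖g x‖ ^ s) ^ (1 / s) ≤ (∑ x, ‖g x‖ ^ p) ^ (1 / p) := by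
  have hp0 : 0 < p := by linarith
  have hs0 : 0 < s := by linarith
  obtain ⟨P, hP⟩ : ∃ P : ℝ, P = ∑ x, ‖g x‖ ^ p := ⟨_, rfl⟩
  have hP0 : 0 ≤ P := by rw [hP]; exact Finset.sum_nonneg fun x _ => by positivity
  rw [← hP]
  obtain ⟨T, hT⟩ : ∃ T : ℝ, T = P ^ (1 / p) := ⟨_, rfl⟩
  have hT0 : 0 ≤ T := by rw [hT]; positivity
  have hTp : T ^ p = P := by
    rw [hT, ← Real.rpow_mul hP0, one_div_mul_cancel hp0.ne', Real.rpow_one]
  have hle : ∀ x, ‖g x‖ ≤ T := by
    intro x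
    have h1 : ‖g x‖ ^ p ≤ P := by
      rw [hP]
      exact Finset.single_le_sum (f := fun x => ‖g x‖ ^ p) (fun x _ => by positivity)
        (Finset.mem_univ x)
    have h2 := Real.rpow_le_rpow (by positivity) h1 (show 0 ≤ 1 / p by positivity)
    rwa [← Real.rpow_mul (norm_nonneg _), mul_one_div_cancel hp0.ne', Real.rpow_one, ← hT] at h2
  have h3 : ∑ x, ‖g x‖ ^ s ≤ T ^ s := by
    have e1 : ∀ x, ‖g x‖ ^ s ≤ T ^ (s - p) * ‖g x‖ ^ p := by
      intro x
      have : ‖g x‖ ^ s = ‖g x‖ ^ (s - p) * ‖g x‖ ^ p := by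
        rw [← Real.rpow_add_of_nonneg (norm_nonneg _) (by linarith) hp0.le]
        congr 1; ring
      rw [this]
      exact mul_le_mul_of_nonneg_right (Real.rpow_le_rpow (norm_nonneg _) (hle x) (by linarith))
        (by positivity)
    calc ∑ x, ‖g x‖ ^ s ≤ ∑ x, T ^ (s - p) * ‖g x‖ ^ p := Finset.sum_le_sum fun x _ => e1 x
      _ = T ^ (s - p) * T ^ p := by rw [← Finset.mul_sum, ← hP, hTp]
      _ = T ^ s := by
        rw [← Real.rpow_add_of_nonneg hT0 (by linarith) hp0.le]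
        congr 1; ring
  rw [← hT]
  have h4 := Real.rpow_le_rpow (Finset.sum_nonneg fun x _ => by positivity) h3
    (show 0 ≤ 1 / s by positivity)
  rwa [← Real.rpow_mul hT0, mul_one_div_cancel hs0.ne', Real.rpow_one] at h4

/-- the dot product on `F³` -/
def dot (F : Type*) [Field F] (d : ℕ) : SForm F (Fin d → F) where
  B x y := ∑ i, x i * y i
  symm x y := Finset.sum_congr rfl fun i _ => mul_comm _ _
  add_left x y z := by
    rw [← Finset.sum_add_distrib]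
    exact Finset.sum_congr rfl fun i _ => by simp [add_mul]
  smul_left c x y := by
    rw [Finset.mul_sum]
    exact Finset.sum_congr rfl fun i _ => by simp [mul_assoc]
  nd x h := by
    funext i
    have := h (Pi.single i 1)
    simpa [Pi.single_apply] using this

lemma psi_sum {ι : Type*} (s : Finset ι) (f : ι → F) :
    ψ (∑ i ∈ s, f i) = ∏ i ∈ s, ψ (f i) := by
  classical
  induction s using Finset.induction_on with
  | empty => simp
  | insert a s ha ih => rw [Finset.sum_insert ha, Finset.prod_insert ha, AddChar.map_add_eq_mul, ih]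

lemma gam_dot (d : ℕ) (r : F) : gam (dot F d) ψ r = g1 ψ r ^ d := by
  rw [g1_def, Fintype.sum_pow]
  unfold gam
  refine Finset.sum_congr rfl fun x _ => ?_
  have h : r * (dot F d).Q x = ∑ i, r * (x i * x i) := by
    rw [← Finset.mul_sum]; rfl
  rw [h, psi_sum]

/-- the standard dot product in dimension three is admissible -/
lemma adm_dot (hψ : ψ ≠ 1) (h2 : ringChar F ≠ 2) (j : F) (hj : j ≠ 0)
    (hadm : quadraticChar F (-j) = -1) : Adm (dot F 3) ψ 1 j where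
  hψ := hψ
  h2 := h2
  hv := by simp
  hκ := by norm_num
  hγ r hr := by
    rw [gam_dot]
    have h1 := g1_neg_sq (F := F) hψ h2 hr
    have h3 : g1 ψ (-r) = ((quadraticChar F (-1) : ℤ) : ℂ) * g1 ψ r := by
      rw [← g1_mul hψ h2 (neg_ne_zero.mpr one_ne_zero) hr]; congr 1; ring
    rw [h3]
    push_cast
    linear_combination (g1 ψ r) * h1
  hj := hj
  hadm := by rw [hadm]; norm_num

end Pool.Agent.H375R4
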