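import Pool.Agent.H375R4.Sup

set_option autoImplicit false
set_option linter.unusedSectionVars false

/-! # One-dimensional quadratic Gauss sums -/

open Finset ComplexConjugate

namespace Pool.Agent.H375R4

variable {F : Type*} [Field F] [Fintype F] [DecidableEq F]
variable {ψ : AddChar F ℂ}

/-- one-dimensional quadratic Gauss sum -/
noncomputable def g1 (ψ : AddChar F ℂ) (r : F) : ℂ := gam (formF F) ψ r

lemma g1_def (r : F) : g1 ψ r = ∑ x : F, ψ (r * (x * x)) := rfl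

lemma conj_g1 (r : F) : conj (g1 ψ r) = g1 ψ (-r) := by
  rw [g1_def, g1_def, map_sum]
  refine Finset.sum_congr rfl fun x _ => ?_
  rw [conj_psi, neg_mul]

lemma g1_mul_neg (hψ : ψ ≠ 1) (h2 : (2 : F) ≠ 0) {r : F} (hr : r ≠ 0) :
    g1 ψ r * g1 ψ (-r) = (Fintype.card F : ℂ) := by
  rw [← conj_g1]; exact gam_mul_conj (formF F) ψ h2 hψ hr

lemma g1_sqrts (h2 : ringChar F ≠ 2) (r : F) :
    g1 ψ r = ∑ y : F, ((quadraticChar F y + 1 : ℤ) : ℂ) * ψ (r * y) := by
  rw [g1_def]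
  have e : ∀ y : F, ((quadraticChar F y + 1 : ℤ) : ℂ) * ψ (r * y) =
      ∑ x : F, if x * x = y then ψ (r * y) else 0 := by
    intro y
    rw [← quadraticChar_card_sqrts h2 y, ← Finset.sum_filter, Finset.sum_const, nsmul_eq_mul]
    congr 1
    push_cast
    congr 1
    apply congrArg
    ext x
    simp [sq]
  simp_rw [e]
  rw [Finset.sum_comm]
  refine Finset.sum_congr rfl fun x _ => ?_
  simp

lemma g1_eq (hψ : ψ ≠ 1) (h2 : ringChar F ≠ 2) {r : F} (hr : r ≠ 0) :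
    g1 ψ r = ∑ y : F, ((quadraticChar F y : ℤ) : ℂ) * ψ (r * y) := by
  rw [g1_sqrts h2]
  push_cast
  simp_rw [add_mul, one_mul]
  rw [Finset.sum_add_distrib, sum_F' hψ, if_neg hr, add_zero]

lemma g1_mul (hψ : ψ ≠ 1) (h2 : ringChar F ≠ 2) {a r : F} (ha : a ≠ 0) (hr : r ≠ 0) :
    g1 ψ (a * r) = ((quadraticChar F a : ℤ) : ℂ) * g1 ψ r := by
  rw [g1_eq hψ h2 (mul_ne_zero ha hr), g1_eq hψ h2 hr, ← Equiv.sum_comp (Equiv.mulLeft₀ a ha)
    (fun y => ((quadraticChar F y : ℤ) : ℂ) * ψ (r * y)), Finset.mul_sum]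
  refine Finset.sum_congr rfl fun y _ => ?_
  rw [show (Equiv.mulLeft₀ a ha) y = a * y from rfl]
  have hm : quadraticChar F (a * y) = quadraticChar F a * quadraticChar F y := map_mul _ a y
  rw [hm]
  have h1 : (quadraticChar F a) * (quadraticChar F a) = 1 := by
    rw [← sq]; exact quadraticChar_sq_one ha
  have h1' : (((quadraticChar F a : ℤ) : ℂ)) * ((quadraticChar F a : ℤ) : ℂ) = 1 := by
    exact_mod_cast h1
  push_cast
  rw [show r * (a * y) = a * r * y by ring]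
  linear_combination (-((quadraticChar F y : ℤ) : ℂ) * ψ (a * r * y)) * h1'

lemma g1_neg_sq (hψ : ψ ≠ 1) (h2 : ringChar F ≠ 2) {r : F} (hr : r ≠ 0) :
    g1 ψ r * g1 ψ r = ((quadraticChar F (-1) : ℤ) : ℂ) * (Fintype.card F : ℂ) := by
  have h2' : (2 : F) ≠ 0 := Ring.two_ne_zero h2
  rw [← g1_mul_neg hψ h2' hr, show -r = (-1) * r by ring,
    g1_mul hψ h2 (neg_ne_zero.mpr one_ne_zero) hr]
  have h1 : (quadraticChar F (-1)) * (quadraticChar F (-1)) = 1 := by
    rw [← sq]; exact quadraticChar_sq_one (neg_ne_zero.mpr one_ne_zero)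
  have h1' : (((quadraticChar F (-1) : ℤ) : ℂ)) * ((quadraticChar F (-1) : ℤ) : ℂ) = 1 := by
    exact_mod_cast h1
  linear_combination (-(g1 ψ r * g1 ψ r)) * h1'

/-- sums of Gauss sums against characters -/
lemma sum_g1 (hψ : ψ ≠ 1) (h2 : ringChar F ≠ 2) (c : F) :
    ∑ r : F, g1 ψ r * ψ (r * c) =
      (Fintype.card F : ℂ) * ((quadraticChar F (-c) + 1 : ℤ) : ℂ) := by
  simp_rw [g1_def, Finset.sum_mul, ← AddChar.map_add_eq_mul, ← mul_add]
  rw [Finset.sum_comm]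
  simp_rw [sum_F hψ]
  rw [← quadraticChar_card_sqrts h2 (-c), ← Finset.sum_filter, Finset.sum_const, nsmul_eq_mul,
    mul_comm]
  congr 1
  push_cast
  congr 1
  apply congrArg
  ext x
  simp [sq, eq_neg_iff_add_eq_zero]

end Pool.Agent.H375R4
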