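import Pool.Agent.H375R4.Count

set_option autoImplicit false
set_option linter.unusedSectionVars false

/-! # Second trace inequality -/

open Finset ComplexConjugate

namespace Pool.Agent.H375R4

variable {F : Type*} [Field F] [Fintype F] [DecidableEq F]
variable {V : Type*} [AddCommGroup V] [Module F V] [Fintype V] [DecidableEq V]
variable (b : SForm F V) {ψ : AddChar F ℂ}

/-- the form `x y` on the field itself -/
def formF (F : Type*) [Field F] : SForm F F where
  B x y := x * y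
  symm x y := mul_comm x y
  add_left x y z := add_mul x y z
  smul_left c x y := by simp [mul_assoc]
  nd x h := by simpa using h 1

/-- mass of the plane `B m e = c`, normalised -/
noncomputable def pmass (w : V → ℝ) (e : V) (c : F) : ℝ :=
  (Fintype.card F : ℝ) / Fintype.card V * ∑ m with b.B m e = c, w m

lemma line_ft (hψ : ψ ≠ 1) (w : V → ℝ) (e : V) (he : e ≠ 0) (c : F) :
    ft (formF F) ψ (fun s => ker0 b ψ w (s • e)) c =
      ((pmass b w e c - (Fintype.card V : ℝ)⁻¹ * ∑ m, w m : ℝ) : ℂ) := by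
  have hv : (Fintype.card V : ℂ) ≠ 0 := by exact_mod_cast Fintype.card_ne_zero
  have h0 : ∀ s : F, ker0 b ψ w (s • e) * ψ (-(c * s)) =
      ker b ψ w (s • e) * ψ (-(c * s)) - (if s = 0 then ker b ψ w 0 else 0) := by
    intro s
    by_cases hs : s = 0
    · simp [ker0, hs]
    · have : s • e ≠ 0 := smul_ne_zero hs he
      simp [ker0, hs, this]
  have h1 : ∑ s : F, ker b ψ w (s • e) * ψ (-(c * s)) = (pmass b w e c : ℂ) := by
    have e1 : ∀ s : F, ker b ψ w (s • e) * ψ (-(c * s)) =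
        (Fintype.card V : ℂ)⁻¹ * ∑ m, (w m : ℂ) * ψ (s * (b.B m e - c)) := by
      intro s
      unfold ker
      rw [mul_assoc, Finset.sum_mul]
      congr 1
      refine Finset.sum_congr rfl fun m _ => ?_
      rw [mul_assoc, ← AddChar.map_add_eq_mul, b.smul_right]
      congr 2; ring
    simp_rw [e1, ← Finset.mul_sum]
    rw [Finset.sum_comm]
    simp_rw [← Finset.mul_sum, sum_F hψ, sub_eq_zero]
    unfold pmass
    push_cast
    rw [Finset.sum_filter, Finset.mul_sum, Finset.mul_sum]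
    refine Finset.sum_congr rfl fun m _ => ?_
    by_cases h : b.B m e = c
    · simp only [h, if_true]; ring
    · simp [h]
  unfold ft
  change ∑ s : F, ker0 b ψ w (s • e) * ψ (-(c * s)) = _
  simp_rw [h0]
  rw [Finset.sum_sub_distrib, h1, Finset.sum_ite_eq', if_pos (Finset.mem_univ _), ker_zero]
  push_cast
  ring

lemma line_triple (hψ : ψ ≠ 1) (w : V → ℝ) (hw : ∀ m, 0 ≤ w m) (e : V) (he : e ≠ 0) (W : ℝ)
    (hW : ∀ c, pmass b w e c ≤ W) :
    (∑ s : F, ∑ t : F, ker0 b ψ w (s • e) * ker0 b ψ w (t • e) *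
      ker0 b ψ w ((-s - t) • e)).re ≤ W * ∑ s : F, ‖ker0 b ψ w (s • e)‖ ^ 2 := by
  have hq : (0 : ℝ) < Fintype.card F := by exact_mod_cast Fintype.card_pos
  set g : F → ℂ := fun s => ker0 b ψ w (s • e) with hg
  set r : F → ℝ := fun c => pmass b w e c - (Fintype.card V : ℝ)⁻¹ * ∑ m, w m with hr
  have hft : ∀ c, ft (formF F) ψ g c = (r c : ℂ) := fun c => line_ft b hψ w e he c
  have h1 := triple_sum (formF F) ψ hψ g g g
  simp_rw [hft] at h1
  have h2 : (∑ s : F, ∑ t : F, g s * g t * g (-s - t)).re =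
      (Fintype.card F : ℝ)⁻¹ * ∑ c, r c ^ 3 := by
    rw [h1]
    have : (Fintype.card F : ℂ)⁻¹ * ∑ m, (r m : ℂ) * (r m : ℂ) * (r m : ℂ) =
        (((Fintype.card F : ℝ)⁻¹ * ∑ c, r c ^ 3 : ℝ) : ℂ) := by
      push_cast
      congr 1
      exact Finset.sum_congr rfl fun c _ => by ring
    rw [this, Complex.ofReal_re]
  have h3 := parseval (formF F) ψ hψ g
  simp_rw [hft, Complex.norm_real, Real.norm_eq_abs, sq_abs] at h3
  rw [h2]
  have h4 : ∀ c, r c ^ 3 ≤ W * r c ^ 2 := by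
    intro c
    have hrW : r c ≤ W := by
      have : 0 ≤ (Fintype.card V : ℝ)⁻¹ * ∑ m, w m :=
        mul_nonneg (by positivity) (Finset.sum_nonneg fun m _ => hw m)
      simp only [hr]
      linarith [hW c]
    nlinarith [sq_nonneg (r c), mul_nonneg (sub_nonneg.mpr hrW) (sq_nonneg (r c))]
  calc (Fintype.card F : ℝ)⁻¹ * ∑ c, r c ^ 3
      ≤ (Fintype.card F : ℝ)⁻¹ * ∑ c, W * r c ^ 2 :=
        mul_le_mul_of_nonneg_left (Finset.sum_le_sum fun c _ => h4 c) (by positivity)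
    _ = W * ∑ s : F, ‖g s‖ ^ 2 := by
        rw [← Finset.mul_sum, h3]; field_simp

omit [DecidableEq V] in
lemma card_ne_zero' : (#(univ.filter fun s : F => ¬ s = 0) : ℝ) = (Fintype.card F : ℝ) - 1 := by
  have h1 : (univ.filter fun s : F => ¬ s = 0) = univ.erase 0 := by
    ext s; simp
  have h2 : 1 ≤ Fintype.card F := Fintype.card_pos
  rw [h1, Finset.card_erase_of_mem (Finset.mem_univ _), Finset.card_univ, Nat.cast_sub h2]
  simp

/-- rescaling of sums over the nonzero isotropic vectors -/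
lemma iso_rescale (f : V → ℝ) (s : F) (hs : s ≠ 0) :
    ∑ e with e ≠ 0 ∧ b.Q e = 0, f (s • e) = ∑ e with e ≠ 0 ∧ b.Q e = 0, f e := by
  refine Finset.sum_bij' (fun e _ => s • e) (fun e _ => s⁻¹ • e) ?_ ?_ ?_ ?_ ?_
  · intro e he
    simp only [Finset.mem_filter, Finset.mem_univ, true_and] at he ⊢
    exact ⟨smul_ne_zero hs he.1, by rw [b.Q_smul, he.2, mul_zero]⟩
  · intro e he
    simp only [Finset.mem_filter, Finset.mem_univ, true_and] at he ⊢
    exact ⟨smul_ne_zero (inv_ne_zero hs) he.1, by rw [b.Q_smul, he.2, mul_zero]⟩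
  · intro e _; rw [smul_smul, inv_mul_cancel₀ hs, one_smul]
  · intro e _; rw [smul_smul, mul_inv_cancel₀ hs, one_smul]
  · intro e _; rfl

lemma iso_bound (hψ : ψ ≠ 1) (w : V → ℝ) (hw : ∀ m, 0 ≤ w m) (W : ℝ)
    (hW : ∀ e : V, e ≠ 0 → b.Q e = 0 → ∀ c, pmass b w e c ≤ W) :
    ∑ x with x ≠ 0 ∧ b.Q x = 0, (∑ s : F, ker0 b ψ w x * ker0 b ψ w (s • x) *
      ker0 b ψ w (-x - s • x)).re ≤
      W * ∑ x with x ≠ 0 ∧ b.Q x = 0, ‖ker0 b ψ w x‖ ^ 2 := by
  set K : V → ℂ := ker0 b ψ w with hK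
  set f : V → ℝ := fun x => (∑ s : F, K x * K (s • x) * K (-x - s • x)).re with hf
  set I : Finset V := univ.filter (fun x => x ≠ 0 ∧ b.Q x = 0) with hI
  have hK0 : K 0 = 0 := by simp [hK, ker0]
  have h1 : ∑ e ∈ I, (∑ s : F, ∑ t : F, K (s • e) * K (t • e) * K ((-s - t) • e)).re =
      ((Fintype.card F : ℝ) - 1) * ∑ x ∈ I, f x := by
    have e1 : ∀ e ∈ I, (∑ s : F, ∑ t : F, K (s • e) * K (t • e) * K ((-s - t) • e)).re =
        ∑ s : F, if s = 0 then 0 else f (s • e) := by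
      intro e _
      rw [Complex.re_sum]
      refine Finset.sum_congr rfl fun s _ => ?_
      by_cases hs : s = 0
      · simp [hs, hK0]
      · rw [if_neg hs]
        simp only [hf]
        congr 1
        rw [← Equiv.sum_comp (Equiv.mulRight₀ s hs)]
        refine Finset.sum_congr rfl fun t _ => ?_
        rw [show (Equiv.mulRight₀ s hs) t = t * s from rfl, smul_smul, sub_smul, neg_smul]
    rw [Finset.sum_congr rfl e1, Finset.sum_comm]
    have e2 : ∀ s : F, ∑ e ∈ I, (if s = 0 then 0 else f (s • e)) =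
        if s = 0 then 0 else ∑ x ∈ I, f x := by
      intro s
      by_cases hs : s = 0
      · simp [hs]
      · simp only [if_neg hs]
        exact iso_rescale b f s hs
    simp_rw [e2]
    rw [Finset.sum_ite, Finset.sum_const_zero, zero_add, Finset.sum_const, nsmul_eq_mul]
    congr 1
    exact card_ne_zero'
  have h2 : ∑ e ∈ I, ∑ s : F, ‖K (s • e)‖ ^ 2 =
      ((Fintype.card F : ℝ) - 1) * ∑ x ∈ I, ‖K x‖ ^ 2 := by
    rw [Finset.sum_comm]
    have e2 : ∀ s : F, ∑ e ∈ I, ‖K (s • e)‖ ^ 2 =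
        if s = 0 then 0 else ∑ x ∈ I, ‖K x‖ ^ 2 := by
      intro s
      by_cases hs : s = 0
      · simp [hs, hK0]
      · simp only [if_neg hs]
        exact iso_rescale b (fun x => ‖K x‖ ^ 2) s hs
    simp_rw [e2]
    rw [Finset.sum_ite, Finset.sum_const_zero, zero_add, Finset.sum_const, nsmul_eq_mul]
    congr 1
    exact card_ne_zero'
  have h3 : ∑ e ∈ I, (∑ s : F, ∑ t : F, K (s • e) * K (t • e) * K ((-s - t) • e)).re ≤
      ∑ e ∈ I, W * ∑ s : F, ‖K (s • e)‖ ^ 2 := by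
    refine Finset.sum_le_sum fun e he => ?_
    simp only [hI, Finset.mem_filter, Finset.mem_univ, true_and] at he
    exact line_triple b hψ w hw e he.1 W (hW e he.1 he.2)
  rw [h1, ← Finset.mul_sum, h2] at h3
  have hq : (1 : ℝ) < Fintype.card F := by
    exact_mod_cast Fintype.one_lt_card
  have : 0 < (Fintype.card F : ℝ) - 1 := by linarith
  have h4 : ((Fintype.card F : ℝ) - 1) * ∑ x ∈ I, f x ≤
      ((Fintype.card F : ℝ) - 1) * (W * ∑ x ∈ I, ‖K x‖ ^ 2) := by linarith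
  exact le_of_mul_le_mul_left h4 this

lemma ft_ker0 (hψ : ψ ≠ 1) (w : V → ℝ) (m : V) :
    ft b ψ (ker0 b ψ w) m = ((w m - (Fintype.card V : ℝ)⁻¹ * ∑ y, w y : ℝ) : ℂ) := by
  have h1 : ∀ x, ker0 b ψ w x * ψ (-(b.B m x)) =
      ker b ψ w x * ψ (-(b.B m x)) - (if x = 0 then ker b ψ w 0 else 0) := by
    intro x
    by_cases hx : x = 0
    · simp [ker0, hx]
    · simp [ker0, hx]
  unfold ft
  simp_rw [h1]
  rw [Finset.sum_sub_distrib, Finset.sum_ite_eq', if_pos (Finset.mem_univ _), ker_zero]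
  have := ft_ker b ψ hψ w m
  unfold ft at this
  rw [this]
  push_cast
  ring

lemma norm_ker0_le (w : V → ℝ) (hw : ∀ m, 0 ≤ w m) (x : V) :
    ‖ker0 b ψ w x‖ ≤ (Fintype.card V : ℝ)⁻¹ * ∑ m, w m := by
  unfold ker0
  split_ifs
  · rw [norm_zero]
    exact mul_nonneg (by positivity) (Finset.sum_nonneg fun m _ => hw m)
  · exact norm_ker_le b ψ w hw x

lemma ker0_sq_le (hψ : ψ ≠ 1) (w : V → ℝ) :
    ∑ x, ‖ker0 b ψ w x‖ ^ 2 ≤ (Fintype.card V : ℝ)⁻¹ * ∑ m, w m ^ 2 := by
  rw [← ker_sq b ψ hψ w]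
  refine Finset.sum_le_sum fun x _ => ?_
  unfold ker0
  split_ifs
  · simp
  · exact le_refl _

/-- the level sets of the quadratic form -/
def lev (t : F) : Finset V := univ.filter fun x => b.Q x = t

def C2 (x : V) : ℕ := #{ξ : V | b.Q (ξ + x) = b.Q ξ}

def C3 (x y : V) : ℕ := #{ξ : V | b.Q (ξ + x) = b.Q ξ ∧ b.Q (ξ - y) = b.Q ξ}

lemma sum_cnt2 (x : V) : ∑ t, cnt2 (lev b t) x = C2 b x := by
  unfold cnt2 C2 lev
  simp_rw [Finset.card_filter, Finset.sum_filter]
  rw [Finset.sum_comm]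
  refine Finset.sum_congr rfl fun ξ _ => ?_
  rw [Finset.sum_eq_single (b.Q ξ)]
  · simp
  · intro t _ ht; simp [ht.symm]
  · simp

lemma sum_cnt3 (x y : V) : ∑ t, cnt3 (lev b t) x y = C3 b x y := by
  unfold cnt3 C3 lev
  simp_rw [Finset.card_filter, Finset.sum_filter]
  rw [Finset.sum_comm]
  refine Finset.sum_congr rfl fun ξ _ => ?_
  rw [Finset.sum_eq_single (b.Q ξ)]
  · simp
  · intro t _ ht; simp [ht.symm]
  · simp

lemma Q_add_eq_iff (h2 : (2 : F) ≠ 0) (ξ x : V) :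
    b.Q (ξ + x) = b.Q ξ ↔ b.B ξ x = -(b.Q x) / 2 := by
  rw [b.Q_add, eq_div_iff h2]
  constructor
  · intro h; linear_combination h
  · intro h; linear_combination h

lemma Q_sub_eq_iff (h2 : (2 : F) ≠ 0) (ξ y : V) :
    b.Q (ξ - y) = b.Q ξ ↔ b.B ξ y = b.Q y / 2 := by
  rw [b.Q_sub, eq_div_iff h2]
  constructor
  · intro h; linear_combination -h
  · intro h; linear_combination -h

lemma C2_eq (hψ : ψ ≠ 1) (h2 : (2 : F) ≠ 0) (x : V) (hx : x ≠ 0) :
    (C2 b x : ℝ) = (Fintype.card V : ℝ) / Fintype.card F := by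
  unfold C2
  simp_rw [Q_add_eq_iff b h2]
  exact card_one b hψ x hx _

lemma C3_indep (hψ : ψ ≠ 1) (h2 : (2 : F) ≠ 0) (x y : V) (h : ¬ Dep F x y) :
    (C3 b x y : ℝ) = (Fintype.card V : ℝ) / (Fintype.card F) ^ 2 := by
  unfold C3
  simp_rw [Q_add_eq_iff b h2, Q_sub_eq_iff b h2]
  exact card_two b hψ x y h _ _

lemma C3_aniso (h2 : (2 : F) ≠ 0) (x : V) (hQ : b.Q x ≠ 0) (s : F) (hs : s ≠ 0)
    (hs1 : s + 1 ≠ 0) : C3 b x (s • x) = 0 := by
  unfold C3
  rw [Finset.card_eq_zero, Finset.filter_eq_empty_iff]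
  intro ξ _
  rw [Q_add_eq_iff b h2, Q_sub_eq_iff b h2, b.smul_right, b.Q_smul]
  rintro ⟨h, h'⟩
  rw [h] at h'
  field_simp at h'
  exact hs1 (by rw [← h']; ring)

lemma C3_iso (hψ : ψ ≠ 1) (h2 : (2 : F) ≠ 0) (x : V) (hx : x ≠ 0) (hQ : b.Q x = 0) (s : F) :
    (C3 b x (s • x) : ℝ) = (Fintype.card V : ℝ) / Fintype.card F := by
  rw [← C2_eq b hψ h2 x hx]
  unfold C3 C2
  congr 2
  ext ξ
  simp only [Finset.mem_filter, Finset.mem_univ, true_and]
  rw [Q_add_eq_iff b h2, Q_sub_eq_iff b h2, b.smul_right, b.Q_smul, hQ]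
  simp only [neg_zero, zero_div, mul_zero, and_iff_left_iff_imp]
  intro h; rw [h, mul_zero]

open scoped Classical in
lemma sum_dep {M : Type*} [AddCommMonoid M] (x : V) (hx : x ≠ 0) (g : V → M) :
    ∑ y, (if Dep F x y then g y else 0) = ∑ s : F, g (s • x) := by
  have hinj : Function.Injective (fun s : F => s • x) := by
    intro s t h
    simp only at h
    have : (s - t) • x = 0 := by rw [sub_smul, h, sub_self]
    rcases smul_eq_zero.mp this with h' | h'
    · exact sub_eq_zero.mp h'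
    · exact absurd h' hx
  rw [← Finset.sum_filter]
  have : (univ.filter fun y => Dep F x y) = univ.image (fun s : F => s • x) := by
    ext y
    simp only [Finset.mem_filter, Finset.mem_univ, true_and, Finset.mem_image, Dep, hx, false_or]
    exact ⟨fun ⟨s, hs⟩ => ⟨s, hs.symm⟩, fun ⟨s, hs⟩ => ⟨s, hs.symm⟩⟩
  rw [this, Finset.sum_image fun _ _ _ _ h => hinj h]

open scoped Classical in
/-- the sum of the cubic traces over all level sets -/
lemma sum_tr3 (hψ : ψ ≠ 1) (h2 : (2 : F) ≠ 0) (w : V → ℝ) (hw : ∀ m, 0 ≤ w m)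
    (ws W : ℝ) (hws : ∀ m, w m ≤ ws) (hW0 : 0 ≤ W)
    (hW : ∀ e : V, e ≠ 0 → b.Q e = 0 → ∀ c, pmass b w e c ≤ W) :
    ∑ t, (kmat (ker0 b ψ w) (lev b t) * kmat (ker0 b ψ w) (lev b t) *
      kmat (ker0 b ψ w) (lev b t)).trace.re ≤
      ((Fintype.card V : ℝ)⁻¹ * ∑ m, w m ^ 2) *
        ((Fintype.card V : ℝ) / (Fintype.card F) ^ 2 * ws +
         (Fintype.card V : ℝ) / (Fintype.card F) ^ 2 * ((Fintype.card F : ℝ) + 1) *
           ((Fintype.card V : ℝ)⁻¹ * ∑ m, w m) +
         (Fintype.card V : ℝ) / Fintype.card F * W) := by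
  have hv : (0 : ℝ) < Fintype.card V := by exact_mod_cast Fintype.card_pos
  have hq : (0 : ℝ) < Fintype.card F := by exact_mod_cast Fintype.card_pos
  set K := ker0 b ψ w with hK
  set LL := (Fintype.card V : ℝ)⁻¹ * ∑ m, w m ^ 2 with hLL
  set G0 := (Fintype.card V : ℝ)⁻¹ * ∑ m, w m with hG0
  set p := (Fintype.card V : ℝ) / (Fintype.card F) ^ 2 with hp
  have hp0 : 0 ≤ p := by positivity
  have hG00 : 0 ≤ G0 := mul_nonneg (by positivity) (Finset.sum_nonneg fun m _ => hw m)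
  have hKs : ∑ x, ‖K x‖ ^ 2 ≤ LL := ker0_sq_le b hψ w
  have hK0 : K 0 = 0 := by simp [hK, ker0]
  have hneg : ∀ x, ‖K (-x)‖ = ‖K x‖ := fun x => by rw [hK, ker0_neg]; simp
  have e1 : ∑ t, (kmat K (lev b t) * kmat K (lev b t) * kmat K (lev b t)).trace.re =
      (∑ x, ∑ y, (C3 b x y : ℂ) * (K x * K y * K (-x - y))).re := by
    rw [← Complex.re_sum]
    congr 1
    simp_rw [kmat_tr3]
    rw [sum_rot3]
    refine Finset.sum_congr rfl fun x _ => Finset.sum_congr rfl fun y _ => ?_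
    rw [← Finset.sum_mul, ← sum_cnt3, Nat.cast_sum]
  have e2 : ∑ x, ∑ y, (C3 b x y : ℂ) * (K x * K y * K (-x - y)) =
      (p : ℂ) * ∑ x, ∑ y, K x * K y * K (-x - y) -
      (p : ℂ) * ∑ x, ∑ y, (if Dep F x y then K x * K y * K (-x - y) else 0) +
      ∑ x, ∑ y, (if Dep F x y then (C3 b x y : ℂ) * (K x * K y * K (-x - y)) else 0) := by
    rw [Finset.mul_sum, Finset.mul_sum, ← Finset.sum_sub_distrib, ← Finset.sum_add_distrib]
    refine Finset.sum_congr rfl fun x _ => ?_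
    rw [Finset.mul_sum, Finset.mul_sum, ← Finset.sum_sub_distrib, ← Finset.sum_add_distrib]
    refine Finset.sum_congr rfl fun y _ => ?_
    by_cases hd : Dep F x y
    · simp only [hd, if_true]; ring
    · simp only [hd, if_false, mul_zero, sub_zero, add_zero]
      congr 1
      have := C3_indep b hψ h2 x y hd
      rw [hp, ← this]; simp
  have e3 : (∑ x, ∑ y, K x * K y * K (-x - y)).re ≤ ws * LL := by
    rw [triple_sum b ψ hψ]
    simp_rw [hK, ft_ker0 b hψ]
    have : (Fintype.card V : ℂ)⁻¹ * ∑ m, ((w m - G0 : ℝ) : ℂ) * ((w m - G0 : ℝ) : ℂ) *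
        ((w m - G0 : ℝ) : ℂ) = (((Fintype.card V : ℝ)⁻¹ * ∑ m, (w m - G0) ^ 3 : ℝ) : ℂ) := by
      push_cast
      congr 1
      exact Finset.sum_congr rfl fun c _ => by ring
    rw [this, Complex.ofReal_re]
    have h4 : ∀ m, (w m - G0) ^ 3 ≤ ws * (w m ^ 2 - 2 * w m * G0 + G0 ^ 2) := by
      intro m
      have h5 : w m - G0 ≤ ws := by linarith [hws m]
      nlinarith [sq_nonneg (w m - G0), mul_nonneg (sub_nonneg.mpr h5) (sq_nonneg (w m - G0))]
    have hws0 : 0 ≤ ws := (hw 0).trans (hws 0)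
    calc (Fintype.card V : ℝ)⁻¹ * ∑ m, (w m - G0) ^ 3
        ≤ (Fintype.card V : ℝ)⁻¹ * ∑ m, ws * (w m ^ 2 - 2 * w m * G0 + G0 ^ 2) :=
          mul_le_mul_of_nonneg_left (Finset.sum_le_sum fun m _ => h4 m) (by positivity)
      _ = ws * (LL - G0 ^ 2) := by
          rw [← Finset.mul_sum, Finset.sum_add_distrib, Finset.sum_sub_distrib, Finset.sum_const,
            Finset.card_univ, nsmul_eq_mul]
          have : ∑ m, 2 * w m * G0 = 2 * (Fintype.card V * G0) * G0 := by
            rw [hG0, ← Finset.sum_mul, ← Finset.mul_sum]; field_simp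
          rw [this, hLL]; field_simp; ring
      _ ≤ ws * LL := by nlinarith [sq_nonneg G0]
  have e4 : -(∑ x, ∑ y, (if Dep F x y then K x * K y * K (-x - y) else 0)).re ≤
      ((Fintype.card F : ℝ) + 1) * (G0 * LL) := by
    refine (neg_le_abs _).trans ((Complex.abs_re_le_norm _).trans ?_)
    calc _ ≤ ∑ x, ∑ y, (if Dep F x y then ‖K x‖ * ‖K y‖ * ‖K (-x - y)‖ else 0) := by
          refine (norm_sum_le _ _).trans (Finset.sum_le_sum fun x _ => ?_)
          refine (norm_sum_le _ _).trans (Finset.sum_le_sum fun y _ => ?_)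
          split_ifs
          · rw [norm_mul, norm_mul]
          · simp
      _ ≤ _ := dep_sum (F := F) K G0 (norm_ker0_le b w hw) hneg
      _ ≤ _ := by
          refine mul_le_mul_of_nonneg_left ?_ (by positivity)
          exact mul_le_mul_of_nonneg_left hKs hG00
  have e5 : (∑ x, ∑ y, (if Dep F x y then (C3 b x y : ℂ) * (K x * K y * K (-x - y)) else 0)).re
      ≤ (Fintype.card V : ℝ) / Fintype.card F * (W * LL) := by
    have e6 : ∀ x, ∑ y, (if Dep F x y then (C3 b x y : ℂ) * (K x * K y * K (-x - y)) else 0) =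
        if x ≠ 0 ∧ b.Q x = 0 then (((Fintype.card V : ℝ) / Fintype.card F : ℝ) : ℂ) *
          ∑ s : F, K x * K (s • x) * K (-x - s • x) else 0 := by
      intro x
      by_cases hx : x = 0
      · subst hx
        simp [hK0]
      · rw [sum_dep x hx]
        by_cases hQ : b.Q x = 0
        · rw [if_pos ⟨hx, hQ⟩, Finset.mul_sum]
          refine Finset.sum_congr rfl fun s _ => ?_
          rw [← C3_iso b hψ h2 x hx hQ s]; simp
        · rw [if_neg (fun h => hQ h.2)]
          refine Finset.sum_eq_zero fun s _ => ?_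
          by_cases hs : s = 0
          · simp [hs, hK0]
          by_cases hs1 : s + 1 = 0
          · have : -x - s • x = 0 := by
              have : s = -1 := eq_neg_of_add_eq_zero_left hs1
              rw [this]; simp
            rw [this, hK0]; simp
          · rw [C3_aniso b h2 x hQ s hs hs1]; simp
    simp_rw [e6]
    rw [← Finset.sum_filter, ← Finset.mul_sum, Complex.re_ofReal_mul, Complex.re_sum]
    refine mul_le_mul_of_nonneg_left ?_ (by positivity)
    refine (iso_bound b hψ w hw W hW).trans ?_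
    refine mul_le_mul_of_nonneg_left (le_trans ?_ hKs) hW0
    exact Finset.sum_le_sum_of_subset_of_nonneg (Finset.filter_subset _ _)
      (fun _ _ _ => by positivity)
  rw [e1, e2, Complex.add_re, Complex.sub_re, Complex.re_ofReal_mul, Complex.re_ofReal_mul]
  have f1 := mul_le_mul_of_nonneg_left e3 hp0
  have f2 := mul_le_mul_of_nonneg_left e4 hp0
  linarith

end Pool.Agent.H375R4
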