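import Pool.Agent.H375R4.Gauss1
import Pool.Agent.H375R4.Stage2

set_option autoImplicit false
set_option linter.unusedSectionVars false

/-! # Geometry of an admissible level set in dimension three -/

open Finset ComplexConjugate

namespace Pool.Agent.H375R4

variable {F : Type*} [Field F] [Fintype F] [DecidableEq F]
variable {V : Type*} [AddCommGroup V] [Module F V] [Fintype V] [DecidableEq V]
variable (b : SForm F V) {ψ : AddChar F ℂ}

/-- Data of an admissible level set in dimension three. -/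
structure Adm (b : SForm F V) (ψ : AddChar F ℂ) (κ : ℝ) (j : F) : Prop where
  hψ : ψ ≠ 1
  h2 : ringChar F ≠ 2
  hv : (Fintype.card V : ℝ) = (Fintype.card F : ℝ) ^ 3
  hκ : κ ^ 2 = 1
  hγ : ∀ r, r ≠ 0 → gam b ψ r = ((κ * Fintype.card F : ℝ) : ℂ) * g1 ψ (-r)
  hj : j ≠ 0
  hadm : κ * ((quadraticChar F (-j) : ℤ) : ℝ) = -1

lemma g1_zero : g1 ψ (0 : F) = (Fintype.card F : ℂ) := by
  simp [g1_def]

lemma g1_sq_mul {a : F} (ha : a ≠ 0) (r : F) : g1 ψ (a * a * r) = g1 ψ r := by
  rw [g1_def, g1_def, ← Equiv.sum_comp (Equiv.mulLeft₀ a ha) (fun x => ψ (r * (x * x)))]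
  refine Finset.sum_congr rfl fun x _ => ?_
  rw [show (Equiv.mulLeft₀ a ha) x = a * x from rfl]
  congr 1; ring

lemma g1_inv4 (h2 : (2 : F) ≠ 0) {r : F} (hr : r ≠ 0) : g1 ψ ((4 * r)⁻¹) = g1 ψ r := by
  have h4 : (4 : F) ≠ 0 := by
    have : (4 : F) = 2 * 2 := by norm_num
    rw [this]; exact mul_ne_zero h2 h2
  rw [← g1_sq_mul (inv_ne_zero (mul_ne_zero h2 hr)) r]
  congr 1
  rw [show (4 : F) = 2 * 2 by norm_num]
  field_simp

lemma two_ind (hψ : ψ ≠ 1) (u w : F) :
    (Fintype.card F : ℂ) ^ 2 * ((if u = 0 then (1 : ℂ) else 0) * (if w = 0 then 1 else 0)) =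
      ∑ r : F, ∑ s : F, ψ (r * u + s * w) := by
  have hq : (Fintype.card F : ℂ) ≠ 0 := by exact_mod_cast Fintype.card_ne_zero
  rw [indicator_psi hψ u, indicator_psi hψ w]
  have f3 : (Fintype.card F : ℂ) ^ 2 * ((Fintype.card F : ℂ)⁻¹ *
      (∑ i : F, ψ (i * u)) * ((Fintype.card F : ℂ)⁻¹ * ∑ i : F, ψ (i * w))) =
      (∑ i : F, ψ (i * u)) * ∑ i : F, ψ (i * w) := by
    have : (Fintype.card F : ℂ) ^ 2 * (Fintype.card F : ℂ)⁻¹ * (Fintype.card F : ℂ)⁻¹ = 1 := by
      field_simp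
    linear_combination ((∑ i : F, ψ (i * u)) * ∑ i : F, ψ (i * w)) * this
  rw [f3, Finset.sum_mul_sum]
  refine Finset.sum_congr rfl fun r _ => Finset.sum_congr rfl fun s _ => ?_
  rw [← AddChar.map_add_eq_mul]

lemma pcount_base (hψ : ψ ≠ 1) (h2 : (2 : F) ≠ 0) (j c : F) (x : V) (hx : x ≠ 0) :
    (Fintype.card F : ℂ) ^ 2 * (#{z ∈ lev b j | b.B z x = c} : ℂ) =
      (Fintype.card V : ℂ) + ∑ r with r ≠ 0, gam b ψ r * ψ (-(r * j)) *
        ∑ s : F, ψ (-(b.Q x) / (4 * r) * (s * s) + s * (-c)) := by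
  have e1 : (Fintype.card F : ℂ) ^ 2 * (#{z ∈ lev b j | b.B z x = c} : ℂ) =
      ∑ r : F, ∑ s : F, ψ (-(r * j) - s * c) * ∑ z, ψ (r * b.Q z + b.B z (s • x)) := by
    have f1 : (#{z ∈ lev b j | b.B z x = c} : ℂ) =
        ∑ z, (if b.Q z - j = 0 then (1 : ℂ) else 0) * (if b.B z x - c = 0 then 1 else 0) := by
      rw [← Finset.sum_boole, lev, Finset.sum_filter]
      refine Finset.sum_congr rfl fun z _ => ?_
      simp only [sub_eq_zero]
      split_ifs <;> simp
    rw [f1, Finset.mul_sum]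
    simp_rw [two_ind hψ]
    rw [sum_rot3]
    refine Finset.sum_congr rfl fun r _ => Finset.sum_congr rfl fun s _ => ?_
    rw [Finset.mul_sum]
    refine Finset.sum_congr rfl fun z _ => ?_
    rw [← AddChar.map_add_eq_mul, b.smul_right]
    congr 1; ring
  rw [e1, ← Finset.add_sum_erase _ _ (Finset.mem_univ (0 : F))]
  congr 1
  · have f4 : ∀ s : F, ψ (-((0 : F) * j) - s * c) * ∑ z, ψ ((0 : F) * b.Q z + b.B z (s • x)) =
        if s = 0 then (Fintype.card V : ℂ) else 0 := by
      intro s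
      simp_rw [zero_mul, zero_add]
      rw [sum_V b hψ]
      by_cases hs : s = 0
      · subst hs; simp
      · rw [if_neg hs, if_neg (smul_ne_zero hs hx), mul_zero]
    simp_rw [f4]
    simp
  · have hset : (Finset.univ.erase (0 : F)) = univ.filter fun r : F => r ≠ 0 := by
      ext r; simp
    rw [hset]
    refine Finset.sum_congr rfl fun r hr => ?_
    simp only [Finset.mem_filter, Finset.mem_univ, true_and] at hr
    rw [Finset.mul_sum]
    refine Finset.sum_congr rfl fun s _ => ?_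
    rw [gauss_shift b ψ h2 hr, b.Q_smul, mul_assoc, ← AddChar.map_add_eq_mul, mul_left_comm,
      ← AddChar.map_add_eq_mul]
    congr 2; ring

lemma gauss_one (h2 : (2 : F) ≠ 0) {a : F} (ha : a ≠ 0) (c : F) :
    ∑ s : F, ψ (a * (s * s) + s * (-c)) = g1 ψ a * ψ (-(c ^ 2) / (4 * a)) := by
  have := gauss_shift (formF F) ψ h2 ha (-c)
  rw [show gam (formF F) ψ a = g1 ψ a from rfl] at this
  have e : -((formF F).Q (-c)) / (4 * a) = -(c ^ 2) / (4 * a) := by
    congr 1
    change -(-c * -c) = -(c ^ 2)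
    ring
  rw [e] at this
  exact this

variable {κ : ℝ} {j : F}

lemma Adm.two (H : Adm b ψ κ j) : (2 : F) ≠ 0 := Ring.two_ne_zero H.h2

lemma Adm.sum_gam (H : Adm b ψ κ j) :
    ∑ r with r ≠ 0, gam b ψ r * ψ (-(r * j)) = -((Fintype.card F : ℂ) ^ 2) := by
  have e1 : ∑ r with r ≠ 0, gam b ψ r * ψ (-(r * j)) =
      ((κ * Fintype.card F : ℝ) : ℂ) * ∑ r : F with r ≠ 0, g1 ψ (-r) * ψ (-(r * j)) := by
    rw [Finset.mul_sum]
    refine Finset.sum_congr rfl fun r hr => ?_
    simp only [Finset.mem_filter, Finset.mem_univ, true_and] at hr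
    rw [H.hγ r hr]; ring
  have e2 : ∑ r : F with r ≠ 0, g1 ψ (-r) * ψ (-(r * j)) =
      (Fintype.card F : ℂ) * ((quadraticChar F (-j) : ℤ) : ℂ) := by
    have h := sum_g1 (F := F) H.hψ H.h2 j
    rw [← Equiv.sum_comp (Equiv.neg F), ← Finset.add_sum_erase _ _ (Finset.mem_univ (0 : F))] at h
    have hset : (Finset.univ.erase (0 : F)) = univ.filter fun r : F => r ≠ 0 := by
      ext r; simp
    rw [hset] at h
    simp only [Equiv.neg_apply, neg_zero, g1_zero, zero_mul, AddChar.map_zero_eq_one, mul_one,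
      neg_mul] at h
    push_cast at h
    linear_combination h
  rw [e1, e2]
  have h3 : ((κ * ((quadraticChar F (-j) : ℤ) : ℝ) : ℝ) : ℂ) = ((-1 : ℝ) : ℂ) := by rw [H.hadm]
  push_cast at h3 ⊢
  linear_combination ((Fintype.card F : ℂ) ^ 2) * h3

/-- planes orthogonal to an isotropic vector -/
lemma Adm.pcount_iso (H : Adm b ψ κ j) (c : F) (x : V) (hx : x ≠ 0) (hQ : b.Q x = 0) :
    (#{z ∈ lev b j | b.B z x = c} : ℝ) =
      (Fintype.card F : ℝ) - if c = 0 then (Fintype.card F : ℝ) else 0 := by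
  have hq : (Fintype.card F : ℂ) ≠ 0 := by exact_mod_cast Fintype.card_ne_zero
  have h := pcount_base b H.hψ H.two j c x hx
  have e1 : ∀ r : F, ∑ s : F, ψ (-(b.Q x) / (4 * r) * (s * s) + s * (-c)) =
      if c = 0 then (Fintype.card F : ℂ) else 0 := by
    intro r
    rw [hQ]
    simp only [neg_zero, zero_div, zero_mul, zero_add]
    rw [sum_F H.hψ]
    simp
  simp_rw [e1] at h
  rw [← Finset.sum_mul, H.sum_gam] at h
  have hv : (Fintype.card V : ℂ) = (Fintype.card F : ℂ) ^ 3 := by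
    have := H.hv
    exact_mod_cast this
  rw [hv] at h
  apply Complex.ofReal_injective
  push_cast
  have h4 : (Fintype.card F : ℂ) ^ 2 * (#{z ∈ lev b j | b.B z x = c} : ℂ) =
      (Fintype.card F : ℂ) ^ 2 *
        ((Fintype.card F : ℂ) - if c = 0 then (Fintype.card F : ℂ) else 0) := by
    rw [h]; split_ifs <;> ring
  have h5 := mul_left_cancel₀ (pow_ne_zero 2 hq) h4
  rw [h5]
  split_ifs <;> simp

/-- planes orthogonal to a nonisotropic vector -/
lemma Adm.pcount_aniso (H : Adm b ψ κ j) (c : F) (x : V) (hQ : b.Q x ≠ 0) :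
    (#{z ∈ lev b j | b.B z x = c} : ℝ) =
      (Fintype.card F : ℝ) + κ * ((quadraticChar F (-(b.Q x)) : ℤ) : ℝ) *
        ((if c ^ 2 = j * b.Q x then (Fintype.card F : ℝ) else 0) - 1) := by
  have hq : (Fintype.card F : ℂ) ≠ 0 := by exact_mod_cast Fintype.card_ne_zero
  have hx : x ≠ 0 := by
    intro h; apply hQ; rw [h]; simp
  have h4 : (4 : F) ≠ 0 := by
    have : (4 : F) = 2 * 2 := by norm_num
    rw [this]; exact mul_ne_zero H.two H.two
  have h := pcount_base b H.hψ H.two j c x hx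
  set t := b.Q x with ht
  have e1 : ∑ r with r ≠ 0, gam b ψ r * ψ (-(r * j)) *
        ∑ s : F, ψ (-t / (4 * r) * (s * s) + s * (-c)) =
      ((κ * (Fintype.card F) ^ 2 * ((quadraticChar F (-t) : ℤ) : ℝ) : ℝ) : ℂ) *
        ∑ r : F with r ≠ 0, ψ (r * (c ^ 2 / t - j)) := by
    rw [Finset.mul_sum]
    refine Finset.sum_congr rfl fun r hr => ?_
    simp only [Finset.mem_filter, Finset.mem_univ, true_and] at hr
    have ha : -t / (4 * r) ≠ 0 := div_ne_zero (neg_ne_zero.mpr hQ) (mul_ne_zero h4 hr)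
    rw [gauss_one H.two ha, H.hγ r hr]
    have f1 : g1 ψ (-t / (4 * r)) = ((quadraticChar F (-t) : ℤ) : ℂ) * g1 ψ r := by
      rw [div_eq_mul_inv, g1_mul H.hψ H.h2 (neg_ne_zero.mpr hQ)
        (inv_ne_zero (mul_ne_zero h4 hr)), g1_inv4 H.two hr]
    have f2 : -(c ^ 2) / (4 * (-t / (4 * r))) = r * (c ^ 2 / t) := by
      field_simp
    have f3 := g1_mul_neg (F := F) (ψ := ψ) H.hψ H.two hr
    rw [f1, f2]
    have f4 : ψ (r * (c ^ 2 / t - j)) = ψ (-(r * j)) * ψ (r * (c ^ 2 / t)) := by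
      rw [← AddChar.map_add_eq_mul]; congr 1; ring
    rw [f4]
    push_cast
    linear_combination (κ * (Fintype.card F : ℂ) * ((quadraticChar F (-t) : ℤ) : ℂ) *
      ψ (-(r * j)) * ψ (r * (c ^ 2 / t))) * f3
  have e2 : ∑ r : F with r ≠ 0, ψ (r * (c ^ 2 / t - j)) =
      (if c ^ 2 = j * t then (Fintype.card F : ℂ) else 0) - 1 := by
    have h5 := sum_F (F := F) H.hψ (c ^ 2 / t - j)
    rw [← Finset.add_sum_erase _ _ (Finset.mem_univ (0 : F))] at h5
    have hset : (Finset.univ.erase (0 : F)) = univ.filter fun r : F => r ≠ 0 := by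
      ext r; simp
    rw [hset] at h5
    have h6 : c ^ 2 / t - j = 0 ↔ c ^ 2 = j * t := by
      rw [sub_eq_zero, div_eq_iff hQ]
    simp only [zero_mul, AddChar.map_zero_eq_one, h6] at h5
    rw [← h5]; ring
  rw [e1, e2] at h
  have hv : (Fintype.card V : ℂ) = (Fintype.card F : ℂ) ^ 3 := by
    have := H.hv
    exact_mod_cast this
  rw [hv] at h
  apply Complex.ofReal_injective
  have h7 : (Fintype.card F : ℂ) ^ 2 * (#{z ∈ lev b j | b.B z x = c} : ℂ) =
      (Fintype.card F : ℂ) ^ 2 *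
        ((Fintype.card F : ℂ) + κ * ((quadraticChar F (-t) : ℤ) : ℂ) *
        ((if c ^ 2 = j * t then (Fintype.card F : ℂ) else 0) - 1)) := by
    rw [h]; push_cast; ring
  have h8 := mul_left_cancel₀ (pow_ne_zero 2 hq) h7
  push_cast
  rw [h8]
  split_ifs <;> push_cast <;> ring

lemma quad_abs (x : F) : |((quadraticChar F x : ℤ) : ℝ)| ≤ 1 := by
  by_cases hx : x = 0
  · subst hx; simp
  · rcases quadraticChar_dichotomy hx with h | h <;> rw [h] <;> simp

lemma Adm.abs_kq (H : Adm b ψ κ j) (x : F) :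
    |κ * ((quadraticChar F x : ℤ) : ℝ)| ≤ 1 := by
  have h1 : |κ| = 1 := by
    have := H.hκ
    have h2 : |κ| ^ 2 = 1 := by rw [sq_abs]; exact this
    nlinarith [abs_nonneg κ]
  rw [abs_mul, h1, one_mul]
  exact quad_abs x

/-- no isotropic differences -/
lemma Adm.no_iso (H : Adm b ψ κ j) (z x : V) (hz : b.Q z = j) (hx : x ≠ 0) (hQ : b.Q x = 0) :
    b.B z x ≠ 0 := by
  intro h
  have h1 := H.pcount_iso b 0 x hx hQ
  rw [if_pos rfl, sub_self] at h1
  have h2 : #{z ∈ lev b j | b.B z x = 0} = 0 := by exact_mod_cast h1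
  rw [Finset.card_eq_zero, Finset.filter_eq_empty_iff] at h2
  exact h2 (by simp [lev, hz]) h

lemma Adm.no_iso_diff (H : Adm b ψ κ j) (z x : V) (hz : b.Q z = j) (hzx : b.Q (z + x) = j)
    (hx : x ≠ 0) : b.Q x ≠ 0 := by
  intro hQ
  apply H.no_iso b z x hz hx hQ
  have h1 := (Q_add_eq_iff b H.two z x).mp (by rw [hz, hzx])
  rw [h1, hQ]; simp

lemma Adm.card_lev (H : Adm b ψ κ j) :
    (#(lev b j) : ℝ) = (Fintype.card F : ℝ) * ((Fintype.card F : ℝ) - 1) := by
  have hq : (Fintype.card F : ℂ) ≠ 0 := by exact_mod_cast Fintype.card_ne_zero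
  have e1 : (Fintype.card F : ℂ) * (#(lev b j) : ℂ) =
      ∑ r : F, ψ (-(r * j)) * ∑ z, ψ (r * b.Q z) := by
    have f1 : (#(lev b j) : ℂ) = ∑ z, (if b.Q z - j = 0 then (1 : ℂ) else 0) := by
      rw [Finset.sum_boole, lev]
      simp only [sub_eq_zero]
    rw [f1]
    simp_rw [indicator_psi H.hψ, ← Finset.mul_sum]
    rw [mul_inv_cancel_left₀ hq, Finset.sum_comm]
    refine Finset.sum_congr rfl fun r _ => ?_
    rw [Finset.mul_sum]
    refine Finset.sum_congr rfl fun z _ => ?_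
    rw [← AddChar.map_add_eq_mul]
    congr 1; ring
  have hv : (Fintype.card V : ℂ) = (Fintype.card F : ℂ) ^ 3 := by
    have := H.hv
    exact_mod_cast this
  rw [← Finset.add_sum_erase _ _ (Finset.mem_univ (0 : F))] at e1
  have hset : (Finset.univ.erase (0 : F)) = univ.filter fun r : F => r ≠ 0 := by
    ext r; simp
  rw [hset] at e1
  have e2 : ∑ r : F with r ≠ 0, ψ (-(r * j)) * ∑ z, ψ (r * b.Q z) =
      -((Fintype.card F : ℂ) ^ 2) := by
    rw [← H.sum_gam]
    refine Finset.sum_congr rfl fun r _ => ?_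
    rw [mul_comm]; rfl
  rw [e2] at e1
  simp only [zero_mul, neg_zero, AddChar.map_zero_eq_one, one_mul, Finset.sum_const,
    Finset.card_univ, nsmul_eq_mul, mul_one] at e1
  rw [hv] at e1
  apply Complex.ofReal_injective
  push_cast
  apply mul_left_cancel₀ hq
  rw [e1]; ring

lemma Adm.q3 (H : Adm b ψ κ j) : (3 : ℝ) ≤ Fintype.card F := by
  have h1 : 1 < Fintype.card F := Fintype.one_lt_card
  have h2 : Fintype.card F ≠ 2 := by
    intro h
    have h3 := FiniteField.even_card_iff_char_two.mpr.mt H.h2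
    rw [h] at h3
    simp at h3
  have : 3 ≤ Fintype.card F := by omega
  exact_mod_cast this

lemma Adm.pcount_le (H : Adm b ψ κ j) (c : F) (x : V) (hx : x ≠ 0) :
    (#{z ∈ lev b j | b.B z x = c} : ℝ) ≤ 2 * (Fintype.card F : ℝ) := by
  have hq3 := H.q3
  by_cases hQ : b.Q x = 0
  · rw [H.pcount_iso b c x hx hQ]
    split_ifs <;> linarith
  · rw [H.pcount_aniso b c x hQ]
    have h1 := abs_le.mp (H.abs_kq b (-(b.Q x)))
    split_ifs
    · nlinarith [h1.1, h1.2]
    · nlinarith [h1.1, h1.2]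

lemma Adm.cnt2_le (H : Adm b ψ κ j) (x : V) (hx : x ≠ 0) :
    (cnt2 (lev b j) x : ℝ) ≤ 2 * (Fintype.card F : ℝ) := by
  refine le_trans (le_of_eq ?_) (H.pcount_le b (-(b.Q x) / 2) x hx)
  congr 1
  unfold cnt2
  apply congrArg
  refine Finset.filter_congr fun z hz => ?_
  have hz' : b.Q z = j := by simpa [lev] using hz
  rw [← Q_add_eq_iff b H.two, hz']
  simp [lev]

/-- no three collinear points -/
lemma Adm.no_three (H : Adm b ψ κ j) (z x : V) (s : F) (hx : x ≠ 0) (hs0 : s ≠ 0) (hs1 : s ≠ 1)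
    (h0 : b.Q z = j) (h1 : b.Q (z + x) = j) (h2 : b.Q (z + s • x) = j) : False := by
  have hQ := H.no_iso_diff b z x h0 h1 hx
  rw [b.Q_add, h0] at h1 h2
  rw [b.Q_smul, b.smul_right] at h2
  have e1 : 2 * b.B z x = - b.Q x := by linear_combination h1
  have e2 : s * (s - 1) * b.Q x = 0 := by linear_combination h2 - s * e1
  rcases mul_eq_zero.mp e2 with h | h
  · rcases mul_eq_zero.mp h with h | h
    · exact hs0 h
    · exact hs1 (sub_eq_zero.mp h)
  · exact hQ h

lemma Adm.cnt3_dep (H : Adm b ψ κ j) (x y : V) (hd : Dep F x y) (hx : x ≠ 0) (hy : y ≠ 0)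
    (hxy : x + y ≠ 0) : cnt3 (lev b j) x y = 0 := by
  rcases hd with h | ⟨s, rfl⟩
  · exact absurd h hx
  unfold cnt3
  rw [Finset.card_eq_zero, Finset.filter_eq_empty_iff]
  intro z hz h
  have h0 : b.Q z = j := by simpa [lev] using hz
  have h1 : b.Q (z + x) = j := by simpa [lev] using h.1
  have h2 : b.Q (z + (-s) • x) = j := by
    have := h.2
    rw [neg_smul, ← sub_eq_add_neg]
    simpa [lev] using this
  have hs0 : s ≠ 0 := fun hs => hy (by rw [hs, zero_smul])
  have hs1 : -s ≠ 1 := by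
    intro hs
    apply hxy
    have : s = -1 := by rw [← hs]; ring
    rw [this]; simp
  exact H.no_three b z x (-s) hx (neg_ne_zero.mpr hs0) hs1 h0 h1 h2

lemma Adm.cnt3_eq (H : Adm b ψ κ j) (x y : V) :
    cnt3 (lev b j) x y =
      #{z ∈ lev b j | b.B z x = -(b.Q x) / 2 ∧ b.B z y = b.Q y / 2} := by
  unfold cnt3
  apply congrArg
  refine Finset.filter_congr fun z hz => ?_
  have hz' : b.Q z = j := by simpa [lev] using hz
  rw [← Q_add_eq_iff b H.two, ← Q_sub_eq_iff b H.two, hz']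
  simp [lev]

/-- three level-set points on the intersection of two independent planes are impossible -/
lemma Adm.cnt3_le (H : Adm b ψ κ j) (x y : V) (hd : ¬ Dep F x y) :
    (cnt3 (lev b j) x y : ℝ) ≤ 2 := by
  rw [H.cnt3_eq b x y]
  by_contra hcon
  push Not at hcon
  have h3 : 2 < #{z ∈ lev b j | b.B z x = -(b.Q x) / 2 ∧ b.B z y = b.Q y / 2} := by
    exact_mod_cast hcon
  obtain ⟨z1, z2, z3, h1, h2, h3, h12, h13, h23⟩ := Finset.two_lt_card_iff.mp h3
  simp only [Finset.mem_filter] at h1 h2 h3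
  have g1 : b.Q z1 = j := by simpa [lev] using h1.1
  have g2 : b.Q z2 = j := by simpa [lev] using h2.1
  have g3 : b.Q z3 = j := by simpa [lev] using h3.1
  -- the line through the origin
  have hcard := card_two b H.hψ x y hd 0 0
  have hq0 : (0 : ℝ) < Fintype.card F := by exact_mod_cast Fintype.card_pos
  have hcard' : (#{ξ : V | b.B ξ x = 0 ∧ b.B ξ y = 0} : ℝ) = (Fintype.card F : ℝ) := by
    rw [hcard, H.hv]; field_simp
  have hcard2 : #{ξ : V | b.B ξ x = 0 ∧ b.B ξ y = 0} = Fintype.card F := by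
    exact_mod_cast hcard'
  have he : z2 - z1 ≠ 0 := sub_ne_zero.mpr (Ne.symm h12)
  have hsub : (univ : Finset F).image (fun s : F => s • (z2 - z1)) ⊆
      univ.filter (fun ξ : V => b.B ξ x = 0 ∧ b.B ξ y = 0) := by
    intro w hw
    simp only [Finset.mem_image, Finset.mem_univ, true_and] at hw
    obtain ⟨s, rfl⟩ := hw
    simp only [Finset.mem_filter, Finset.mem_univ, true_and, b.smul_left, b.sub_left, h1.2.1,
      h2.2.1, h1.2.2, h2.2.2, sub_self, mul_zero, and_self]
  have hinj : Function.Injective (fun s : F => s • (z2 - z1)) := by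
    intro s t hst
    simp only at hst
    have : (s - t) • (z2 - z1) = 0 := by rw [sub_smul, hst, sub_self]
    rcases smul_eq_zero.mp this with h | h
    · exact sub_eq_zero.mp h
    · exact absurd h he
  have heq := Finset.eq_of_subset_of_card_le hsub (by
    rw [Finset.card_image_of_injective _ hinj, hcard2, Finset.card_univ])
  have hz3 : z3 - z1 ∈ univ.filter (fun ξ : V => b.B ξ x = 0 ∧ b.B ξ y = 0) := by
    simp only [Finset.mem_filter, Finset.mem_univ, true_and, b.sub_left, h1.2.1,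
      h3.2.1, h1.2.2, h3.2.2, sub_self, and_self]
  rw [← heq, Finset.mem_image] at hz3
  obtain ⟨s, _, hs⟩ := hz3
  have hs0 : s ≠ 0 := by
    rintro rfl
    rw [zero_smul] at hs
    exact h13 (sub_eq_zero.mp hs.symm).symm
  have hs1 : s ≠ 1 := by
    rintro rfl
    rw [one_smul] at hs
    exact h23 (sub_left_injective hs)
  refine H.no_three b z1 (z2 - z1) s he hs0 hs1 g1 (by rw [add_sub_cancel]; exact g2) ?_
  rw [hs, add_sub_cancel]; exact g3

lemma three_ind (hψ : ψ ≠ 1) (u w z : F) :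
    (Fintype.card F : ℂ) ^ 3 * ((if u = 0 then (1 : ℂ) else 0) * ((if w = 0 then 1 else 0) *
      (if z = 0 then 1 else 0))) =
      ∑ r : F, ∑ s : F, ∑ t : F, ψ (r * u + (s * w + t * z)) := by
  have hq : (Fintype.card F : ℂ) ≠ 0 := by exact_mod_cast Fintype.card_ne_zero
  have h1 := two_ind hψ w z
  have : (Fintype.card F : ℂ) ^ 3 * ((if u = 0 then (1 : ℂ) else 0) * ((if w = 0 then 1 else 0) *
      (if z = 0 then 1 else 0))) = ((Fintype.card F : ℂ) * (if u = 0 then (1 : ℂ) else 0)) *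
      ((Fintype.card F : ℂ) ^ 2 * ((if w = 0 then 1 else 0) *
      (if z = 0 then 1 else 0))) := by ring
  rw [this, h1, indicator_psi hψ u, mul_inv_cancel_left₀ hq, Finset.sum_mul]
  refine Finset.sum_congr rfl fun r _ => ?_
  rw [Finset.mul_sum]
  refine Finset.sum_congr rfl fun s _ => ?_
  rw [Finset.mul_sum]
  refine Finset.sum_congr rfl fun t _ => ?_
  rw [← AddChar.map_add_eq_mul]

/-- the character sum giving the number of triangles -/
noncomputable def PhiT (b : SForm F V) (ψ : AddChar F ℂ) (j : F) (a c e : F) : ℂ :=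
  (Fintype.card V : ℂ) + ∑ r : F with r ≠ 0, ∑ s : F, ∑ t : F,
    ψ (-(r * j) + s * a + t * c) *
      (gam b ψ r * ψ (-(4 * (s ^ 2 * a - s * t * (e - a - c) + t ^ 2 * c)) / (4 * r)))

lemma Adm.cnt3_char (H : Adm b ψ κ j) (x y : V) (hd : ¬ Dep F x y) :
    (Fintype.card F : ℂ) ^ 3 * (cnt3 (lev b j) x y : ℂ) =
      PhiT b ψ j (b.Q x) (b.Q y) (b.Q (x + y)) := by
  have h2 := H.two
  have f1 : (cnt3 (lev b j) x y : ℂ) = ∑ z, (if b.Q z - j = 0 then (1 : ℂ) else 0) *
      ((if 2 * b.B z x + b.Q x = 0 then 1 else 0) *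
        (if -(2 * b.B z y) + b.Q y = 0 then 1 else 0)) := by
    rw [H.cnt3_eq b x y, ← Finset.sum_boole, lev, Finset.sum_filter]
    refine Finset.sum_congr rfl fun z _ => ?_
    have g1 : (b.B z x = -(b.Q x) / 2) ↔ (2 * b.B z x + b.Q x = 0) := by
      rw [eq_div_iff h2]
      constructor
      · intro h; linear_combination h
      · intro h; linear_combination h
    have g2 : (b.B z y = (b.Q y) / 2) ↔ (-(2 * b.B z y) + b.Q y = 0) := by
      rw [eq_div_iff h2]
      constructor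
      · intro h; linear_combination -h
      · intro h; linear_combination -h
    simp only [g1, g2, sub_eq_zero]
    split_ifs <;> simp_all
  rw [f1, Finset.mul_sum]
  simp_rw [three_ind H.hψ]
  rw [sum_rot4]
  have e1 : ∀ r s t : F, ∑ z : V, ψ (r * (b.Q z - j) + (s * (2 * b.B z x + b.Q x) +
      t * (-(2 * b.B z y) + b.Q y))) = ψ (-(r * j) + s * b.Q x + t * b.Q y) *
      ∑ z : V, ψ (r * b.Q z + b.B z ((2 * s) • x - (2 * t) • y)) := by
    intro r s t
    rw [Finset.mul_sum]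
    refine Finset.sum_congr rfl fun z _ => ?_
    rw [← AddChar.map_add_eq_mul, b.sub_right, b.smul_right, b.smul_right]
    congr 1; ring
  simp_rw [e1]
  rw [← Finset.add_sum_erase _ _ (Finset.mem_univ (0 : F))]
  unfold PhiT
  congr 1
  · have f4 : ∀ s t : F, ψ (-((0 : F) * j) + s * b.Q x + t * b.Q y) *
        ∑ z : V, ψ ((0 : F) * b.Q z + b.B z ((2 * s) • x - (2 * t) • y)) =
        if s = 0 then (if t = 0 then (Fintype.card V : ℂ) else 0) else 0 := by
      intro s t
      simp_rw [zero_mul, zero_add]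
      rw [sum_V b H.hψ]
      by_cases hs : s = 0
      · rw [if_pos hs, hs]
        by_cases ht : t = 0
        · rw [if_pos ht, ht]; simp
        · rw [if_neg ht, if_neg, mul_zero]
          rw [mul_zero, zero_smul, zero_sub, neg_eq_zero]
          refine smul_ne_zero (mul_ne_zero h2 ht) fun hy => hd ?_
          right; exact ⟨0, by rw [hy, zero_smul]⟩
      · rw [if_neg hs, if_neg, mul_zero]
        intro h
        apply hd
        have h5 : (2 * s) • x = (2 * t) • y := sub_eq_zero.mp h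
        by_cases ht : t = 0
        · rw [ht, mul_zero, zero_smul] at h5
          left
          exact (smul_eq_zero.mp h5).resolve_left (mul_ne_zero h2 hs)
        · right
          refine ⟨(2 * t)⁻¹ * (2 * s), ?_⟩
          rw [mul_smul, h5, smul_smul, inv_mul_cancel₀ (mul_ne_zero h2 ht), one_smul]
    simp_rw [f4]
    simp
  · have hset : (Finset.univ.erase (0 : F)) = univ.filter fun r : F => r ≠ 0 := by
      ext r; simp
    rw [hset]
    refine Finset.sum_congr rfl fun r hr => ?_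
    simp only [Finset.mem_filter, Finset.mem_univ, true_and] at hr
    refine Finset.sum_congr rfl fun s _ => Finset.sum_congr rfl fun t _ => ?_
    rw [gauss_shift b ψ h2 hr]
    congr 4
    rw [b.Q_sub, b.Q_smul, b.Q_smul, b.smul_left, b.smul_right, b.Q_add]
    ring

/-- the number of triangles is a bounded function of the norms -/
lemma Adm.exists_n (H : Adm b ψ κ j) : ∃ n : F → F → F → ℝ, (∀ a c e, |n a c e| ≤ 2) ∧
    ∀ x y : V, ¬ Dep F x y → (cnt3 (lev b j) x y : ℝ) = n (b.Q x) (b.Q y) (b.Q (x + y)) := by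
  have hq : (Fintype.card F : ℂ) ≠ 0 := by exact_mod_cast Fintype.card_ne_zero
  set n0 : F → F → F → ℝ := fun a c e =>
    (((Fintype.card F : ℂ) ^ 3)⁻¹ * PhiT b ψ j a c e).re with hn0
  refine ⟨fun a c e => if |n0 a c e| ≤ 2 then n0 a c e else 0, ?_, ?_⟩
  · intro a c e
    simp only
    split_ifs with h
    · exact h
    · simp
  · intro x y hd
    have h1 := H.cnt3_char b x y hd
    have h2 : n0 (b.Q x) (b.Q y) (b.Q (x + y)) = (cnt3 (lev b j) x y : ℝ) := by
      simp only [hn0]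
      rw [← h1, inv_mul_cancel_left₀ (pow_ne_zero 3 hq)]
      simp
    simp only
    rw [h2, if_pos]
    rw [abs_of_nonneg (by positivity)]
    exact H.cnt3_le b x y hd

/-- hypothesis of the bound for equidistant pairs -/
noncomputable def phiS (κ : ℝ) (t : F) : ℝ :=
  if t = 0 then 0 else 1 - κ * ((quadraticChar F (-t) : ℤ) : ℝ)

lemma phiS_zero : phiS κ (0 : F) = 0 := by simp [phiS]

lemma Adm.phiS_le (H : Adm b ψ κ j) (t : F) : |phiS κ t| ≤ 2 := by
  unfold phiS
  split_ifs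
  · simp
  · have h1 := abs_le.mp (H.abs_kq b (-t))
    rw [abs_le]
    constructor <;> linarith [h1.1, h1.2]

lemma Adm.phiS_eq (H : Adm b ψ κ j) (x y : V) (hx : x ∈ lev b j) (hy : y ∈ lev b j)
    (hxy : x ≠ y) : (#{z ∈ lev b j | b.B z (x - y) = 0} : ℝ) =
      ((Fintype.card F : ℝ) - 1) + phiS κ (b.Q (x - y)) := by
  have hx' : b.Q x = j := by simpa [lev] using hx
  have hy' : b.Q y = j := by simpa [lev] using hy
  have hQ : b.Q (x - y) ≠ 0 := by
    refine H.no_iso_diff b y (x - y) hy' ?_ (sub_ne_zero.mpr hxy)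
    rw [add_sub_cancel]; exact hx'
  rw [H.pcount_aniso b 0 (x - y) hQ, phiS, if_neg hQ, if_neg]
  · ring
  · rw [zero_pow two_ne_zero]
    exact (mul_ne_zero H.hj hQ).symm

/-- Fourier transform of the indicator of the level set -/
lemma Adm.ft_lev (H : Adm b ψ κ j) (m : V) (hm : m ≠ 0) :
    ‖∑ ξ ∈ lev b j, ψ (b.B m ξ)‖ ≤ 2 * (Fintype.card F : ℝ) := by
  have hq3 := H.q3
  have e1 : ∑ ξ ∈ lev b j, ψ (b.B m ξ) =
      ∑ c : F, (#{z ∈ lev b j | b.B z m = c} : ℂ) * ψ c := by
    rw [← Finset.sum_fiberwise (lev b j) (fun ξ => b.B ξ m)]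
    refine Finset.sum_congr rfl fun c _ => ?_
    rw [← nsmul_eq_mul, ← Finset.sum_const]
    refine Finset.sum_congr rfl fun z hz => ?_
    rw [Finset.mem_filter] at hz
    rw [b.symm m z, hz.2]
  have hsum : ∑ c : F, ψ c = 0 := by
    have := sum_F (F := F) H.hψ 1
    simpa using this
  have hR : ∀ c : F, (#{z ∈ lev b j | b.B z m = c} : ℂ) =
      ((#{z ∈ lev b j | b.B z m = c} : ℝ) : ℂ) := fun c => by push_cast; rfl
  rw [e1]
  by_cases hQ : b.Q m = 0
  · simp_rw [hR, H.pcount_iso b _ m hm hQ]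
    have : ∑ c : F, (((Fintype.card F : ℝ) - if c = 0 then (Fintype.card F : ℝ) else 0 : ℝ) : ℂ) *
        ψ c = -(Fintype.card F : ℂ) := by
      have f1 : ∀ c : F, (((Fintype.card F : ℝ) -
          if c = 0 then (Fintype.card F : ℝ) else 0 : ℝ) : ℂ) * ψ c =
          (Fintype.card F : ℂ) * ψ c - if c = 0 then (Fintype.card F : ℂ) else 0 := by
        intro c
        split_ifs with h
        · subst h; simp
        · simp
      simp_rw [f1]
      rw [Finset.sum_sub_distrib, ← Finset.mul_sum, hsum]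
      simp
    rw [this, norm_neg, Complex.norm_natCast]
    linarith
  · simp_rw [hR, H.pcount_aniso b _ m hQ]
    set ε : ℝ := κ * ((quadraticChar F (-(b.Q m)) : ℤ) : ℝ) with hε
    have hε1 : |ε| ≤ 1 := H.abs_kq b (-(b.Q m))
    have : ∑ c : F, (((Fintype.card F : ℝ) + ε * ((if c ^ 2 = j * b.Q m then
        (Fintype.card F : ℝ) else 0) - 1) : ℝ) : ℂ) * ψ c =
        (ε : ℂ) * (Fintype.card F : ℂ) * ∑ c : F, if c ^ 2 = j * b.Q m then ψ c else 0 := by
      have f1 : ∀ c : F, (((Fintype.card F : ℝ) + ε * ((if c ^ 2 = j * b.Q m then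
          (Fintype.card F : ℝ) else 0) - 1) : ℝ) : ℂ) * ψ c =
          ((Fintype.card F : ℂ) - ε) * ψ c + (ε : ℂ) * (Fintype.card F : ℂ) *
            (if c ^ 2 = j * b.Q m then ψ c else 0) := by
        intro c
        split_ifs with h
        · push_cast; ring
        · push_cast; ring
      simp_rw [f1]
      rw [Finset.sum_add_distrib, ← Finset.mul_sum, hsum, ← Finset.mul_sum]
      ring
    rw [this, norm_mul, norm_mul, Complex.norm_natCast, Complex.norm_real, Real.norm_eq_abs]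
    have h3 : ‖∑ c : F, (if c ^ 2 = j * b.Q m then ψ c else 0)‖ ≤ 2 := by
      have h4 : ‖∑ c : F, (if c ^ 2 = j * b.Q m then ψ c else 0)‖ ≤
          (#{c : F | c ^ 2 = j * b.Q m} : ℝ) := by
        refine (norm_sum_le _ _).trans ?_
        rw [Finset.card_filter]
        push_cast
        refine Finset.sum_le_sum fun c _ => ?_
        split_ifs
        · rw [norm_psi]
        · simp
      have h5 : ((#{c : F | c ^ 2 = j * b.Q m} : ℤ)) =
          quadraticChar F (j * b.Q m) + 1 := by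
        rw [← quadraticChar_card_sqrts H.h2]
        congr 1
        apply congrArg
        ext c; simp
      have h6 : (#{c : F | c ^ 2 = j * b.Q m} : ℝ) =
          ((quadraticChar F (j * b.Q m) : ℤ) : ℝ) + 1 := by
        have : (((#{c : F | c ^ 2 = j * b.Q m} : ℤ)) : ℝ) =
          (((quadraticChar F (j * b.Q m) + 1 : ℤ)) : ℝ) := by rw [h5]
        push_cast at this
        exact this
      have h7 := (abs_le.mp (quad_abs (j * b.Q m))).2
      linarith
    have hq0 : (0 : ℝ) < Fintype.card F := by linarith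
    calc |ε| * (Fintype.card F : ℝ) * ‖∑ c : F, (if c ^ 2 = j * b.Q m then ψ c else 0)‖
        ≤ 1 * (Fintype.card F : ℝ) * 2 := by gcongr
      _ = _ := by ring

end Pool.Agent.H375R4
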