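import Pool.Agent.H375R4.Core

set_option autoImplicit false
set_option linter.unusedSectionVars false

/-! # The extension estimate from the distributional estimates -/

open Finset ComplexConjugate

namespace Pool.Agent.H375R4

variable {F : Type*} [Field F] [Fintype F] [DecidableEq F]
variable {V : Type*} [AddCommGroup V] [Module F V] [Fintype V] [DecidableEq V]
variable (b : SForm F V) {ψ : AddChar F ℂ}
variable {κ : ℝ} {j : F}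

/-- one dyadic level -/
lemma Adm.level (H : Adm b ψ κ j) (f : V → ℂ) (hf : ∀ x, x ∉ lev b j → f x = 0)
    (h1 : ∑ x, ‖f x‖ ^ 2 = 1) (q : ℝ) (hq : q = Fintype.card F) (h : ℝ) (hh : 0 < h)
    (hh7 : q ^ 3 ≤ h ^ 7) (G : Finset V) (hG : ∀ m ∈ G, h ≤ ‖ft b ψ f m‖)
    (hG4 : ∀ m ∈ G, ‖ft b ψ f m‖ ^ 2 < 4 * q) :
    (#G : ℝ) * h ^ (15 / 4 : ℝ) ≤ 40 * q ^ (27 / 7 : ℝ) * h ^ (-(1 / 4) : ℝ) := by
  have hq3 := H.q3
  rw [← hq] at hq3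
  have hq0 : 0 < q := by linarith
  rcases Finset.eq_empty_or_nonempty G with hGe | ⟨m0, hm0⟩
  · subst hGe
    have : (0 : ℝ) ≤ 40 * q ^ (27 / 7 : ℝ) * h ^ (-(1 / 4) : ℝ) := by positivity
    simpa using this
  have hh4 : h ^ 2 ≤ 4 * q := by
    have e1 := pow_le_pow_left₀ hh.le (hG m0 hm0) 2
    linarith [hG4 m0 hm0]
  have hv := H.hv
  rw [← hq] at hv
  have hcore := H.core b f hf h1 G h hh hG (by rw [← hq]; exact hh4) (by rw [← hq]; exact hh7)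
  rw [← hq, hv] at hcore
  have e1 : (40 : ℝ) ^ 7 * q ^ 6 = (40 * q ^ (6 / 7 : ℝ)) ^ 7 := by
    rw [mul_pow, ← Real.rpow_natCast (q ^ (6 / 7 : ℝ)) 7, ← Real.rpow_mul hq0.le,
      show (6 / 7 : ℝ) * (7 : ℕ) = (6 : ℕ) by norm_num, Real.rpow_natCast]
  rw [e1] at hcore
  have e2 : h ^ 4 * ((q ^ 3)⁻¹ * (#G : ℝ)) ≤ 40 * q ^ (6 / 7 : ℝ) :=
    le_of_pow_le_pow_left₀ (by norm_num) (by positivity) hcore
  have e3 : h ^ 4 * (#G : ℝ) ≤ 40 * q ^ (27 / 7 : ℝ) := by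
    have : q ^ (27 / 7 : ℝ) = q ^ 3 * q ^ (6 / 7 : ℝ) := by
      rw [← Real.rpow_natCast q 3, ← Real.rpow_add hq0]; norm_num
    rw [this]
    calc h ^ 4 * (#G : ℝ) = q ^ 3 * (h ^ 4 * ((q ^ 3)⁻¹ * (#G : ℝ))) := by field_simp
      _ ≤ q ^ 3 * (40 * q ^ (6 / 7 : ℝ)) := mul_le_mul_of_nonneg_left e2 (by positivity)
      _ = _ := by ring
  have e4 : h ^ (15 / 4 : ℝ) = h ^ 4 * h ^ (-(1 / 4) : ℝ) := by
    rw [← Real.rpow_natCast h 4, ← Real.rpow_add hh]; norm_num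
  rw [e4]
  calc (#G : ℝ) * (h ^ 4 * h ^ (-(1 / 4) : ℝ)) = (h ^ 4 * (#G : ℝ)) * h ^ (-(1 / 4) : ℝ) := by ring
    _ ≤ _ := mul_le_mul_of_nonneg_right e3 (by positivity)

lemma geom_bound (K : ℕ) : ∑ k ∈ range K, ((2 : ℝ) ^ (-(1 / 4) : ℝ)) ^ k ≤ 7 := by
  set x : ℝ := (2 : ℝ) ^ (-(1 / 4) : ℝ) with hx
  have hx0 : 0 < x := by positivity
  have hx4 : x ^ 4 = 1 / 2 := by
    rw [hx, ← Real.rpow_natCast _ 4, ← Real.rpow_mul (by norm_num)]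
    norm_num
  have hx67 : x ≤ 6 / 7 := by
    have : x ^ 4 ≤ (6 / 7) ^ 4 := by rw [hx4]; norm_num
    exact le_of_pow_le_pow_left₀ (by norm_num) (by norm_num) this
  have h1 : (∑ k ∈ range K, x ^ k) * (1 - x) = 1 - x ^ K := by
    have := mul_neg_geom_sum x K
    linarith [this, mul_comm (1 - x) (∑ k ∈ range K, x ^ k)]
  have h2 : 0 ≤ x ^ K := by positivity
  have h3 : 0 ≤ ∑ k ∈ range K, x ^ k := Finset.sum_nonneg fun k _ => by positivity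
  nlinarith

lemma Adm.sup_le (H : Adm b ψ κ j) (f : V → ℂ) (hf : ∀ x, x ∉ lev b j → f x = 0)
    (h1 : ∑ x, ‖f x‖ ^ 2 = 1) (m : V) : ‖ft b ψ f m‖ ≤ (Fintype.card F : ℝ) := by
  have hq3 := H.q3
  have e1 : ‖ft b ψ f m‖ ≤ ∑ x ∈ lev b j, ‖f x‖ * 1 := by
    unfold ft
    rw [← Finset.sum_subset (Finset.subset_univ (lev b j))
      (fun x _ hx => by rw [hf x hx, zero_mul])]
    refine (norm_sum_le _ _).trans (le_of_eq ?_)
    refine Finset.sum_congr rfl fun x _ => ?_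
    rw [norm_mul, norm_psi]
  have e2 := Finset.sum_mul_sq_le_sq_mul_sq (lev b j) (fun z => ‖f z‖) (fun _ => (1 : ℝ))
  have e3 : ∑ z ∈ lev b j, ‖f z‖ ^ 2 ≤ 1 := by
    rw [← h1]
    exact Finset.sum_le_sum_of_subset_of_nonneg (Finset.subset_univ _)
      (fun _ _ _ => by positivity)
  have e4 : ∑ z ∈ lev b j, (1 : ℝ) ^ 2 = (Fintype.card F : ℝ) * ((Fintype.card F : ℝ) - 1) := by
    rw [← H.card_lev b]; simp
  rw [e4] at e2
  have e5 : ‖ft b ψ f m‖ ^ 2 ≤ (Fintype.card F : ℝ) ^ 2 := by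
    calc ‖ft b ψ f m‖ ^ 2 ≤ (∑ x ∈ lev b j, ‖f x‖ * 1) ^ 2 :=
          pow_le_pow_left₀ (norm_nonneg _) e1 2
      _ ≤ _ := e2
      _ ≤ 1 * ((Fintype.card F : ℝ) * ((Fintype.card F : ℝ) - 1)) :=
          mul_le_mul_of_nonneg_right e3 (by nlinarith)
      _ ≤ _ := by nlinarith
  exact le_of_sq_le_sq e5 (by positivity)

/-- the middle range -/
lemma Adm.middle (H : Adm b ψ κ j) (f : V → ℂ) (hf : ∀ x, x ∉ lev b j → f x = 0)
    (h1 : ∑ x, ‖f x‖ ^ 2 = 1) (q : ℝ) (hq : q = Fintype.card F) :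
    ∑ m with q ^ (3 / 7 : ℝ) ≤ ‖ft b ψ f m‖ ∧ ‖ft b ψ f m‖ ^ 2 < 4 * q,
      ‖ft b ψ f m‖ ^ (15 / 4 : ℝ) ≤ 4000 * q ^ (15 / 4 : ℝ) := by
  have hq3 := H.q3
  rw [← hq] at hq3
  have hq0 : 0 < q := by linarith
  have hq1 : 1 ≤ q := by linarith
  obtain ⟨h0, hh0⟩ : ∃ h0 : ℝ, h0 = q ^ (3 / 7 : ℝ) := ⟨_, rfl⟩
  rw [← hh0]
  have h01 : 1 ≤ h0 := by rw [hh0]; exact Real.one_le_rpow hq1 (by norm_num)
  have h00 : 0 < h0 := by linarith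
  set Mid : Finset V := univ.filter fun m => h0 ≤ ‖ft b ψ f m‖ ∧ ‖ft b ψ f m‖ ^ 2 < 4 * q
    with hMid
  set G : ℕ → Finset V := fun k => Mid.filter fun m => (2 : ℝ) ^ k * h0 ≤ ‖ft b ψ f m‖ with hG
  -- pointwise dyadic majorant
  have hpt : ∀ m ∈ Mid, ‖ft b ψ f m‖ ^ (15 / 4 : ℝ) ≤
      ∑ k ∈ range (Fintype.card F), (if m ∈ G k then
        (2 : ℝ) ^ (15 / 4 : ℝ) * ((2 : ℝ) ^ k * h0) ^ (15 / 4 : ℝ) else 0) := by
    intro m hm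
    have hm' := hm
    rw [hMid, Finset.mem_filter] at hm'
    have hx : 1 ≤ ‖ft b ψ f m‖ / h0 := by rw [le_div_iff₀ h00]; linarith [hm'.2.1]
    obtain ⟨k, hk1, hk2⟩ := exists_nat_pow_near hx (by norm_num : (1 : ℝ) < 2)
    rw [le_div_iff₀ h00] at hk1
    rw [div_lt_iff₀ h00] at hk2
    have hkG : m ∈ G k := by
      rw [hG]; exact Finset.mem_filter.mpr ⟨hm, hk1⟩
    have hkK : k ∈ range (Fintype.card F) := by
      rw [Finset.mem_range]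
      have e1 : (2 : ℝ) ^ k ≤ q := by
        have e2 := H.sup_le b f hf h1 m
        rw [← hq] at e2
        have e3 : (2 : ℝ) ^ k * 1 ≤ (2 : ℝ) ^ k * h0 :=
          mul_le_mul_of_nonneg_left h01 (by positivity)
        linarith
      rw [hq] at e1
      have e4 : 2 ^ k ≤ Fintype.card F := by exact_mod_cast e1
      exact lt_of_lt_of_le Nat.lt_two_pow_self e4
    refine le_trans ?_ (Finset.single_le_sum (f := fun k => (if m ∈ G k then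
        (2 : ℝ) ^ (15 / 4 : ℝ) * ((2 : ℝ) ^ k * h0) ^ (15 / 4 : ℝ) else 0))
      (fun k _ => by split_ifs <;> positivity) hkK)
    rw [if_pos hkG, ← Real.mul_rpow (by norm_num) (by positivity)]
    apply Real.rpow_le_rpow (norm_nonneg _) _ (by norm_num)
    rw [pow_succ] at hk2
    linarith
  have hlev : ∀ k, (#(G k) : ℝ) * ((2 : ℝ) ^ k * h0) ^ (15 / 4 : ℝ) ≤
      40 * q ^ (27 / 7 : ℝ) * ((2 : ℝ) ^ k * h0) ^ (-(1 / 4) : ℝ) := by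
    intro k
    apply H.level b f hf h1 q hq ((2 : ℝ) ^ k * h0) (by positivity) ?_ (G k)
    · intro m hm
      rw [hG] at hm
      exact (Finset.mem_filter.mp hm).2
    · intro m hm
      rw [hG] at hm
      have := (Finset.mem_filter.mp hm).1
      rw [hMid, Finset.mem_filter] at this
      exact this.2.2
    · have e1 : q ^ 3 = h0 ^ 7 := by
        rw [hh0, ← Real.rpow_natCast (q ^ (3 / 7 : ℝ)) 7, ← Real.rpow_mul hq0.le,
          show (3 / 7 : ℝ) * (7 : ℕ) = (3 : ℕ) by norm_num, Real.rpow_natCast]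
      rw [e1]
      apply pow_le_pow_left₀ h00.le
      have : (1 : ℝ) ≤ 2 ^ k := one_le_pow₀ (by norm_num)
      nlinarith
  have hexp : h0 ^ (-(1 / 4) : ℝ) * q ^ (27 / 7 : ℝ) = q ^ (15 / 4 : ℝ) := by
    rw [hh0, ← Real.rpow_mul hq0.le, ← Real.rpow_add hq0]; norm_num
  have h2154 : (2 : ℝ) ^ (15 / 4 : ℝ) ≤ 14 := by
    have e1 : ((2 : ℝ) ^ (15 / 4 : ℝ)) ^ 4 ≤ 14 ^ 4 := by
      rw [← Real.rpow_natCast _ 4, ← Real.rpow_mul (by norm_num),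
        show (15 / 4 : ℝ) * (4 : ℕ) = (15 : ℕ) by norm_num, Real.rpow_natCast]
      norm_num
    exact le_of_pow_le_pow_left₀ (by norm_num) (by norm_num) e1
  calc ∑ m ∈ Mid, ‖ft b ψ f m‖ ^ (15 / 4 : ℝ)
      ≤ ∑ m ∈ Mid, ∑ k ∈ range (Fintype.card F), (if m ∈ G k then
        (2 : ℝ) ^ (15 / 4 : ℝ) * ((2 : ℝ) ^ k * h0) ^ (15 / 4 : ℝ) else 0) :=
        Finset.sum_le_sum hpt
    _ = ∑ k ∈ range (Fintype.card F), (#(G k) : ℝ) *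
        ((2 : ℝ) ^ (15 / 4 : ℝ) * ((2 : ℝ) ^ k * h0) ^ (15 / 4 : ℝ)) := by
        rw [Finset.sum_comm]
        refine Finset.sum_congr rfl fun k _ => ?_
        rw [← Finset.sum_filter, Finset.sum_const, nsmul_eq_mul]
        congr 3
        rw [hG]
        ext m
        simp only [Finset.mem_filter]
        tauto
    _ ≤ ∑ k ∈ range (Fintype.card F), (2 : ℝ) ^ (15 / 4 : ℝ) * (40 * q ^ (27 / 7 : ℝ) *
        ((2 : ℝ) ^ k * h0) ^ (-(1 / 4) : ℝ)) := by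
        refine Finset.sum_le_sum fun k _ => ?_
        have := mul_le_mul_of_nonneg_left (hlev k)
          (show (0 : ℝ) ≤ (2 : ℝ) ^ (15 / 4 : ℝ) by positivity)
        refine le_trans (le_of_eq ?_) this
        ring
    _ = (2 : ℝ) ^ (15 / 4 : ℝ) * (40 * (h0 ^ (-(1 / 4) : ℝ) * q ^ (27 / 7 : ℝ))) *
        ∑ k ∈ range (Fintype.card F), ((2 : ℝ) ^ (-(1 / 4) : ℝ)) ^ k := by
        rw [Finset.mul_sum]
        refine Finset.sum_congr rfl fun k _ => ?_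
        rw [Real.mul_rpow (by positivity) h00.le]
        have : ((2 : ℝ) ^ k) ^ (-(1 / 4) : ℝ) = ((2 : ℝ) ^ (-(1 / 4) : ℝ)) ^ k := by
          rw [← Real.rpow_natCast 2 k, ← Real.rpow_mul (by norm_num), mul_comm (k : ℝ),
            Real.rpow_mul (by norm_num), Real.rpow_natCast]
        rw [this]; ring
    _ ≤ (2 : ℝ) ^ (15 / 4 : ℝ) * (40 * (h0 ^ (-(1 / 4) : ℝ) * q ^ (27 / 7 : ℝ))) * 7 :=
        mul_le_mul_of_nonneg_left (geom_bound _) (by positivity)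
    _ = (2 : ℝ) ^ (15 / 4 : ℝ) * (280 * q ^ (15 / 4 : ℝ)) := by rw [hexp]; ring
    _ ≤ 14 * (280 * q ^ (15 / 4 : ℝ)) := mul_le_mul_of_nonneg_right h2154 (by positivity)
    _ ≤ _ := by
        have : 0 ≤ q ^ (15 / 4 : ℝ) := by positivity
        linarith

/-- extension estimate, normalised -/
theorem Adm.ext_one (H : Adm b ψ κ j) (f : V → ℂ) (hf : ∀ x, x ∉ lev b j → f x = 0)
    (h1 : ∑ x, ‖f x‖ ^ 2 = 1) (q : ℝ) (hq : q = Fintype.card F) :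
    ∑ m, ‖ft b ψ f m‖ ^ (15 / 4 : ℝ) ≤ 4003 * q ^ (15 / 4 : ℝ) := by
  have hq3 := H.q3
  rw [← hq] at hq3
  have hq0 : 0 < q := by linarith
  have hv := H.hv
  rw [← hq] at hv
  have hmid := H.middle b f hf h1 q hq
  have hsplit : ∀ m, ‖ft b ψ f m‖ ^ (15 / 4 : ℝ) ≤
      q ^ (3 / 4 : ℝ) * ‖ft b ψ f m‖ ^ 2 +
      (if q ^ (3 / 7 : ℝ) ≤ ‖ft b ψ f m‖ ∧ ‖ft b ψ f m‖ ^ 2 < 4 * q then
        ‖ft b ψ f m‖ ^ (15 / 4 : ℝ) else 0) +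
      (if 4 * q ≤ ‖ft b ψ f m‖ ^ 2 then q ^ (7 / 4 : ℝ) * ‖ft b ψ f m‖ ^ 2 else 0) := by
    intro m
    have hn : 0 ≤ ‖ft b ψ f m‖ := norm_nonneg _
    have e0 : 0 ≤ q ^ (3 / 4 : ℝ) * ‖ft b ψ f m‖ ^ 2 := by positivity
    have e1 : 0 ≤ (if q ^ (3 / 7 : ℝ) ≤ ‖ft b ψ f m‖ ∧ ‖ft b ψ f m‖ ^ 2 < 4 * q then
        ‖ft b ψ f m‖ ^ (15 / 4 : ℝ) else 0) := by split_ifs <;> positivity
    have e2 : 0 ≤ (if 4 * q ≤ ‖ft b ψ f m‖ ^ 2 then q ^ (7 / 4 : ℝ) * ‖ft b ψ f m‖ ^ 2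
        else 0) := by split_ifs <;> positivity
    have e3 : ‖ft b ψ f m‖ ^ (15 / 4 : ℝ) = ‖ft b ψ f m‖ ^ (7 / 4 : ℝ) * ‖ft b ψ f m‖ ^ 2 := by
      rw [← Real.rpow_natCast ‖ft b ψ f m‖ 2, ← Real.rpow_add_of_nonneg hn (by norm_num)
        (by norm_num)]
      norm_num
    rcases lt_or_ge ‖ft b ψ f m‖ (q ^ (3 / 7 : ℝ)) with hc | hc
    · have e4 : ‖ft b ψ f m‖ ^ (7 / 4 : ℝ) ≤ q ^ (3 / 4 : ℝ) := by
        have : q ^ (3 / 4 : ℝ) = (q ^ (3 / 7 : ℝ)) ^ (7 / 4 : ℝ) := by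
          rw [← Real.rpow_mul hq0.le]; norm_num
        rw [this]
        exact Real.rpow_le_rpow hn hc.le (by norm_num)
      have e5 := mul_le_mul_of_nonneg_right e4 (sq_nonneg ‖ft b ψ f m‖)
      rw [← e3] at e5
      linarith
    · rcases lt_or_ge (‖ft b ψ f m‖ ^ 2) (4 * q) with hc2 | hc2
      · rw [if_pos ⟨hc, hc2⟩]
        linarith
      · rw [if_pos hc2]
        have e4 : ‖ft b ψ f m‖ ^ (7 / 4 : ℝ) ≤ q ^ (7 / 4 : ℝ) := by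
          apply Real.rpow_le_rpow hn _ (by norm_num)
          rw [hq]; exact H.sup_le b f hf h1 m
        have e5 := mul_le_mul_of_nonneg_right e4 (sq_nonneg ‖ft b ψ f m‖)
        rw [← e3] at e5
        linarith
  have hlarge : ∑ m, (if 4 * q ≤ ‖ft b ψ f m‖ ^ 2 then q ^ (7 / 4 : ℝ) * ‖ft b ψ f m‖ ^ 2
      else 0) ≤ 2 * q ^ (15 / 4 : ℝ) := by
    rw [← Finset.sum_filter, ← Finset.mul_sum]
    have e1 := H.large b f hf h1 (univ.filter fun m => 4 * q ≤ ‖ft b ψ f m‖ ^ 2)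
      (Real.sqrt (4 * q)) (by positivity) ?_ ?_
    · rw [← hq] at e1
      have e2 : q ^ (15 / 4 : ℝ) = q ^ (7 / 4 : ℝ) * q ^ 2 := by
        rw [← Real.rpow_natCast q 2, ← Real.rpow_add hq0]; norm_num
      rw [e2]
      calc _ ≤ q ^ (7 / 4 : ℝ) * (2 * q ^ 2) := mul_le_mul_of_nonneg_left e1 (by positivity)
        _ = _ := by ring
    · intro m hm
      rw [Finset.mem_filter] at hm
      exact Real.sqrt_le_iff.mpr ⟨norm_nonneg _, hm.2⟩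
    · rw [Real.sq_sqrt (by positivity), hq]
  have hp := parseval b ψ H.hψ f
  rw [h1, mul_one, hv] at hp
  calc ∑ m, ‖ft b ψ f m‖ ^ (15 / 4 : ℝ)
      ≤ ∑ m, (q ^ (3 / 4 : ℝ) * ‖ft b ψ f m‖ ^ 2 +
      (if q ^ (3 / 7 : ℝ) ≤ ‖ft b ψ f m‖ ∧ ‖ft b ψ f m‖ ^ 2 < 4 * q then
        ‖ft b ψ f m‖ ^ (15 / 4 : ℝ) else 0) +
      (if 4 * q ≤ ‖ft b ψ f m‖ ^ 2 then q ^ (7 / 4 : ℝ) * ‖ft b ψ f m‖ ^ 2 else 0)) :=
        Finset.sum_le_sum fun m _ => hsplit m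
    _ = q ^ (3 / 4 : ℝ) * q ^ 3 + ∑ m with q ^ (3 / 7 : ℝ) ≤ ‖ft b ψ f m‖ ∧
          ‖ft b ψ f m‖ ^ 2 < 4 * q, ‖ft b ψ f m‖ ^ (15 / 4 : ℝ) +
        ∑ m, (if 4 * q ≤ ‖ft b ψ f m‖ ^ 2 then q ^ (7 / 4 : ℝ) * ‖ft b ψ f m‖ ^ 2 else 0) := by
        rw [Finset.sum_add_distrib, Finset.sum_add_distrib, ← Finset.mul_sum, hp,
          Finset.sum_filter]
    _ ≤ q ^ (15 / 4 : ℝ) + 4000 * q ^ (15 / 4 : ℝ) + 2 * q ^ (15 / 4 : ℝ) := by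
        have e1 : q ^ (3 / 4 : ℝ) * q ^ 3 = q ^ (15 / 4 : ℝ) := by
          rw [← Real.rpow_natCast q 3, ← Real.rpow_add hq0]; norm_num
        rw [e1]
        gcongr
    _ = _ := by ring

end Pool.Agent.H375R4
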