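import Pool.Agent.H375R4.Geom

set_option autoImplicit false
set_option linter.unusedSectionVars false

/-! # Restriction to isotropic planes and the large level sets -/

open Finset ComplexConjugate

namespace Pool.Agent.H375R4

variable {F : Type*} [Field F] [Fintype F] [DecidableEq F]
variable {V : Type*} [AddCommGroup V] [Module F V] [Fintype V] [DecidableEq V]
variable (b : SForm F V) {ψ : AddChar F ℂ}
variable {κ : ℝ} {j : F}

lemma norm_ft_sq (f : V → ℂ) (m : V) :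
    ((‖ft b ψ f m‖ ^ 2 : ℝ) : ℂ) = ∑ x, ∑ y, f x * conj (f y) * ψ (b.B m (y - x)) := by
  rw [Complex.ofReal_pow, ← Complex.mul_conj', ft, map_sum, Finset.sum_mul_sum]
  refine Finset.sum_congr rfl fun x _ => Finset.sum_congr rfl fun y _ => ?_
  rw [map_mul, conj_psi, neg_neg, b.sub_right, sub_eq_add_neg, AddChar.map_add_eq_mul]
  ring

lemma Adm.plane_parseval (H : Adm b ψ κ j) (f : V → ℂ) (hf : ∀ x, x ∉ lev b j → f x = 0)
    (e : V) (he : e ≠ 0) (hQ : b.Q e = 0) (c : F) :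
    ∑ m with b.B m e = c, ‖ft b ψ f m‖ ^ 2 =
      (Fintype.card V : ℝ) / Fintype.card F * ∑ x, ‖f x‖ ^ 2 := by
  have hq : (Fintype.card F : ℂ) ≠ 0 := by exact_mod_cast Fintype.card_ne_zero
  have h1 : (Fintype.card F : ℂ) * ((∑ m with b.B m e = c, ‖ft b ψ f m‖ ^ 2 : ℝ) : ℂ) =
      ∑ s : F, ψ (-(s * c)) * ∑ m, ψ (b.B m (s • e)) * ((‖ft b ψ f m‖ ^ 2 : ℝ) : ℂ) := by
    rw [Finset.sum_filter]
    push_cast
    have f1 : ∀ m : V, (if b.B m e = c then ((‖ft b ψ f m‖ : ℂ)) ^ 2 else 0) =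
        ((Fintype.card F : ℂ)⁻¹ * ∑ s : F, ψ (s * (b.B m e - c))) *
          ((‖ft b ψ f m‖ : ℂ)) ^ 2 := by
      intro m
      rw [← indicator_psi H.hψ]
      simp only [sub_eq_zero]
      split_ifs <;> simp
    have f2 : ∀ m : V, ((if b.B m e = c then ‖ft b ψ f m‖ ^ 2 else 0 : ℝ) : ℂ) =
        (if b.B m e = c then ((‖ft b ψ f m‖ : ℂ)) ^ 2 else 0) := by
      intro m; split_ifs <;> simp
    simp_rw [f2, f1]
    rw [Finset.mul_sum]
    have f3 : ∀ m : V, (Fintype.card F : ℂ) * (((Fintype.card F : ℂ)⁻¹ *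
        ∑ s : F, ψ (s * (b.B m e - c))) * ((‖ft b ψ f m‖ : ℂ)) ^ 2) =
        ∑ s : F, ψ (-(s * c)) * (ψ (b.B m (s • e)) * ((‖ft b ψ f m‖ : ℂ)) ^ 2) := by
      intro m
      rw [← mul_assoc, mul_inv_cancel_left₀ hq, Finset.sum_mul]
      refine Finset.sum_congr rfl fun s _ => ?_
      rw [← mul_assoc, ← AddChar.map_add_eq_mul, b.smul_right]
      congr 2; ring
    simp_rw [f3]
    rw [Finset.sum_comm]
    refine Finset.sum_congr rfl fun s _ => ?_
    rw [Finset.mul_sum]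
  have h2 : ∀ s : F, ∑ m, ψ (b.B m (s • e)) * ((‖ft b ψ f m‖ ^ 2 : ℝ) : ℂ) =
      ∑ x, ∑ y, f x * conj (f y) * (if y - x + s • e = 0 then (Fintype.card V : ℂ) else 0) := by
    intro s
    simp_rw [norm_ft_sq, Finset.mul_sum]
    rw [sum_rot3]
    refine Finset.sum_congr rfl fun x _ => Finset.sum_congr rfl fun y _ => ?_
    rw [← sum_V b H.hψ, Finset.mul_sum]
    refine Finset.sum_congr rfl fun m _ => ?_
    rw [b.add_right, AddChar.map_add_eq_mul]
    ring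
  have h3 : ∀ s : F, s ≠ 0 → ∑ x, ∑ y, f x * conj (f y) *
      (if y - x + s • e = 0 then (Fintype.card V : ℂ) else 0) = 0 := by
    intro s hs
    refine Finset.sum_eq_zero fun x _ => Finset.sum_eq_zero fun y _ => ?_
    by_cases hx : x ∈ lev b j
    · by_cases hy : y ∈ lev b j
      · rw [if_neg, mul_zero]
        intro h
        have hx' : b.Q x = j := by simpa [lev] using hx
        have hy' : b.Q y = j := by simpa [lev] using hy
        have hxy : y + s • e = x := by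
          have : y - x + s • e + x = x := by rw [h, zero_add]
          rw [← this]; abel
        apply H.no_iso_diff b y (s • e) hy' (by rw [hxy]; exact hx') (smul_ne_zero hs he)
        rw [b.Q_smul, hQ, mul_zero]
      · rw [hf y hy]; simp
    · rw [hf x hx]; simp
  have h4 : ∑ x, ∑ y, f x * conj (f y) *
      (if y - x + (0 : F) • e = 0 then (Fintype.card V : ℂ) else 0) =
      (Fintype.card V : ℂ) * ((∑ x, ‖f x‖ ^ 2 : ℝ) : ℂ) := by
    push_cast
    rw [Finset.mul_sum]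
    refine Finset.sum_congr rfl fun x _ => ?_
    simp only [zero_smul, add_zero, sub_eq_zero, mul_ite, mul_zero, Finset.sum_ite_eq',
      Finset.mem_univ, if_true]
    rw [← Complex.mul_conj']; ring
  simp_rw [h2] at h1
  rw [Finset.sum_eq_single (0 : F)] at h1
  · rw [h4] at h1
    apply Complex.ofReal_injective
    apply mul_left_cancel₀ hq
    rw [h1]
    push_cast
    simp only [zero_mul, neg_zero, AddChar.map_zero_eq_one, one_mul]
    field_simp
  · intro s _ hs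
    rw [h3 s hs, mul_zero]
  · simp

/-- few points of a level set of the transform in an isotropic plane -/
lemma Adm.plane_few (H : Adm b ψ κ j) (f : V → ℂ) (hf : ∀ x, x ∉ lev b j → f x = 0)
    (h1 : ∑ x, ‖f x‖ ^ 2 = 1) (e : V) (he : e ≠ 0) (hQ : b.Q e = 0) (c : F)
    (G : Finset V) (h : ℝ) (hh : 0 < h) (hG : ∀ m ∈ G, h ≤ ‖ft b ψ f m‖) :
    (#{m ∈ G | b.B m e = c} : ℝ) * h ^ 2 ≤ (Fintype.card F : ℝ) ^ 2 := by
  have hq0 : (0 : ℝ) < Fintype.card F := by exact_mod_cast Fintype.card_pos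
  have h2 := H.plane_parseval b f hf e he hQ c
  rw [h1, mul_one, H.hv] at h2
  have h3 : (#{m ∈ G | b.B m e = c} : ℝ) * h ^ 2 ≤
      ∑ m with b.B m e = c, ‖ft b ψ f m‖ ^ 2 := by
    rw [← nsmul_eq_mul, ← Finset.sum_const]
    refine (Finset.sum_le_sum (f := fun _ => h ^ 2) (g := fun m => ‖ft b ψ f m‖ ^ 2)
      fun m hm => ?_).trans (Finset.sum_le_sum_of_subset_of_nonneg ?_
        fun m _ _ => by positivity)
    · rw [Finset.mem_filter] at hm
      exact pow_le_pow_left₀ hh.le (hG m hm.1) 2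
    · intro m hm
      rw [Finset.mem_filter] at hm ⊢
      exact ⟨Finset.mem_univ _, hm.2⟩
  rw [h2] at h3
  refine h3.trans (le_of_eq ?_)
  field_simp

/-- the mass of the large values -/
lemma Adm.large (H : Adm b ψ κ j) (f : V → ℂ) (hf : ∀ x, x ∉ lev b j → f x = 0)
    (h1 : ∑ x, ‖f x‖ ^ 2 = 1) (G : Finset V) (h : ℝ) (hh : 0 < h)
    (hG : ∀ m ∈ G, h ≤ ‖ft b ψ f m‖) (h4 : 4 * (Fintype.card F : ℝ) ≤ h ^ 2) :
    ∑ m ∈ G, ‖ft b ψ f m‖ ^ 2 ≤ 2 * (Fintype.card F : ℝ) ^ 2 := by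
  have hq0 : (0 : ℝ) < Fintype.card F := by exact_mod_cast Fintype.card_pos
  set q : ℝ := (Fintype.card F : ℝ) with hq
  set E : ℝ := ∑ m ∈ G, ‖ft b ψ f m‖ ^ 2 with hE
  have hE0 : 0 ≤ E := Finset.sum_nonneg fun m _ => by positivity
  set U : V → ℂ := fun x => ∑ m ∈ G, conj (ft b ψ f m) * ψ (-(b.B m x)) with hU
  have e1 : (E : ℂ) = ∑ x ∈ lev b j, f x * U x := by
    rw [hE]
    push_cast
    have : ∀ m, ((‖ft b ψ f m‖ : ℂ)) ^ 2 =
        ∑ x ∈ lev b j, f x * (conj (ft b ψ f m) * ψ (-(b.B m x))) := by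
      intro m
      rw [← Complex.conj_mul']
      nth_rewrite 2 [ft]
      rw [Finset.mul_sum, ← Finset.sum_subset (Finset.subset_univ (lev b j))]
      · refine Finset.sum_congr rfl fun x _ => ?_
        ring
      · intro x _ hx
        rw [hf x hx]; simp
    simp_rw [this]
    rw [Finset.sum_comm]
    refine Finset.sum_congr rfl fun x _ => ?_
    rw [hU, Finset.mul_sum]
  have e2 : E ^ 2 ≤ ∑ x ∈ lev b j, ‖U x‖ ^ 2 := by
    have g1 : E ≤ ∑ x ∈ lev b j, ‖f x‖ * ‖U x‖ := by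
      have : E = ‖(E : ℂ)‖ := by rw [Complex.norm_real, Real.norm_of_nonneg hE0]
      rw [this, e1]
      refine (norm_sum_le _ _).trans (le_of_eq ?_)
      exact Finset.sum_congr rfl fun x _ => norm_mul _ _
    have g2 := Finset.sum_mul_sq_le_sq_mul_sq (lev b j) (fun z => ‖f z‖) (fun z => ‖U z‖)
    have g3 : ∑ z ∈ lev b j, ‖f z‖ ^ 2 ≤ 1 := by
      rw [← h1]
      exact Finset.sum_le_sum_of_subset_of_nonneg (Finset.subset_univ _)
        (fun _ _ _ => by positivity)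
    have g4 : 0 ≤ ∑ x ∈ lev b j, ‖U x‖ ^ 2 := Finset.sum_nonneg fun x _ => by positivity
    calc E ^ 2 ≤ (∑ x ∈ lev b j, ‖f x‖ * ‖U x‖) ^ 2 := pow_le_pow_left₀ hE0 g1 2
      _ ≤ _ := g2
      _ ≤ 1 * ∑ x ∈ lev b j, ‖U x‖ ^ 2 := mul_le_mul_of_nonneg_right g3 g4
      _ = _ := one_mul _
  have e3 : ((∑ x ∈ lev b j, ‖U x‖ ^ 2 : ℝ) : ℂ) = ∑ m ∈ G, ∑ m' ∈ G,
      conj (ft b ψ f m) * ft b ψ f m' * ∑ x ∈ lev b j, ψ (b.B (m' - m) x) := by
    push_cast
    have : ∀ x, ((‖U x‖ : ℂ)) ^ 2 = ∑ m ∈ G, ∑ m' ∈ G,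
        conj (ft b ψ f m) * ft b ψ f m' * ψ (b.B (m' - m) x) := by
      intro x
      rw [← Complex.mul_conj', hU, map_sum, Finset.sum_mul_sum]
      refine Finset.sum_congr rfl fun m _ => Finset.sum_congr rfl fun m' _ => ?_
      rw [map_mul, Complex.conj_conj, conj_psi, neg_neg, b.sub_left, sub_eq_add_neg,
        AddChar.map_add_eq_mul]
      ring
    simp_rw [this, Finset.mul_sum]
    rw [Finset.sum_comm]
    refine Finset.sum_congr rfl fun m _ => ?_
    rw [Finset.sum_comm]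
  have e4 : ∑ x ∈ lev b j, ‖U x‖ ^ 2 ≤ q ^ 2 * E + 2 * q * (∑ m ∈ G, ‖ft b ψ f m‖) ^ 2 := by
    have g0 : 0 ≤ ∑ x ∈ lev b j, ‖U x‖ ^ 2 := Finset.sum_nonneg fun x _ => by positivity
    have g1 : ∑ x ∈ lev b j, ‖U x‖ ^ 2 = ‖((∑ x ∈ lev b j, ‖U x‖ ^ 2 : ℝ) : ℂ)‖ := by
      rw [Complex.norm_real, Real.norm_of_nonneg g0]
    rw [g1, e3]
    have g2 : ∀ m ∈ G, ‖∑ m' ∈ G, conj (ft b ψ f m) * ft b ψ f m' *
        ∑ x ∈ lev b j, ψ (b.B (m' - m) x)‖ ≤
        q ^ 2 * ‖ft b ψ f m‖ ^ 2 + 2 * q * (‖ft b ψ f m‖ * ∑ m' ∈ G, ‖ft b ψ f m'‖) := by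
      intro m hm
      have g3 : ∀ m' ∈ G, ‖conj (ft b ψ f m) * ft b ψ f m' *
          ∑ x ∈ lev b j, ψ (b.B (m' - m) x)‖ ≤
          (if m' = m then q ^ 2 * ‖ft b ψ f m‖ ^ 2 else 0) +
            2 * q * (‖ft b ψ f m‖ * ‖ft b ψ f m'‖) := by
        intro m' _
        rw [norm_mul, norm_mul, RCLike.norm_conj]
        by_cases hmm : m' = m
        · subst hmm
          rw [if_pos rfl, sub_self]
          have : ‖∑ x ∈ lev b j, ψ (b.B 0 x)‖ ≤ q ^ 2 := by
            simp only [b.zero_left, AddChar.map_zero_eq_one, Finset.sum_const, nsmul_eq_mul,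
              mul_one, Complex.norm_natCast]
            rw [H.card_lev b]
            nlinarith
          have g5 : 0 ≤ ‖ft b ψ f m'‖ * ‖ft b ψ f m'‖ := by positivity
          nlinarith [mul_le_mul_of_nonneg_left this g5]
        · rw [if_neg hmm, zero_add]
          have := H.ft_lev b (m' - m) (sub_ne_zero.mpr hmm)
          have g5 : 0 ≤ ‖ft b ψ f m‖ * ‖ft b ψ f m'‖ := by positivity
          nlinarith [mul_le_mul_of_nonneg_left this g5]
      refine (norm_sum_le _ _).trans ((Finset.sum_le_sum g3).trans (le_of_eq ?_))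
      rw [Finset.sum_add_distrib, Finset.sum_ite_eq', if_pos hm, ← Finset.mul_sum,
        ← Finset.mul_sum]
    refine (norm_sum_le _ _).trans ((Finset.sum_le_sum g2).trans (le_of_eq ?_))
    rw [Finset.sum_add_distrib, ← Finset.mul_sum, ← Finset.mul_sum, ← Finset.sum_mul, sq (∑ m ∈ G, ‖ft b ψ f m‖)]
  have e5 : h * (∑ m ∈ G, ‖ft b ψ f m‖) ≤ E := by
    rw [hE, Finset.mul_sum]
    refine Finset.sum_le_sum fun m hm => ?_
    have := hG m hm
    nlinarith [norm_nonneg (ft b ψ f m)]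
  have e6 : h ^ 2 * (∑ m ∈ G, ‖ft b ψ f m‖) ^ 2 ≤ E ^ 2 := by
    rw [← mul_pow]
    exact pow_le_pow_left₀ (mul_nonneg hh.le (Finset.sum_nonneg fun m _ => norm_nonneg _)) e5 2
  have e7 : 4 * q * (∑ m ∈ G, ‖ft b ψ f m‖) ^ 2 ≤ E ^ 2 :=
    (mul_le_mul_of_nonneg_right h4 (by positivity)).trans e6
  have e8 : E ^ 2 ≤ 2 * q ^ 2 * E := by nlinarith
  by_contra hcon
  push Not at hcon
  have hEpos : 0 < E := by nlinarith [sq_nonneg q]
  nlinarith

end Pool.Agent.H375R4
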