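import Pool.Agent.H375R4.Basic
import Pool.Agent.H375R4.Third

set_option autoImplicit false
set_option linter.unusedSectionVars false

/-! # First trace inequality -/

open Finset ComplexConjugate

namespace Pool.Agent.H375R4

variable {F : Type*} [Field F] [Fintype F] [DecidableEq F]
variable {V : Type*} [AddCommGroup V] [Module F V] [Fintype V] [DecidableEq V]
variable (b : SForm F V) (ψ : AddChar F ℂ)

/-- restriction of `A` to the level `Q = t` -/
noncomputable def At (A : V → ℂ) (t : F) (x : V) : ℂ := if b.Q x = t then A x else 0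

lemma sum_At (A : V → ℂ) (x : V) : ∑ t, At b A t x = A x := by
  unfold At; simp

lemma sum_norm_At_sq (A : V → ℂ) : ∑ t, ∑ x, ‖At b A t x‖ ^ 2 = ∑ x, ‖A x‖ ^ 2 := by
  rw [Finset.sum_comm]
  refine Finset.sum_congr rfl fun x _ => ?_
  rw [Finset.sum_eq_single (b.Q x)]
  · simp [At]
  · intro t _ ht; simp [At, ht.symm]
  · simp

lemma sum_shift2 {M : Type*} [AddCommMonoid M] (T : V → V → M) :
    ∑ x, ∑ y, T x y = ∑ z, ∑ x, T x (z - x) := by
  rw [Finset.sum_comm (f := fun z x => T x (z - x))]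
  refine Finset.sum_congr rfl fun x _ => ?_
  rw [← Equiv.sum_comp (Equiv.subRight x)]
  rfl

lemma tri_n_bound (A : V → ℂ) (n : F → F → F → ℝ) (C : ℝ) (hn : ∀ a c e, |n a c e| ≤ C) :
    ‖∑ x, ∑ y, (n (b.Q x) (b.Q y) (b.Q (x + y)) : ℂ) * (A x * A y * A (-x - y))‖ ≤
      C * ∑ t₁, ∑ t₂, Real.sqrt (∑ x, ‖A x‖ ^ 2) *
        Real.sqrt (∑ z, ‖cv (At b A t₁) (At b A t₂) z‖ ^ 2) := by
  have hC : 0 ≤ C := (abs_nonneg _).trans (hn 0 0 0)
  rw [sum_shift2]
  have e : ∀ z : V, ∑ x, (n (b.Q x) (b.Q (z - x)) (b.Q (x + (z - x))) : ℂ) *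
      (A x * A (z - x) * A (-x - (z - x))) =
      A (-z) * ∑ t₁, ∑ t₂, (n t₁ t₂ (b.Q z) : ℂ) * cv (At b A t₁) (At b A t₂) z := by
    intro z
    unfold cv
    simp_rw [Finset.mul_sum]
    rw [sum_rot3 (fun t₁ t₂ x => A (-z) * ((n t₁ t₂ (b.Q z) : ℂ) *
      (At b A t₁ x * At b A t₂ (z - x)))), sum_rot3]
    refine Finset.sum_congr rfl fun x _ => ?_
    rw [Finset.sum_eq_single (b.Q x), Finset.sum_eq_single (b.Q (z - x))]
    · simp only [At, if_true]
      rw [show x + (z - x) = z by abel, show -x - (z - x) = -z by abel]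
      ring
    · intro t _ ht
      simp [At, ht.symm]
    · simp
    · intro t _ ht
      simp [At, ht.symm]
    · simp
  simp_rw [e]
  calc ‖∑ z, A (-z) * ∑ t₁, ∑ t₂, (n t₁ t₂ (b.Q z) : ℂ) * cv (At b A t₁) (At b A t₂) z‖
      ≤ ∑ z, ‖A (-z)‖ * ∑ t₁, ∑ t₂, C * ‖cv (At b A t₁) (At b A t₂) z‖ := by
        refine (norm_sum_le _ _).trans (Finset.sum_le_sum fun z _ => ?_)
        rw [norm_mul]
        refine mul_le_mul_of_nonneg_left ?_ (norm_nonneg _)
        refine (norm_sum_le _ _).trans (Finset.sum_le_sum fun t₁ _ => ?_)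
        refine (norm_sum_le _ _).trans (Finset.sum_le_sum fun t₂ _ => ?_)
        rw [norm_mul, Complex.norm_real, Real.norm_eq_abs]
        exact mul_le_mul_of_nonneg_right (hn _ _ _) (norm_nonneg _)
    _ = C * ∑ t₁, ∑ t₂, ∑ z, ‖A (-z)‖ * ‖cv (At b A t₁) (At b A t₂) z‖ := by
        simp_rw [Finset.mul_sum]
        rw [sum_rot3]
        refine Finset.sum_congr rfl fun t₁ _ => Finset.sum_congr rfl fun t₂ _ =>
          Finset.sum_congr rfl fun z _ => ?_
        ring
    _ ≤ _ := by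
        refine mul_le_mul_of_nonneg_left ?_ hC
        refine Finset.sum_le_sum fun t₁ _ => Finset.sum_le_sum fun t₂ _ => ?_
        refine (Real.sum_mul_le_sqrt_mul_sqrt _ _ _).trans (le_of_eq ?_)
        rw [← Equiv.sum_comp (Equiv.neg V) (fun z => ‖A z‖ ^ 2)]
        rfl

/-- sums over proportional pairs -/
lemma line_sum (K : V → ℂ) (C : ℝ) (hC : ∀ x, ‖K x‖ ≤ C) (hneg : ∀ x, ‖K (-x)‖ = ‖K x‖)
    (s : F) :
    ∑ x, ‖K x‖ * ‖K (s • x)‖ * ‖K (-x - s • x)‖ ≤ C * ∑ x, ‖K x‖ ^ 2 := by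
  by_cases hs : s = 0
  · subst hs
    rw [Finset.mul_sum]
    refine Finset.sum_le_sum fun x _ => ?_
    rw [zero_smul, sub_zero, hneg]
    nlinarith [hC 0, mul_nonneg (norm_nonneg (K x)) (norm_nonneg (K x))]
  · have hC0 : 0 ≤ C := (norm_nonneg _).trans (hC 0)
    calc ∑ x, ‖K x‖ * ‖K (s • x)‖ * ‖K (-x - s • x)‖
        ≤ ∑ x, (C / 2) * (‖K x‖ ^ 2 + ‖K (s • x)‖ ^ 2) := by
          refine Finset.sum_le_sum fun x _ => ?_
          have h1 : ‖K x‖ * ‖K (s • x)‖ ≤ (‖K x‖ ^ 2 + ‖K (s • x)‖ ^ 2) / 2 := by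
            nlinarith [sq_nonneg (‖K x‖ - ‖K (s • x)‖)]
          have h2 := hC (-x - s • x)
          calc ‖K x‖ * ‖K (s • x)‖ * ‖K (-x - s • x)‖
              ≤ ((‖K x‖ ^ 2 + ‖K (s • x)‖ ^ 2) / 2) * C :=
                mul_le_mul h1 h2 (norm_nonneg _) (by positivity)
            _ = _ := by ring
      _ = (C / 2) * (∑ x, ‖K x‖ ^ 2 + ∑ x, ‖K (s • x)‖ ^ 2) := by
          rw [← Finset.mul_sum, Finset.sum_add_distrib]
      _ = C * ∑ x, ‖K x‖ ^ 2 := by
          have : ∑ x, ‖K (s • x)‖ ^ 2 = ∑ x, ‖K x‖ ^ 2 := by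
            refine Fintype.sum_bijective (fun x => s • x) ?_ _ _ (fun x => rfl)
            exact (MulAction.bijective (Units.mk0 s hs : Fˣ))
          rw [this]; ring

section kmat

/-- convolution matrix compressed to `S` -/
def kmat (K : V → ℂ) (S : Finset V) : Matrix V V ℂ :=
  fun x y => if x ∈ S ∧ y ∈ S then K (x - y) else 0

lemma kmat_herm (K : V → ℂ) (S : Finset V) (hK : ∀ x, K (-x) = conj (K x)) :
    (kmat K S).IsHermitian := by
  ext x y
  simp only [Matrix.conjTranspose_apply, kmat]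
  by_cases h : x ∈ S ∧ y ∈ S
  · rw [if_pos h, if_pos h.symm, ← neg_sub, hK]
    simp
  · have h' : ¬ (y ∈ S ∧ x ∈ S) := fun h2 => h h2.symm
    rw [if_neg h, if_neg h']
    simp

/-- number of `ξ ∈ S` with `ξ + x ∈ S` and `ξ - y ∈ S` -/
def cnt3 (S : Finset V) (x y : V) : ℕ := #{ξ ∈ S | ξ + x ∈ S ∧ ξ - y ∈ S}

/-- number of `ξ ∈ S` with `ξ + x ∈ S` -/
def cnt2 (S : Finset V) (x : V) : ℕ := #{ξ ∈ S | ξ + x ∈ S}

lemma kmat_tr3 (K : V → ℂ) (S : Finset V) :
    (kmat K S * kmat K S * kmat K S).trace =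
      ∑ x, ∑ y, (cnt3 S x y : ℂ) * (K x * K y * K (-x - y)) := by
  have e1 : (kmat K S * kmat K S * kmat K S).trace =
      ∑ y, ∑ x, ∑ z, kmat K S x y * kmat K S y z * kmat K S z x := by
    simp only [Matrix.trace, Matrix.diag_apply, Matrix.mul_apply, Finset.sum_mul]
    rw [← sum_rot3 (fun y x z => kmat K S x y * kmat K S y z * kmat K S z x)]
  rw [e1]
  have e2 : ∀ y, ∑ x, ∑ z, kmat K S x y * kmat K S y z * kmat K S z x =
      ∑ d, ∑ e, (if y ∈ S ∧ y + d ∈ S ∧ y - e ∈ S then (1 : ℂ) else 0) *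
        (K d * K e * K (-d - e)) := by
    intro y
    rw [← Equiv.sum_comp (Equiv.addLeft y)]
    refine Finset.sum_congr rfl fun d _ => ?_
    rw [← Equiv.sum_comp (Equiv.subLeft y)]
    refine Finset.sum_congr rfl fun e _ => ?_
    simp only [Equiv.coe_addLeft, Equiv.subLeft_apply, kmat]
    by_cases h1 : y ∈ S <;> by_cases h2 : y + d ∈ S <;> by_cases h3 : y - e ∈ S <;>
      simp only [h1, h2, h3, and_self, and_true, and_false, true_and, false_and, if_true,
        if_false, mul_zero, zero_mul, one_mul, add_sub_cancel_left, sub_sub_cancel]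
    rw [show y - e - (y + d) = -d - e by abel]
  simp_rw [e2]
  rw [sum_rot3]
  refine Finset.sum_congr rfl fun d _ => Finset.sum_congr rfl fun e _ => ?_
  rw [← Finset.sum_mul]
  congr 1
  rw [Finset.sum_boole, cnt3]
  congr 2
  ext ξ; simp

lemma kmat_tr2 (K : V → ℂ) (S : Finset V) (hK : ∀ x, K (-x) = conj (K x)) :
    (kmat K S * kmat K S).trace = ((∑ x, (cnt2 S x : ℝ) * ‖K x‖ ^ 2 : ℝ) : ℂ) := by
  have e1 : (kmat K S * kmat K S).trace = ∑ y, ∑ x, kmat K S x y * kmat K S y x := by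
    simp only [Matrix.trace, Matrix.diag_apply, Matrix.mul_apply]
    rw [Finset.sum_comm]
  rw [e1]
  have e2 : ∀ y, ∑ x, kmat K S x y * kmat K S y x =
      ∑ d, (if y ∈ S ∧ y + d ∈ S then (1 : ℂ) else 0) * (‖K d‖ : ℂ) ^ 2 := by
    intro y
    rw [← Equiv.sum_comp (Equiv.addLeft y)]
    refine Finset.sum_congr rfl fun d _ => ?_
    rw [← Complex.mul_conj', ← hK]
    simp only [Equiv.coe_addLeft, kmat]
    by_cases h1 : y ∈ S <;> by_cases h2 : y + d ∈ S <;>
      simp only [h1, h2, and_self, and_true, and_false, if_true,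
        if_false, mul_zero, zero_mul, one_mul, add_sub_cancel_left]
    rw [show y - (y + d) = -d by abel]
  simp_rw [e2]
  rw [Finset.sum_comm]
  push_cast
  refine Finset.sum_congr rfl fun d _ => ?_
  rw [← Finset.sum_mul]
  congr 1
  rw [Finset.sum_boole, cnt2]
  congr 2
  ext ξ; simp

/-- quadratic form of the compressed kernel of a nonnegative weight -/
lemma kmat_quad (w : V → ℝ) (S : Finset V) (u : V → ℂ) :
    ∑ x, ∑ y, conj (u x) * kmat (ker b ψ w) S x y * u y =
      (((Fintype.card V : ℝ)⁻¹ *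
        ∑ m, w m * ‖ft b ψ (fun x => if x ∈ S then u x else 0) m‖ ^ 2 : ℝ) : ℂ) := by
  rw [← ker_quad]
  refine Finset.sum_congr rfl fun x _ => Finset.sum_congr rfl fun y _ => ?_
  by_cases h1 : x ∈ S <;> by_cases h2 : y ∈ S <;> simp [kmat, h1, h2]

/-- the kernel without its diagonal -/
noncomputable def ker0 (w : V → ℝ) (x : V) : ℂ := if x = 0 then 0 else ker b ψ w x

lemma ker0_neg (w : V → ℝ) (x : V) : ker0 b ψ w (-x) = conj (ker0 b ψ w x) := by
  unfold ker0
  by_cases h : x = 0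
  · simp [h]
  · simp [h, ker_neg]

lemma kmat0_quad (w : V → ℝ) (S : Finset V) (u : V → ℂ) :
    ∑ x, ∑ y, conj (u x) * kmat (ker0 b ψ w) S x y * u y =
      (((Fintype.card V : ℝ)⁻¹ *
        ∑ m, w m * ‖ft b ψ (fun x => if x ∈ S then u x else 0) m‖ ^ 2 -
        ((Fintype.card V : ℝ)⁻¹ * ∑ m, w m) * ∑ x, ‖if x ∈ S then u x else 0‖ ^ 2 : ℝ) : ℂ) := by
  rw [Complex.ofReal_sub, ← kmat_quad, Complex.ofReal_mul, ← ker_zero b ψ w, eq_sub_iff_add_eq]
  push_cast
  rw [Finset.mul_sum, ← Finset.sum_add_distrib]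
  refine Finset.sum_congr rfl fun x _ => ?_
  by_cases hx : x ∈ S
  · have e : ∀ y, conj (u x) * kmat (ker b ψ w) S x y * u y =
        conj (u x) * kmat (ker0 b ψ w) S x y * u y +
          (if y = x then ker b ψ w 0 * (‖u x‖ : ℂ) ^ 2 else 0) := by
      intro y
      by_cases hy : y = x
      · subst hy
        rw [← Complex.conj_mul']
        simp only [kmat, ker0, hx, and_self, if_true, sub_self, mul_zero, zero_mul, zero_add]
        ring
      · have : x - y ≠ 0 := fun h => hy (sub_eq_zero.mp h).symm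
        simp [kmat, ker0, hy, this]
    simp_rw [e, Finset.sum_add_distrib]
    simp [hx]
  · have e : ∀ y, kmat (ker b ψ w) S x y = 0 := fun y => by simp [kmat, hx]
    have e' : ∀ y, kmat (ker0 b ψ w) S x y = 0 := fun y => by simp [kmat, hx]
    simp [e, e', hx]

end kmat

section dep

/-- proportional pairs -/
def Dep (F : Type*) {V : Type*} [Field F] [AddCommGroup V] [Module F V] (x y : V) : Prop :=
  x = 0 ∨ ∃ s : F, y = s • x

open scoped Classical in
lemma dep_sum (K : V → ℂ) (C : ℝ) (hC : ∀ x, ‖K x‖ ≤ C) (hneg : ∀ x, ‖K (-x)‖ = ‖K x‖) :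
    ∑ x, ∑ y, (if Dep F x y then ‖K x‖ * ‖K y‖ * ‖K (-x - y)‖ else 0) ≤
      ((Fintype.card F : ℝ) + 1) * (C * ∑ x, ‖K x‖ ^ 2) := by
  have h1 : ∀ x y : V, (if Dep F x y then ‖K x‖ * ‖K y‖ * ‖K (-x - y)‖ else 0) ≤
      (if x = 0 then ‖K x‖ * ‖K y‖ * ‖K (-x - y)‖ else 0) +
        ∑ s : F, (if y = s • x then ‖K x‖ * ‖K y‖ * ‖K (-x - y)‖ else 0) := by
    intro x y
    have hT : 0 ≤ ‖K x‖ * ‖K y‖ * ‖K (-x - y)‖ := by positivity
    have hs0 : 0 ≤ ∑ s : F, (if y = s • x then ‖K x‖ * ‖K y‖ * ‖K (-x - y)‖ else 0) :=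
      Finset.sum_nonneg fun s _ => by split_ifs <;> simp [hT]
    by_cases hd : Dep F x y
    · rw [if_pos hd]
      rcases hd with h | ⟨s, hs⟩
      · rw [if_pos h]; linarith
      · have : ‖K x‖ * ‖K y‖ * ‖K (-x - y)‖ ≤
            ∑ s : F, (if y = s • x then ‖K x‖ * ‖K y‖ * ‖K (-x - y)‖ else 0) := by
          refine le_trans ?_ (Finset.single_le_sum (f := fun s : F =>
            (if y = s • x then ‖K x‖ * ‖K y‖ * ‖K (-x - y)‖ else 0))
            (fun s _ => by split_ifs <;> simp [hT]) (Finset.mem_univ s))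
          rw [if_pos hs]
        split_ifs <;> linarith
    · rw [if_neg hd]
      split_ifs <;> linarith
  calc ∑ x, ∑ y, (if Dep F x y then ‖K x‖ * ‖K y‖ * ‖K (-x - y)‖ else 0)
      ≤ ∑ x, ∑ y, ((if x = 0 then ‖K x‖ * ‖K y‖ * ‖K (-x - y)‖ else 0) +
        ∑ s : F, (if y = s • x then ‖K x‖ * ‖K y‖ * ‖K (-x - y)‖ else 0)) :=
        Finset.sum_le_sum fun x _ => Finset.sum_le_sum fun y _ => h1 x y
    _ = (∑ y, ‖K 0‖ * ‖K y‖ * ‖K (-y)‖) +
        ∑ s : F, ∑ x, ‖K x‖ * ‖K (s • x)‖ * ‖K (-x - s • x)‖ := by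
        simp_rw [Finset.sum_add_distrib]
        congr 1
        · rw [Finset.sum_eq_single (0 : V)]
          · simp
          · intro x _ hx; simp [hx]
          · simp
        · rw [← sum_rot3]
          refine Finset.sum_congr rfl fun s _ => Finset.sum_congr rfl fun x _ => ?_
          simp
    _ ≤ C * ∑ x, ‖K x‖ ^ 2 + ∑ s : F, C * ∑ x, ‖K x‖ ^ 2 := by
        refine add_le_add ?_ (Finset.sum_le_sum fun s _ => line_sum K C hC hneg s)
        rw [Finset.mul_sum]
        refine Finset.sum_le_sum fun y _ => ?_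
        rw [hneg]
        nlinarith [hC 0, mul_nonneg (norm_nonneg (K y)) (norm_nonneg (K y))]
    _ = _ := by
        rw [Finset.sum_const, Finset.card_univ, nsmul_eq_mul]; ring

end dep

section main

variable {b ψ}

open scoped Classical in
/-- First trace inequality, abstract form: `S` has the counting properties of an admissible
sphere in dimension three. -/
theorem stage1 (K : V → ℂ) (L : ℝ) (hL0 : 0 ≤ L) (hKn : ∀ x, K (-x) = conj (K x))
    (hKL : ∀ x, ‖K x‖ ≤ L) (hK2 : ∑ x, ‖K x‖ ^ 2 ≤ L) (S : Finset V) (q : ℝ)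
    (hq : q = Fintype.card F)
    (hS2 : ∀ x : V, x ≠ 0 → (cnt2 S x : ℝ) ≤ 2 * q)
    (hS3 : ∀ x y : V, Dep F x y → x ≠ 0 → y ≠ 0 → x + y ≠ 0 → cnt3 S x y = 0)
    (n : F → F → F → ℝ) (hn0 : ∀ a c e, |n a c e| ≤ 2)
    (hn : ∀ x y : V, ¬ Dep F x y → (cnt3 S x y : ℝ) = n (b.Q x) (b.Q y) (b.Q (x + y))) :
    (kmat K S * kmat K S * kmat K S).trace.re ≤
      3 * #S * L ^ 3 + 6 * q * L ^ 2 + 2 * (q + 1) * L ^ 2 +
      2 * ∑ t₁, ∑ t₂, Real.sqrt L * Real.sqrt (∑ z, ‖cv (At b K t₁) (At b K t₂) z‖ ^ 2) := by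
  have hnegn : ∀ x, ‖K (-x)‖ = ‖K x‖ := fun x => by rw [hKn]; simp
  have hcnt_neg : ∀ x : V, cnt2 S (-x) = cnt2 S x := by
    intro x
    unfold cnt2
    refine Finset.card_bij (fun ξ _ => ξ - x) ?_ ?_ ?_
    · intro ξ hξ
      simp only [Finset.mem_filter] at hξ ⊢
      rw [← sub_eq_add_neg] at hξ
      exact ⟨hξ.2, by simpa using hξ.1⟩
    · intro a _ c _ h; simpa using h
    · intro ξ hξ
      simp only [Finset.mem_filter] at hξ
      exact ⟨ξ + x, by simp only [Finset.mem_filter]; simpa using hξ.symm, by simp⟩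
  set T : V → V → ℝ := fun x y => ‖K x‖ * ‖K y‖ * ‖K (-x - y)‖ with hT
  have hT0 : ∀ x y, 0 ≤ T x y := fun x y => by positivity
  -- the degenerate part
  have hdeg : ‖∑ x, ∑ y, (((cnt3 S x y : ℝ) - n (b.Q x) (b.Q y) (b.Q (x + y)) : ℝ) : ℂ) *
      (K x * K y * K (-x - y))‖ ≤ 3 * #S * L ^ 3 + 6 * q * L ^ 2 + 2 * (q + 1) * L ^ 2 := by
    have hpt : ∀ x y : V, ‖(((cnt3 S x y : ℝ) - n (b.Q x) (b.Q y) (b.Q (x + y)) : ℝ) : ℂ) *
        (K x * K y * K (-x - y))‖ ≤
        2 * (if Dep F x y then T x y else 0) +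
          ((if x = 0 then (cnt2 S y : ℝ) * T x y else 0) +
          (if y = 0 then (cnt2 S x : ℝ) * T x y else 0) +
          (if y = -x then (cnt2 S x : ℝ) * T x y else 0)) := by
      intro x y
      rw [norm_mul, Complex.norm_real, Real.norm_eq_abs, norm_mul, norm_mul]
      change _ * T x y ≤ _
      have hTT := hT0 x y
      by_cases hd : Dep F x y
      · rw [if_pos hd]
        have habs : |(cnt3 S x y : ℝ) - n (b.Q x) (b.Q y) (b.Q (x + y))| ≤ cnt3 S x y + 2 := by
          have := hn0 (b.Q x) (b.Q y) (b.Q (x + y))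
          have h3 : (0 : ℝ) ≤ cnt3 S x y := by positivity
          rw [abs_le] at this ⊢
          constructor <;> linarith [this.1, this.2]
        have hc3 : (cnt3 S x y : ℝ) * T x y ≤
            ((if x = 0 then (cnt2 S y : ℝ) * T x y else 0) +
            (if y = 0 then (cnt2 S x : ℝ) * T x y else 0) +
            (if y = -x then (cnt2 S x : ℝ) * T x y else 0)) := by
          have p1 : 0 ≤ (if x = 0 then (cnt2 S y : ℝ) * T x y else 0) := by
            split_ifs <;> positivity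
          have p2 : 0 ≤ (if y = 0 then (cnt2 S x : ℝ) * T x y else 0) := by
            split_ifs <;> positivity
          have p3 : 0 ≤ (if y = -x then (cnt2 S x : ℝ) * T x y else 0) := by
            split_ifs <;> positivity
          by_cases hx : x = 0
          · have : (cnt3 S x y : ℝ) ≤ cnt2 S y := by
              rw [← hcnt_neg y]
              have : cnt3 S x y ≤ cnt2 S (-y) := by
                unfold cnt3 cnt2
                refine Finset.card_le_card fun ξ hξ => ?_
                simp only [Finset.mem_filter, sub_eq_add_neg] at hξ ⊢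
                exact ⟨hξ.1, hξ.2.2⟩
              exact_mod_cast this
            have h4 := mul_le_mul_of_nonneg_right this hTT
            rw [if_pos hx] at p1 ⊢
            linarith
          by_cases hy : y = 0
          · have : (cnt3 S x y : ℝ) ≤ cnt2 S x := by
              have : cnt3 S x y ≤ cnt2 S x := by
                unfold cnt3 cnt2
                refine Finset.card_le_card fun ξ hξ => ?_
                simp only [Finset.mem_filter] at hξ ⊢
                exact ⟨hξ.1, hξ.2.1⟩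
              exact_mod_cast this
            have h4 := mul_le_mul_of_nonneg_right this hTT
            rw [if_pos hy] at p2 ⊢
            linarith
          by_cases hxy : y = -x
          · have : (cnt3 S x y : ℝ) ≤ cnt2 S x := by
              have : cnt3 S x y ≤ cnt2 S x := by
                unfold cnt3 cnt2
                refine Finset.card_le_card fun ξ hξ => ?_
                simp only [Finset.mem_filter] at hξ ⊢
                exact ⟨hξ.1, hξ.2.1⟩
              exact_mod_cast this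
            have h4 := mul_le_mul_of_nonneg_right this hTT
            rw [if_pos hxy] at p3 ⊢
            linarith
          · have h0 : cnt3 S x y = 0 := hS3 x y hd hx hy
              (fun h => hxy (by rw [eq_neg_iff_add_eq_zero, add_comm]; exact h))
            rw [h0]; simp only [Nat.cast_zero, zero_mul]
            linarith
        calc _ ≤ ((cnt3 S x y : ℝ) + 2) * T x y := mul_le_mul_of_nonneg_right habs hTT
          _ ≤ _ := by linarith
      · rw [hn x y hd, sub_self, abs_zero, zero_mul, if_neg hd]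
        have p1 : 0 ≤ (if x = 0 then (cnt2 S y : ℝ) * T x y else 0) := by
          split_ifs <;> positivity
        have p2 : 0 ≤ (if y = 0 then (cnt2 S x : ℝ) * T x y else 0) := by
          split_ifs <;> positivity
        have p3 : 0 ≤ (if y = -x then (cnt2 S x : ℝ) * T x y else 0) := by
          split_ifs <;> positivity
        linarith
    have hsum2 : ∑ x, (cnt2 S x : ℝ) * (L * ‖K x‖ ^ 2) ≤ #S * L ^ 3 + 2 * q * L ^ 2 := by
      have e0 : ∀ x : V, (cnt2 S x : ℝ) * (L * ‖K x‖ ^ 2) ≤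
          (if x = 0 then (#S : ℝ) * L ^ 3 else 0) + 2 * q * (L * ‖K x‖ ^ 2) := by
        intro x
        have hq0 : 0 ≤ q := by rw [hq]; positivity
        have hp : 0 ≤ L * ‖K x‖ ^ 2 := by positivity
        by_cases hx : x = 0
        · rw [if_pos hx]
          have h1 : (cnt2 S x : ℝ) ≤ #S := by
            exact_mod_cast Finset.card_filter_le _ _
          have h2 : L * ‖K x‖ ^ 2 ≤ L ^ 3 := by
            have : ‖K x‖ ^ 2 ≤ L ^ 2 := pow_le_pow_left₀ (norm_nonneg _) (hKL x) 2
            nlinarith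
          have h3 : (cnt2 S x : ℝ) * (L * ‖K x‖ ^ 2) ≤ #S * L ^ 3 :=
            mul_le_mul h1 h2 hp (by positivity)
          have : 0 ≤ 2 * q * (L * ‖K x‖ ^ 2) := by positivity
          linarith
        · rw [if_neg hx, zero_add]
          exact mul_le_mul_of_nonneg_right (hS2 x hx) hp
      calc _ ≤ ∑ x : V, ((if x = 0 then (#S : ℝ) * L ^ 3 else 0) +
            2 * q * (L * ‖K x‖ ^ 2)) := Finset.sum_le_sum fun x _ => e0 x
        _ = #S * L ^ 3 + 2 * q * (L * ∑ x, ‖K x‖ ^ 2) := by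
            rw [Finset.sum_add_distrib, ← Finset.mul_sum, ← Finset.mul_sum]
            simp
        _ ≤ _ := by
            have hq0 : 0 ≤ q := by rw [hq]; positivity
            have : L * ∑ x, ‖K x‖ ^ 2 ≤ L * L := mul_le_mul_of_nonneg_left hK2 hL0
            nlinarith
    have hdep := dep_sum (F := F) K L hKL hnegn
    calc _ ≤ ∑ x, ∑ y, (2 * (if Dep F x y then T x y else 0) +
          ((if x = 0 then (cnt2 S y : ℝ) * T x y else 0) +
          (if y = 0 then (cnt2 S x : ℝ) * T x y else 0) +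
          (if y = -x then (cnt2 S x : ℝ) * T x y else 0))) := by
          refine (norm_sum_le _ _).trans (Finset.sum_le_sum fun x _ => ?_)
          exact (norm_sum_le _ _).trans (Finset.sum_le_sum fun y _ => hpt x y)
      _ = 2 * ∑ x, ∑ y, (if Dep F x y then T x y else 0) +
          (∑ y, (cnt2 S y : ℝ) * T 0 y + ∑ x, (cnt2 S x : ℝ) * T x 0 +
            ∑ x, (cnt2 S x : ℝ) * T x (-x)) := by
          simp_rw [Finset.sum_add_distrib, ← Finset.mul_sum]
          congr 2
          · congr 1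
            · rw [Finset.sum_eq_single (0 : V)]
              · simp
              · intro x _ hx; simp [hx]
              · simp
            · refine Finset.sum_congr rfl fun x _ => ?_
              simp
          · refine Finset.sum_congr rfl fun x _ => ?_
            simp
      _ ≤ 2 * (((Fintype.card F : ℝ) + 1) * (L * ∑ x, ‖K x‖ ^ 2)) +
          (∑ x, (cnt2 S x : ℝ) * (L * ‖K x‖ ^ 2) + ∑ x, (cnt2 S x : ℝ) * (L * ‖K x‖ ^ 2) +
            ∑ x, (cnt2 S x : ℝ) * (L * ‖K x‖ ^ 2)) := by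
          refine add_le_add (mul_le_mul_of_nonneg_left hdep (by norm_num)) ?_
          refine add_le_add (add_le_add ?_ ?_) ?_
          all_goals
            refine Finset.sum_le_sum fun x _ => ?_
            refine mul_le_mul_of_nonneg_left ?_ (by positivity)
            simp only [hT, neg_zero, zero_sub, sub_zero, sub_neg_eq_add, neg_add_cancel, hnegn]
            have := hKL 0
            nlinarith [mul_nonneg (norm_nonneg (K x)) (norm_nonneg (K x))]
      _ ≤ _ := by
          have hq0 : 0 ≤ q := by rw [hq]; positivity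
          rw [← hq]
          have : L * ∑ x, ‖K x‖ ^ 2 ≤ L * L := mul_le_mul_of_nonneg_left hK2 hL0
          nlinarith
  have hmain := tri_n_bound b K n 2 hn0
  have hsplit : (kmat K S * kmat K S * kmat K S).trace =
      (∑ x, ∑ y, (((cnt3 S x y : ℝ) - n (b.Q x) (b.Q y) (b.Q (x + y)) : ℝ) : ℂ) *
      (K x * K y * K (-x - y))) +
      ∑ x, ∑ y, (n (b.Q x) (b.Q y) (b.Q (x + y)) : ℂ) * (K x * K y * K (-x - y)) := by
    rw [kmat_tr3, ← Finset.sum_add_distrib]
    refine Finset.sum_congr rfl fun x _ => ?_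
    rw [← Finset.sum_add_distrib]
    refine Finset.sum_congr rfl fun y _ => ?_
    push_cast
    ring
  calc (kmat K S * kmat K S * kmat K S).trace.re
      ≤ ‖(kmat K S * kmat K S * kmat K S).trace‖ := Complex.re_le_norm _
    _ ≤ _ + _ := by rw [hsplit]; exact norm_add_le _ _
    _ ≤ _ := by
        refine add_le_add hdeg (hmain.trans ?_)
        refine mul_le_mul_of_nonneg_left ?_ (by norm_num)
        refine Finset.sum_le_sum fun t₁ _ => Finset.sum_le_sum fun t₂ _ => ?_
        exact mul_le_mul_of_nonneg_right (Real.sqrt_le_sqrt hK2) (Real.sqrt_nonneg _)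

end main

end Pool.Agent.H375R4
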