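import Pool.Agent.H375R4.Stage2b

set_option autoImplicit false
set_option linter.unusedSectionVars false

/-! # The radial square function of a set -/

open Finset ComplexConjugate

namespace Pool.Agent.H375R4

variable {F : Type*} [Field F] [Fintype F] [DecidableEq F]
variable {V : Type*} [AddCommGroup V] [Module F V] [Fintype V] [DecidableEq V]
variable (b : SForm F V) {ψ : AddChar F ℂ}

lemma fiber_pair {X : Type*} [Fintype X] (hψ : ψ ≠ 1) (g : X → ℂ) (φ : X → F) :
    ((∑ r, ‖∑ x, g x * ψ (r * φ x)‖ ^ 2 : ℝ) : ℂ) =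
      Fintype.card F * ∑ x, ∑ y, if φ x = φ y then g x * conj (g y) else 0 := by
  push_cast
  have e1 : ∀ r, (‖∑ x, g x * ψ (r * φ x)‖ : ℂ) ^ 2 =
      ∑ x, ∑ y, g x * conj (g y) * ψ (r * (φ x - φ y)) := by
    intro r
    rw [← Complex.mul_conj', map_sum, Finset.sum_mul_sum]
    refine Finset.sum_congr rfl fun x _ => Finset.sum_congr rfl fun y _ => ?_
    rw [RingHom.map_mul, conj_psi, mul_sub, sub_eq_add_neg, AddChar.map_add_eq_mul]
    ring
  simp_rw [e1]
  rw [sum_rot3, Finset.mul_sum]
  refine Finset.sum_congr rfl fun x _ => ?_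
  rw [Finset.mul_sum]
  refine Finset.sum_congr rfl fun y _ => ?_
  rw [← Finset.mul_sum, sum_F hψ]
  by_cases h : φ x = φ y
  · simp [h]; ring
  · simp [h, sub_eq_zero]

lemma level_pair {X : Type*} [Fintype X] (g : X → ℂ) (φ : X → F) :
    ((∑ t, ‖∑ x, if φ x = t then g x else 0‖ ^ 2 : ℝ) : ℂ) =
      ∑ x, ∑ y, if φ x = φ y then g x * conj (g y) else 0 := by
  push_cast
  have e1 : ∀ t, (‖∑ x, if φ x = t then g x else 0‖ : ℂ) ^ 2 =
      ∑ x, ∑ y, if φ x = t then (if φ y = t then g x * conj (g y) else 0) else 0 := by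
    intro t
    rw [← Complex.mul_conj', map_sum, Finset.sum_mul_sum]
    refine Finset.sum_congr rfl fun x _ => Finset.sum_congr rfl fun y _ => ?_
    by_cases h : φ x = t <;> by_cases h' : φ y = t <;> simp [h, h']
  simp_rw [e1]
  rw [sum_rot3]
  refine Finset.sum_congr rfl fun x _ => Finset.sum_congr rfl fun y _ => ?_
  rw [Finset.sum_eq_single (φ x)]
  · simp [eq_comm]
  · intro t _ ht; simp [ht.symm]
  · simp

/-- indicator of a finite set as a real function -/
noncomputable def ind (G : Finset V) (m : V) : ℝ := if m ∈ G then 1 else 0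

lemma ind_nonneg (G : Finset V) (m : V) : 0 ≤ ind G m := by unfold ind; split_ifs <;> norm_num

lemma ind_sq (G : Finset V) (m : V) : ind G m ^ 2 = ind G m := by unfold ind; split_ifs <;> norm_num

lemma sum_ind (G : Finset V) : ∑ m, ind G m = #G := by
  unfold ind; simp

/-- pairs of points of `G` equidistant from `m` -/
noncomputable def Psi (G : Finset V) (m : V) : ℝ :=
  ∑ x ∈ G, ∑ y ∈ G, if b.Q (x - m) = b.Q (y - m) then 1 else 0

lemma sum_neg_inv (h2 : (2 : F) ≠ 0) (f : F → ℝ) :
    ∑ r with r ≠ 0, f (-(4 * r)⁻¹) = ∑ r with r ≠ 0, f r := by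
  have h4 : (4 : F) ≠ 0 := by
    have : (4 : F) = 2 * 2 := by norm_num
    rw [this]; exact mul_ne_zero h2 h2
  refine Finset.sum_bij' (fun r _ => -(4 * r)⁻¹) (fun r _ => -(4 * r)⁻¹) ?_ ?_ ?_ ?_ ?_
  · intro r hr
    simp only [Finset.mem_filter, Finset.mem_univ, true_and] at hr ⊢
    exact neg_ne_zero.mpr (inv_ne_zero (mul_ne_zero h4 hr))
  · intro r hr
    simp only [Finset.mem_filter, Finset.mem_univ, true_and] at hr ⊢
    exact neg_ne_zero.mpr (inv_ne_zero (mul_ne_zero h4 hr))
  · intro r hr
    simp only [Finset.mem_filter, Finset.mem_univ, true_and] at hr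
    field_simp
  · intro r hr
    simp only [Finset.mem_filter, Finset.mem_univ, true_and] at hr
    field_simp
  · intro r _; rfl

/-- the radial square function of the set `G`, exact formula -/
lemma wu_eq (hψ : ψ ≠ 1) (h2 : (2 : F) ≠ 0) (G : Finset V) (m : V) :
    ∑ t, ‖ft b ψ (At b (ker b ψ (ind G)) t) m‖ ^ 2 =
      (Fintype.card F : ℝ)⁻¹ * ind G m + (Fintype.card V : ℝ)⁻¹ * Psi b G m -
        (Fintype.card F : ℝ)⁻¹ * (Fintype.card V : ℝ)⁻¹ * (#G : ℝ) ^ 2 := by
  have hv : (0 : ℝ) < Fintype.card V := by exact_mod_cast Fintype.card_pos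
  have hvC : (Fintype.card V : ℂ) ≠ 0 := by exact_mod_cast Fintype.card_ne_zero
  have hq : (0 : ℝ) < Fintype.card F := by exact_mod_cast Fintype.card_pos
  set A := ker b ψ (ind G) with hA
  set g : V → ℂ := fun δ => A δ * ψ (-(b.B m δ)) with hg
  have e1 : ∀ t, ft b ψ (At b A t) m = ∑ x, if b.Q x = t then g x else 0 := by
    intro t
    unfold ft At
    refine Finset.sum_congr rfl fun x _ => ?_
    split_ifs <;> simp [hg]
  have e2 : ∑ t, ‖ft b ψ (At b A t) m‖ ^ 2 =
      (Fintype.card F : ℝ)⁻¹ * ∑ r, ‖∑ x, g x * ψ (r * b.Q x)‖ ^ 2 := by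
    apply Complex.ofReal_injective
    simp_rw [e1]
    rw [level_pair, Complex.ofReal_mul, fiber_pair hψ g b.Q]
    push_cast
    field_simp
  have e3 : ∀ r, r ≠ 0 → ‖∑ x, g x * ψ (r * b.Q x)‖ ^ 2 =
      (Fintype.card V : ℝ)⁻¹ * ‖∑ x, (ind G x : ℂ) * ψ (-(4 * r)⁻¹ * b.Q (x - m))‖ ^ 2 := by
    intro r hr
    have : ∑ x, g x * ψ (r * b.Q x) = (Fintype.card V : ℂ)⁻¹ * (gam b ψ r *
        ∑ x, (ind G x : ℂ) * ψ (-(4 * r)⁻¹ * b.Q (x - m))) := by
      have f1 : ∀ x, g x * ψ (r * b.Q x) = (Fintype.card V : ℂ)⁻¹ *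
          ∑ y, (ind G y : ℂ) * ψ (r * b.Q x + b.B x (y - m)) := by
        intro x
        simp only [hg, hA, ker]
        rw [mul_assoc, mul_assoc, Finset.sum_mul]
        congr 1
        refine Finset.sum_congr rfl fun y _ => ?_
        rw [mul_assoc, ← AddChar.map_add_eq_mul, ← AddChar.map_add_eq_mul, b.sub_right,
          b.symm x y, b.symm x m]
        congr 2; ring
      simp_rw [f1, ← Finset.mul_sum]
      congr 1
      rw [Finset.sum_comm, Finset.mul_sum]
      refine Finset.sum_congr rfl fun y _ => ?_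
      rw [← Finset.mul_sum, gauss_shift b ψ h2 hr]
      have : -(b.Q (y - m)) / (4 * r) = -(4 * r)⁻¹ * b.Q (y - m) := by
        rw [div_eq_mul_inv]; ring
      rw [this]; ring
    rw [this, norm_mul, norm_mul, norm_inv, Complex.norm_natCast, mul_pow, mul_pow,
      norm_gam_sq b ψ h2 hψ hr]
    field_simp
  have e4 : ‖∑ x, g x * ψ (0 * b.Q x)‖ ^ 2 = ind G m := by
    have : ∑ x, g x * ψ (0 * b.Q x) = ft b ψ A m := by
      unfold ft
      refine Finset.sum_congr rfl fun x _ => ?_
      simp [hg]
    rw [this, hA, ft_ker b ψ hψ, Complex.norm_real, Real.norm_eq_abs, sq_abs, ind_sq]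
  have e5 : ∑ r, ‖∑ x, (ind G x : ℂ) * ψ (r * b.Q (x - m))‖ ^ 2 =
      Fintype.card F * Psi b G m := by
    apply Complex.ofReal_injective
    rw [fiber_pair hψ (fun x => (ind G x : ℂ)) (fun x => b.Q (x - m))]
    unfold Psi ind
    push_cast
    congr 1
    rw [← Finset.sum_subset (Finset.subset_univ G)]
    · refine Finset.sum_congr rfl fun x hx => ?_
      rw [← Finset.sum_subset (Finset.subset_univ G)]
      · refine Finset.sum_congr rfl fun y hy => ?_
        simp only [hx, hy, if_true]
        split_ifs <;> simp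
      · intro y _ hy; simp [hy]
    · intro x _ hx
      refine Finset.sum_eq_zero fun y _ => ?_
      simp [hx]
  have e6 : ‖∑ x, (ind G x : ℂ) * ψ (0 * b.Q (x - m))‖ ^ 2 = (#G : ℝ) ^ 2 := by
    have : ∑ x, (ind G x : ℂ) * ψ (0 * b.Q (x - m)) = ((#G : ℝ) : ℂ) := by
      rw [← sum_ind]; simp
    rw [this, Complex.norm_real, Real.norm_eq_abs, sq_abs]
  have split : ∀ f : F → ℝ, ∑ r, f r = f 0 + ∑ r with r ≠ 0, f r := by
    intro f
    rw [← Finset.add_sum_erase _ _ (Finset.mem_univ (0 : F))]
    congr 2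
    ext r; simp
  rw [e2, split, e4]
  have e7 : ∑ r with r ≠ 0, ‖∑ x, g x * ψ (r * b.Q x)‖ ^ 2 =
      (Fintype.card V : ℝ)⁻¹ * (Fintype.card F * Psi b G m - (#G : ℝ) ^ 2) := by
    rw [← e5, split (fun r => ‖∑ x, (ind G x : ℂ) * ψ (r * b.Q (x - m))‖ ^ 2), e6,
      add_sub_cancel_left,
      ← sum_neg_inv h2 (fun r => ‖∑ x, (ind G x : ℂ) * ψ (r * b.Q (x - m))‖ ^ 2), Finset.mul_sum]
    refine Finset.sum_congr rfl fun r hr => ?_
    simp only [Finset.mem_filter, Finset.mem_univ, true_and] at hr
    exact e3 r hr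
  rw [e7]
  field_simp
  ring

lemma wu_le (hψ : ψ ≠ 1) (h2 : (2 : F) ≠ 0) (G : Finset V) (m : V) :
    ∑ t, ‖ft b ψ (At b (ker b ψ (ind G)) t) m‖ ^ 2 ≤
      (Fintype.card F : ℝ)⁻¹ + (Fintype.card V : ℝ)⁻¹ * Psi b G m := by
  rw [wu_eq b hψ h2]
  have h1 : ind G m ≤ 1 := by unfold ind; split_ifs <;> norm_num
  have h3 : (Fintype.card F : ℝ)⁻¹ * ind G m ≤ (Fintype.card F : ℝ)⁻¹ * 1 :=
    mul_le_mul_of_nonneg_left h1 (by positivity)
  have h4 : 0 ≤ (Fintype.card F : ℝ)⁻¹ * (Fintype.card V : ℝ)⁻¹ * (#G : ℝ) ^ 2 := by positivity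
  linarith

/-- mass of the square function on an isotropic plane -/
lemma wu_plane (hψ : ψ ≠ 1) (h2 : (2 : F) ≠ 0) (G : Finset V) (e : V) (he : e ≠ 0)
    (hQ : b.Q e = 0) (c : F) :
    ∑ m with b.B m e = c, ∑ t, ‖ft b ψ (At b (ker b ψ (ind G)) t) m‖ ^ 2 ≤
      (#G : ℝ) / Fintype.card F + 2 * #{m ∈ G | b.B m e = c} := by
  classical
  have hv : (0 : ℝ) < Fintype.card V := by exact_mod_cast Fintype.card_pos
  have hq : (0 : ℝ) < Fintype.card F := by exact_mod_cast Fintype.card_pos
  have hq1 : (1 : ℝ) ≤ Fintype.card F := by exact_mod_cast Fintype.card_pos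
  simp_rw [wu_eq b hψ h2]
  rw [Finset.sum_sub_distrib, Finset.sum_add_distrib, ← Finset.mul_sum, ← Finset.mul_sum,
    Finset.sum_const, nsmul_eq_mul, card_one b hψ e he c]
  have h1 : ∑ m with b.B m e = c, ind G m = #{m ∈ G | b.B m e = c} := by
    unfold ind
    rw [Finset.sum_ite_mem]
    simp only [Finset.sum_const, nsmul_eq_mul, mul_one]
    congr 2
    ext m; simp [and_comm]
  have h3 : ∑ m with b.B m e = c, Psi b G m ≤
      (Fintype.card V : ℝ) / Fintype.card F * #G +
      (Fintype.card V : ℝ) / (Fintype.card F) ^ 2 * (#G : ℝ) ^ 2 +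
      (Fintype.card V : ℝ) * #{m ∈ G | b.B m e = c} := by
    have hcount : ∀ x y : V, ∑ m with b.B m e = c, (if b.Q (x - m) = b.Q (y - m) then (1 : ℝ) else 0)
        ≤ (if x = y then (Fintype.card V : ℝ) / Fintype.card F else 0) +
          (Fintype.card V : ℝ) / (Fintype.card F) ^ 2 +
          ∑ s : F, (if x = y + s • e ∧ b.B y e = c then (Fintype.card V : ℝ) / Fintype.card F
            else 0) := by
      intro x y
      have hcle : ∑ m with b.B m e = c, (if b.Q (x - m) = b.Q (y - m) then (1 : ℝ) else 0) ≤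
          (Fintype.card V : ℝ) / Fintype.card F := by
        rw [← card_one b hψ e he c]
        calc _ ≤ ∑ m with b.B m e = c, (1 : ℝ) :=
              Finset.sum_le_sum fun m _ => by split_ifs <;> norm_num
          _ = _ := by simp
      have p1 : 0 ≤ (if x = y then (Fintype.card V : ℝ) / Fintype.card F else 0) := by
        split_ifs <;> positivity
      have p2 : 0 ≤ (Fintype.card V : ℝ) / (Fintype.card F) ^ 2 := by positivity
      have p3 : 0 ≤ ∑ s : F, (if x = y + s • e ∧ b.B y e = c then
          (Fintype.card V : ℝ) / Fintype.card F else 0) :=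
        Finset.sum_nonneg fun s _ => by split_ifs <;> positivity
      by_cases hxy : x = y
      · rw [if_pos hxy] at p1 ⊢
        linarith
      have hiff : ∀ m : V, b.Q (x - m) = b.Q (y - m) ↔ b.B m (x - y) = (b.Q x - b.Q y) / 2 := by
        intro m
        rw [b.Q_sub, b.Q_sub, b.sub_right, eq_div_iff h2, b.symm x m, b.symm y m]
        constructor
        · intro h; linear_combination -h
        · intro h; linear_combination -h
      by_cases hd : Dep F e (x - y)
      · rcases hd with h | ⟨s, hs⟩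
        · exact absurd h he
        have hx : x = y + s • e := by rw [← hs]; abel
        have hs0 : s ≠ 0 := by
          intro h; apply hxy; rw [hx, h]; simp
        by_cases hy : b.B y e = c
        · have : (Fintype.card V : ℝ) / Fintype.card F ≤ ∑ s : F,
              (if x = y + s • e ∧ b.B y e = c then (Fintype.card V : ℝ) / Fintype.card F
                else 0) := by
            refine le_trans ?_ (Finset.single_le_sum (f := fun s : F =>
              (if x = y + s • e ∧ b.B y e = c then (Fintype.card V : ℝ) / Fintype.card F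
                else 0)) (fun s _ => by split_ifs <;> positivity) (Finset.mem_univ s))
            rw [if_pos ⟨hx, hy⟩]
          linarith
        · have : ∑ m with b.B m e = c,
              (if b.Q (x - m) = b.Q (y - m) then (1 : ℝ) else 0) = 0 := by
            refine Finset.sum_eq_zero fun m hm => ?_
            simp only [Finset.mem_filter, Finset.mem_univ, true_and] at hm
            rw [if_neg]
            rw [hiff, hs, b.smul_right, hm, hx, b.Q_add, b.smul_right, b.Q_smul, hQ,
              eq_div_iff h2]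
            intro h
            apply hy
            have h' : s * 2 * (c - b.B y e) = 0 := by linear_combination h
            rcases mul_eq_zero.mp h' with h'' | h''
            · exact absurd h'' (mul_ne_zero hs0 h2)
            · exact (sub_eq_zero.mp h'').symm
          rw [this]; linarith
      · have : ∑ m with b.B m e = c,
            (if b.Q (x - m) = b.Q (y - m) then (1 : ℝ) else 0) =
            (Fintype.card V : ℝ) / (Fintype.card F) ^ 2 := by
          rw [← card_two b hψ e (x - y) hd c ((b.Q x - b.Q y) / 2)]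
          rw [Finset.sum_boole, Finset.filter_filter]
          simp_rw [hiff]
        rw [this]; linarith
    unfold Psi
    calc ∑ m with b.B m e = c, ∑ x ∈ G, ∑ y ∈ G,
          (if b.Q (x - m) = b.Q (y - m) then (1 : ℝ) else 0)
        = ∑ x ∈ G, ∑ y ∈ G, ∑ m with b.B m e = c,
          (if b.Q (x - m) = b.Q (y - m) then (1 : ℝ) else 0) := by
          rw [Finset.sum_comm]
          exact Finset.sum_congr rfl fun x _ => Finset.sum_comm
      _ ≤ ∑ x ∈ G, ∑ y ∈ G, ((if x = y then (Fintype.card V : ℝ) / Fintype.card F else 0) +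
          (Fintype.card V : ℝ) / (Fintype.card F) ^ 2 +
          ∑ s : F, (if x = y + s • e ∧ b.B y e = c then (Fintype.card V : ℝ) / Fintype.card F
            else 0)) := Finset.sum_le_sum fun x _ => Finset.sum_le_sum fun y _ => hcount x y
      _ = (Fintype.card V : ℝ) / Fintype.card F * #G +
          (Fintype.card V : ℝ) / (Fintype.card F) ^ 2 * (#G : ℝ) ^ 2 +
          ∑ y ∈ G, ∑ s : F, ∑ x ∈ G, (if x = y + s • e ∧ b.B y e = c then
            (Fintype.card V : ℝ) / Fintype.card F else 0) := by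
          simp_rw [Finset.sum_add_distrib]
          congr 1
          · congr 1
            · rw [show (Fintype.card V : ℝ) / Fintype.card F * #G =
                ∑ x ∈ G, (Fintype.card V : ℝ) / Fintype.card F by simp; ring]
              refine Finset.sum_congr rfl fun x hx => ?_
              simp [hx]
            · simp; ring
          · rw [Finset.sum_comm]
            exact Finset.sum_congr rfl fun y _ => Finset.sum_comm
      _ ≤ (Fintype.card V : ℝ) / Fintype.card F * #G +
          (Fintype.card V : ℝ) / (Fintype.card F) ^ 2 * (#G : ℝ) ^ 2 +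
          ∑ y ∈ G, ∑ s : F, (if b.B y e = c then
            (Fintype.card V : ℝ) / Fintype.card F else 0) := by
          refine add_le_add (le_refl _) ?_
          refine Finset.sum_le_sum fun y _ => Finset.sum_le_sum fun s _ => ?_
          by_cases hy : b.B y e = c
          · simp only [hy, and_true, if_true]
            rw [Finset.sum_ite_eq']
            split_ifs
            · exact le_refl _
            · positivity
          · simp [hy]
      _ = _ := by
          congr 1
          simp only [Finset.sum_const, Finset.card_univ, nsmul_eq_mul]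
          rw [← Finset.mul_sum, ← Finset.sum_filter, Finset.sum_const, nsmul_eq_mul]
          field_simp
  rw [h1]
  have hb : (0 : ℝ) ≤ #{m ∈ G | b.B m e = c} := by positivity
  have h4 := mul_le_mul_of_nonneg_left h3 (inv_nonneg.mpr hv.le)
  have h5 : (Fintype.card F : ℝ)⁻¹ * #{m ∈ G | b.B m e = c} ≤ #{m ∈ G | b.B m e = c} := by
    rw [inv_mul_le_iff₀ hq]; nlinarith
  have h6 : (Fintype.card V : ℝ)⁻¹ * ((Fintype.card V : ℝ) / Fintype.card F * #G +
      (Fintype.card V : ℝ) / (Fintype.card F) ^ 2 * (#G : ℝ) ^ 2 +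
      (Fintype.card V : ℝ) * #{m ∈ G | b.B m e = c}) = #G / Fintype.card F +
      (#G : ℝ) ^ 2 / (Fintype.card F) ^ 2 + #{m ∈ G | b.B m e = c} := by field_simp
  have h7 : (Fintype.card V : ℝ) / Fintype.card F * ((Fintype.card F : ℝ)⁻¹ *
      (Fintype.card V : ℝ)⁻¹ * (#G : ℝ) ^ 2) = (#G : ℝ) ^ 2 / (Fintype.card F) ^ 2 := by
    field_simp
  rw [h6] at h4
  rw [h7]
  linarith

end Pool.Agent.H375R4
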